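import Pool.Agent.Lib.MP_7045fd_an.Small

section

set_option autoImplicit false

namespace Pool.Agent.Lib.MP_7045fd_an

open MeasureTheory Filter Topology Metric
open scoped ENNReal InnerProductSpace

variable {n : ℕ}

/-- The four centers at scale `r`. -/
noncomputable def cen (i0 i1 : Fin n) (r : ℝ) : Fin 4 → E n :=
  ![EuclideanSpace.single i0 (r / 5), EuclideanSpace.single i0 (-(r / 5)),
    EuclideanSpace.single i1 (r / 5), EuclideanSpace.single i1 (-(r / 5))]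

/-- The potential of the four spheres at scale `r`. -/
noncomputable def Phi (i0 i1 : Fin n) (k : ℕ) (r : ℝ) (x : E n) : ℝ :=
  ∑ c : Fin 4, ef i0 i1 k (cen i0 i1 r c) r x

/-- The value of the potential of scale `r` on the spheres of scale `σ`. -/
noncomputable def VV (k : ℕ) (r σ : ℝ) : ℝ :=
  val k r σ ((r - σ) ^ 2 / 25) + 2 * val k r σ ((r ^ 2 + σ ^ 2) / 25)
    + val k r σ ((r + σ) ^ 2 / 25)

/-- The value of the potential of scale `r` at the origin. -/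
noncomputable def P0 (k : ℕ) (r : ℝ) : ℝ := 4 * (26 / 25)⁻¹ ^ k * (r ^ 2)⁻¹ ^ k

/-- The normalized value of the potential on its own spheres. -/
noncomputable def v0 (k : ℕ) : ℝ := val k 1 1 0 + 2 * val k 1 1 (2 / 25) + val k 1 1 (4 / 25)

section values

variable (i0 i1 : Fin n)

theorem cen_off (r : ℝ) (c : Fin 4) (i : Fin n) (h0 : i ≠ i0) (h1 : i ≠ i1) :
    cen i0 i1 r c i = 0 := by
  fin_cases c <;> simp [cen, h0, h1]

theorem Phi_on (h01 : i0 ≠ i1) (k : ℕ) (r : ℝ) {σ : ℝ} (hσ : 0 < σ) (c' : Fin 4) {y : E n}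
    (hy : Pf i0 i1 (cen i0 i1 σ c') σ y = 0) : Phi i0 i1 k r y = VV k r σ := by
  unfold Phi
  have h : ∀ c, ef i0 i1 k (cen i0 i1 r c) r y
      = val k r σ ((cen i0 i1 σ c' i0 - cen i0 i1 r c i0) ^ 2
          + (cen i0 i1 σ c' i1 - cen i0 i1 r c i1) ^ 2) := fun c =>
    ef_on i0 i1 h01 k _ r hσ (fun i h0 h1 => by
      rw [cen_off i0 i1 r c i h0 h1, cen_off i0 i1 σ c' i h0 h1]) hy
  simp_rw [h]
  unfold VV
  rw [Fin.sum_univ_four]
  have e1 : ((r - σ) ^ 2 / 25) = (σ / 5 - r / 5) ^ 2 := by ring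
  have e2 : ((r ^ 2 + σ ^ 2) / 25) = (σ / 5) ^ 2 + (r / 5) ^ 2 := by ring
  have e3 : ((r + σ) ^ 2 / 25) = (σ / 5 + r / 5) ^ 2 := by ring
  rw [e1, e2, e3]
  fin_cases c'
  · simp only [cen, Fin.zero_eta, Matrix.cons_val_zero, Matrix.cons_val_one, Matrix.cons_val,
      EuclideanSpace.single_apply, h01, h01.symm, if_true, if_false]
    have a1 : (σ / 5 - r / 5) ^ 2 + (0 - 0 : ℝ) ^ 2 = (σ / 5 - r / 5) ^ 2 := by ring
    have a2 : (σ / 5 - -(r / 5)) ^ 2 + (0 - 0 : ℝ) ^ 2 = (σ / 5 + r / 5) ^ 2 := by ring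
    have a3 : (σ / 5 - 0) ^ 2 + (0 - r / 5) ^ 2 = (σ / 5) ^ 2 + (r / 5) ^ 2 := by ring
    have a4 : (σ / 5 - 0) ^ 2 + (0 - -(r / 5)) ^ 2 = (σ / 5) ^ 2 + (r / 5) ^ 2 := by ring
    rw [a1, a2, a3, a4]; ring
  · simp only [cen, Fin.mk_one, Matrix.cons_val_zero, Matrix.cons_val_one, Matrix.cons_val,
      EuclideanSpace.single_apply, h01, h01.symm, if_true, if_false]
    have a1 : (-(σ / 5) - r / 5) ^ 2 + (0 - 0 : ℝ) ^ 2 = (σ / 5 + r / 5) ^ 2 := by ring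
    have a2 : (-(σ / 5) - -(r / 5)) ^ 2 + (0 - 0 : ℝ) ^ 2 = (σ / 5 - r / 5) ^ 2 := by ring
    have a3 : (-(σ / 5) - 0) ^ 2 + (0 - r / 5) ^ 2 = (σ / 5) ^ 2 + (r / 5) ^ 2 := by ring
    have a4 : (-(σ / 5) - 0) ^ 2 + (0 - -(r / 5)) ^ 2 = (σ / 5) ^ 2 + (r / 5) ^ 2 := by ring
    rw [a1, a2, a3, a4]; ring
  · simp only [cen, Fin.reduceFinMk, Matrix.cons_val_zero, Matrix.cons_val_one, Matrix.cons_val,
      EuclideanSpace.single_apply, h01, h01.symm, if_true, if_false]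
    have a1 : (0 - r / 5) ^ 2 + (σ / 5 - 0) ^ 2 = (σ / 5) ^ 2 + (r / 5) ^ 2 := by ring
    have a2 : (0 - -(r / 5)) ^ 2 + (σ / 5 - 0) ^ 2 = (σ / 5) ^ 2 + (r / 5) ^ 2 := by ring
    have a3 : (0 - 0 : ℝ) ^ 2 + (σ / 5 - r / 5) ^ 2 = (σ / 5 - r / 5) ^ 2 := by ring
    have a4 : (0 - 0 : ℝ) ^ 2 + (σ / 5 - -(r / 5)) ^ 2 = (σ / 5 + r / 5) ^ 2 := by ring
    rw [a1, a2, a3, a4]; ring
  · simp only [cen, Fin.reduceFinMk, Matrix.cons_val_zero, Matrix.cons_val_one, Matrix.cons_val,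
      EuclideanSpace.single_apply, h01, h01.symm, if_true, if_false]
    have a1 : (0 - r / 5) ^ 2 + (-(σ / 5) - 0) ^ 2 = (σ / 5) ^ 2 + (r / 5) ^ 2 := by ring
    have a2 : (0 - -(r / 5)) ^ 2 + (-(σ / 5) - 0) ^ 2 = (σ / 5) ^ 2 + (r / 5) ^ 2 := by ring
    have a3 : (0 - 0 : ℝ) ^ 2 + (-(σ / 5) - r / 5) ^ 2 = (σ / 5 + r / 5) ^ 2 := by ring
    have a4 : (0 - 0 : ℝ) ^ 2 + (-(σ / 5) - -(r / 5)) ^ 2 = (σ / 5 - r / 5) ^ 2 := by ring
    rw [a1, a2, a3, a4]; ring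

theorem cen_sq (h01 : i0 ≠ i1) (r : ℝ) (c : Fin 4) :
    (cen i0 i1 r c i0) ^ 2 + (cen i0 i1 r c i1) ^ 2 = r ^ 2 / 25 := by
  fin_cases c <;> simp [cen, h01, h01.symm] <;> ring

theorem norm_on_sq (h01 : i0 ≠ i1) {σ : ℝ} (hσ : 0 < σ) (c' : Fin 4) {y : E n}
    (hy : Pf i0 i1 (cen i0 i1 σ c') σ y = 0) : ‖y‖ ^ 2 = σ ^ 2 * (26 / 25) := by
  have h := (Nf_on i0 i1 (0 : E n) h01 hσ (fun i h0 h1 => by
      rw [cen_off i0 i1 σ c' i h0 h1]; rfl) hy).2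
  rw [Nf_zero] at h
  rw [h]
  have h2 := cen_sq i0 i1 h01 σ c'
  have e : (cen i0 i1 σ c' i0 - (0 : E n) i0) ^ 2 + (cen i0 i1 σ c' i1 - (0 : E n) i1) ^ 2
      = (cen i0 i1 σ c' i0) ^ 2 + (cen i0 i1 σ c' i1) ^ 2 := by simp
  rw [e, h2]; ring

theorem norm_cen_sq (h01 : i0 ≠ i1) (r : ℝ) (c : Fin 4) : ‖cen i0 i1 r c‖ ^ 2 = r ^ 2 / 25 := by
  have h1 : Nf 0 (cen i0 i1 r c) = ‖cen i0 i1 r c‖ ^ 2 := Nf_zero _
  rw [← h1, ← cen_sq i0 i1 h01 r c]
  unfold Nf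
  rw [← Finset.sum_pair h01 (f := fun i => (cen i0 i1 r c i) ^ 2)]
  symm
  have : ∀ i, (cen i0 i1 r c i - (0 : E n) i) ^ 2 = (cen i0 i1 r c i) ^ 2 := fun i => by simp
  simp_rw [this]
  apply Finset.sum_subset (Finset.subset_univ _)
  intro i _ hi
  simp only [Finset.mem_insert, Finset.mem_singleton, not_or] at hi
  rw [cen_off i0 i1 r c i hi.1 hi.2]; ring

theorem Phi_zero (h01 : i0 ≠ i1) (k : ℕ) {r : ℝ} (hr : 0 < r) : Phi i0 i1 k r 0 = P0 k r := by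
  unfold Phi
  have h : ∀ c, ef i0 i1 k (cen i0 i1 r c) r 0 = (26 / 25)⁻¹ ^ k * (r ^ 2)⁻¹ ^ k := by
    intro c
    unfold ef
    rw [zpow_neg_eq, ← mul_pow, ← mul_inv]
    congr 2
    have hN : Nf (cen i0 i1 r c) 0 = r ^ 2 / 25 := by
      rw [Nf_eq, zero_sub, norm_neg, norm_cen_sq i0 i1 h01]
    have hX : Xf i0 i1 (cen i0 i1 r c) 0 = r ^ 2 / 25 := by
      unfold Xf
      rw [← cen_sq i0 i1 h01 r c]
      simp
    have hR : Rf i0 i1 (cen i0 i1 r c) r 0 = 26 / 25 * r ^ 2 := by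
      unfold Rf Pf
      rw [hN, hX]
      have e : (r ^ 2 / 25 - r ^ 2) ^ 2 + 4 * r ^ 2 * (r ^ 2 / 25) = (26 / 25 * r ^ 2) ^ 2 := by ring
      rw [e, Real.sqrt_sq (by positivity)]
    unfold Af
    rw [hN, hR]
    ring
  simp_rw [h]
  unfold P0
  simp
  ring

theorem val_scale (k : ℕ) {r : ℝ} (hr : 0 < r) (a b D : ℝ) :
    val k (r * a) (r * b) (r ^ 2 * D) = (r ^ 2)⁻¹ ^ k * val k a b D := by
  unfold val
  rw [← mul_pow, ← mul_inv]
  congr 2
  have e : ((r * b) ^ 2 + r ^ 2 * D - (r * a) ^ 2) ^ 2 + 4 * (r * a) ^ 2 * (r ^ 2 * D)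
      = (r ^ 2) ^ 2 * ((b ^ 2 + D - a ^ 2) ^ 2 + 4 * a ^ 2 * D) := by ring
  rw [e, Real.sqrt_mul (by positivity), Real.sqrt_sq (by positivity)]
  ring

theorem VV_self (k : ℕ) {r : ℝ} (hr : 0 < r) : VV k r r = v0 k * (r ^ 2)⁻¹ ^ k := by
  unfold VV v0
  have h1 := val_scale k hr 1 1 0
  have h2 := val_scale k hr 1 1 (2 / 25)
  have h3 := val_scale k hr 1 1 (4 / 25)
  simp only [mul_one, mul_zero] at h1 h2 h3
  have e1 : ((r - r) ^ 2 / 25) = 0 := by ring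
  have e2 : ((r ^ 2 + r ^ 2) / 25) = r ^ 2 * (2 / 25) := by ring
  have e3 : ((r + r) ^ 2 / 25) = r ^ 2 * (4 / 25) := by ring
  rw [e1, e2, e3, h1, h2, h3]
  ring

theorem val_pos (k : ℕ) {ρ σ D : ℝ} (h : 0 < σ ^ 2 + ρ ^ 2) (hD : 0 ≤ D) : 0 < val k ρ σ D := by
  unfold val
  have h1 : 0 ≤ √((σ ^ 2 + D - ρ ^ 2) ^ 2 + 4 * ρ ^ 2 * D) := Real.sqrt_nonneg _
  have h2 : 0 < (σ ^ 2 + D + ρ ^ 2 + √((σ ^ 2 + D - ρ ^ 2) ^ 2 + 4 * ρ ^ 2 * D)) / 2 := by
    linarith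
  positivity

theorem v0_pos (k : ℕ) : 0 < v0 k := by
  unfold v0
  have h1 := val_pos k (ρ := 1) (σ := 1) (D := 0) (by norm_num) le_rfl
  have h2 := val_pos k (ρ := 1) (σ := 1) (D := 2 / 25) (by norm_num) (by norm_num)
  have h3 := val_pos k (ρ := 1) (σ := 1) (D := 4 / 25) (by norm_num) (by norm_num)
  linarith

theorem val_tendsto (k : ℕ) {ρ σ D : ℝ} (h : 0 < σ ^ 2 + ρ ^ 2) (hD : 0 ≤ D) {f g d : ℕ → ℝ}
    (hf : Tendsto f atTop (𝓝 ρ)) (hg : Tendsto g atTop (𝓝 σ)) (hd : Tendsto d atTop (𝓝 D)) :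
    Tendsto (fun j => val k (f j) (g j) (d j)) atTop (𝓝 (val k ρ σ D)) := by
  unfold val
  apply Tendsto.pow
  apply Tendsto.inv₀
  · apply Tendsto.div_const
    apply Tendsto.add
    · exact ((hg.pow 2).add hd).add (hf.pow 2)
    · apply (Real.continuous_sqrt.tendsto _).comp
      exact ((((hg.pow 2).add hd).sub (hf.pow 2)).pow 2).add
        (((hf.pow 2).const_mul 4).mul hd)
  · have h1 : 0 ≤ √((σ ^ 2 + D - ρ ^ 2) ^ 2 + 4 * ρ ^ 2 * D) := Real.sqrt_nonneg _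
    have h2 : 0 < (σ ^ 2 + D + ρ ^ 2 + √((σ ^ 2 + D - ρ ^ 2) ^ 2 + 4 * ρ ^ 2 * D)) / 2 := by
      linarith
    exact h2.ne'

theorem VV_tendsto (k : ℕ) {ρ σ : ℝ} (h : 0 < σ ^ 2 + ρ ^ 2) {f g : ℕ → ℝ}
    (hf : Tendsto f atTop (𝓝 ρ)) (hg : Tendsto g atTop (𝓝 σ)) :
    Tendsto (fun j => VV k (f j) (g j)) atTop (𝓝 (VV k ρ σ)) := by
  unfold VV
  apply Tendsto.add
  · apply Tendsto.add
    · exact val_tendsto k h (by positivity) hf hg (((hf.sub hg).pow 2).div_const 25)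
    · apply Tendsto.const_mul
      exact val_tendsto k h (by positivity) hf hg (((hf.pow 2).add (hg.pow 2)).div_const 25)
  · exact val_tendsto k h (by positivity) hf hg (((hf.add hg).pow 2).div_const 25)

theorem VV_zero_right (k : ℕ) {r : ℝ} (hr : 0 < r) : VV k r 0 = P0 k r := by
  have h : val k r 0 (r ^ 2 / 25) = (26 / 25)⁻¹ ^ k * (r ^ 2)⁻¹ ^ k := by
    unfold val
    rw [← mul_pow, ← mul_inv]
    congr 2
    have e : ((0:ℝ) ^ 2 + r ^ 2 / 25 - r ^ 2) ^ 2 + 4 * r ^ 2 * (r ^ 2 / 25)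
        = (26 / 25 * r ^ 2) ^ 2 := by ring
    rw [e, Real.sqrt_sq (by positivity)]
    ring
  unfold VV P0
  have e1 : ((r - 0) ^ 2 / 25) = r ^ 2 / 25 := by ring
  have e2 : ((r ^ 2 + 0 ^ 2) / 25) = r ^ 2 / 25 := by ring
  have e3 : ((r + 0) ^ 2 / 25) = r ^ 2 / 25 := by ring
  rw [e1, e2, e3, h]
  ring

/-- The overshoot inequality. -/
theorem overshoot : 2 * v0 8 < 4 * (26 / 25 : ℝ)⁻¹ ^ 8 := by
  have h1 : val 8 1 1 0 = 1 := by
    unfold val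
    norm_num
  have h2 : val 8 1 1 (2 / 25) ≤ (1.32 : ℝ)⁻¹ ^ 8 := by
    unfold val
    apply pow_le_pow_left₀
    · positivity
    · apply inv_anti₀ (by norm_num)
      have : (0.568 : ℝ) ≤ √((1 ^ 2 + 2 / 25 - 1 ^ 2) ^ 2 + 4 * 1 ^ 2 * (2 / 25)) := by
        apply Real.le_sqrt_of_sq_le
        norm_num
      linarith
  have h3 : val 8 1 1 (4 / 25) ≤ (1.48 : ℝ)⁻¹ ^ 8 := by
    unfold val
    apply pow_le_pow_left₀
    · positivity
    · apply inv_anti₀ (by norm_num)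
      have : (0.8 : ℝ) ≤ √((1 ^ 2 + 4 / 25 - 1 ^ 2) ^ 2 + 4 * 1 ^ 2 * (4 / 25)) := by
        apply Real.le_sqrt_of_sq_le
        norm_num
      linarith
  unfold v0
  have h4 : 2 * (1 + 2 * (1.32 : ℝ)⁻¹ ^ 8 + (1.48 : ℝ)⁻¹ ^ 8) < 4 * (26 / 25 : ℝ)⁻¹ ^ 8 := by
    norm_num
  linarith

end values

end Pool.Agent.Lib.MP_7045fd_an
end

section

set_option autoImplicit false

namespace Pool.Agent.Lib.MP_7045fd_an

open MeasureTheory Filter Topology Metric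
open scoped ENNReal InnerProductSpace

/-- The radii. -/
noncomputable def rr (j : ℕ) : ℝ := (1 / 2) ^ (j + 2)

theorem rr_pos (j : ℕ) : 0 < rr j := by unfold rr; positivity

theorem rr_tendsto : Tendsto rr atTop (𝓝 0) := by
  have h := tendsto_pow_atTop_nhds_zero_of_lt_one (r := (1 / 2 : ℝ)) (by norm_num) (by norm_num)
  exact h.comp (tendsto_add_atTop_nat 2)

/-- The linear system for the set of scales `S` is solvable. -/
def Solv (k : ℕ) (S : Finset ℕ) : Prop :=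
  ∀ b : ℕ → ℝ, ∃ c : ℕ → ℝ, ∀ i ∈ S, ∑ j ∈ S, c j * VV k (rr j) (rr i) = b i

/-- The coefficients `lam` solve the system for `S` and the value at the origin is large. -/
def SolI (k : ℕ) (S : Finset ℕ) (lam : ℕ → ℝ) : Prop :=
  (∀ i ∈ S, 2 - ∑ j ∈ S, lam j * VV k (rr j) (rr i) = 0) ∧
    2 ≤ |2 - ∑ j ∈ S, lam j * P0 k (rr j)|

/-- The invariant. -/
def Inv (k : ℕ) (S : Finset ℕ) : Prop := Solv k S ∧ ∃ lam, SolI k S lam

theorem inv_empty (k : ℕ) : Inv k ∅ := by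
  refine ⟨fun b => ⟨fun _ => 0, by simp⟩, fun _ => 0, by simp, by simp⟩

theorem VVr_tendsto (k : ℕ) (j : ℕ) :
    Tendsto (fun q => VV k (rr j) (rr q)) atTop (𝓝 (P0 k (rr j))) := by
  rw [← VV_zero_right k (rr_pos j)]
  exact VV_tendsto k (by have := rr_pos j; positivity) tendsto_const_nhds rr_tendsto

theorem VVl_tendsto (k : ℕ) (j : ℕ) :
    Tendsto (fun q => VV k (rr q) (rr j)) atTop (𝓝 (VV k 0 (rr j))) :=
  VV_tendsto k (by have := rr_pos j; positivity) rr_tendsto tendsto_const_nhds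

theorem inv_step (k : ℕ) (hk0 : k ≠ 0) (hk : 2 * v0 k < 4 * (26 / 25 : ℝ)⁻¹ ^ k) {S : Finset ℕ}
    (h : Inv k S) : ∀ᶠ q in atTop, q ∉ S ∧ Inv k (insert q S) := by
  obtain ⟨hS, lam, hl1, hl2⟩ := h
  choose C hC using (fun m : ℕ => hS (fun i => if i = m then 1 else 0))
  obtain ⟨c, hcdef⟩ : ∃ c : ℕ → ℕ → ℝ, c = fun q j => ∑ m ∈ S, C m j * VV k (rr q) (rr m) :=
    ⟨_, rfl⟩
  have hc : ∀ q, ∀ i ∈ S, ∑ j ∈ S, c q j * VV k (rr j) (rr i) = VV k (rr q) (rr i) := by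
    intro q i hi
    simp only [hcdef, Finset.sum_mul]
    rw [Finset.sum_comm]
    have e : ∀ m ∈ S, ∑ j ∈ S, C m j * VV k (rr q) (rr m) * VV k (rr j) (rr i)
        = if i = m then VV k (rr q) (rr m) else 0 := by
      intro m _
      have h1 := hC m i hi
      have h2 : ∑ j ∈ S, C m j * VV k (rr q) (rr m) * VV k (rr j) (rr i)
          = VV k (rr q) (rr m) * ∑ j ∈ S, C m j * VV k (rr j) (rr i) := by
        rw [Finset.mul_sum]
        exact Finset.sum_congr rfl fun j _ => by ring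
      rw [h2, h1]
      split_ifs <;> simp
    rw [Finset.sum_congr rfl e, Finset.sum_ite_eq]
    simp [hi]
  have hcT : ∀ j, Tendsto (fun q => c q j) atTop (𝓝 (∑ m ∈ S, C m j * VV k 0 (rr m))) := by
    intro j
    simp only [hcdef]
    exact tendsto_finsetSum _ fun m _ => (VVl_tendsto k m).const_mul _
  have hr0 : Tendsto (fun q => (rr q ^ 2) ^ k) atTop (𝓝 0) := by
    have h1 := (rr_tendsto.pow 2).pow k
    simpa [hk0] using h1
  have hrp : ∀ q, 0 < (rr q ^ 2) ^ k := fun q => by have := rr_pos q; positivity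
  have hD0 : ∀ q, (rr q ^ 2) ^ k * (VV k (rr q) (rr q)
      - ∑ j ∈ S, c q j * VV k (rr j) (rr q))
      = v0 k - (rr q ^ 2) ^ k * ∑ j ∈ S, c q j * VV k (rr j) (rr q) := by
    intro q
    rw [VV_self k (rr_pos q), inv_pow]
    have := (hrp q).ne'
    field_simp
  have hW0 : ∀ q, (rr q ^ 2) ^ k * (P0 k (rr q) - ∑ j ∈ S, c q j * P0 k (rr j))
      = 4 * (26 / 25 : ℝ)⁻¹ ^ k - (rr q ^ 2) ^ k * ∑ j ∈ S, c q j * P0 k (rr j) := by
    intro q
    unfold P0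
    rw [mul_sub, inv_pow (rr q ^ 2)]
    have := (hrp q).ne'
    field_simp
  have hDT : Tendsto (fun q => (rr q ^ 2) ^ k * (VV k (rr q) (rr q)
      - ∑ j ∈ S, c q j * VV k (rr j) (rr q))) atTop (𝓝 (v0 k)) := by
    simp_rw [hD0]
    have h1 : Tendsto (fun q => ∑ j ∈ S, c q j * VV k (rr j) (rr q)) atTop
        (𝓝 (∑ j ∈ S, (∑ m ∈ S, C m j * VV k 0 (rr m)) * P0 k (rr j))) :=
      tendsto_finsetSum _ fun j _ => (hcT j).mul (VVr_tendsto k j)
    simpa using (tendsto_const_nhds (x := v0 k)).sub (hr0.mul h1)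
  have hWT : Tendsto (fun q => (rr q ^ 2) ^ k * (P0 k (rr q) - ∑ j ∈ S, c q j * P0 k (rr j)))
      atTop (𝓝 (4 * (26 / 25 : ℝ)⁻¹ ^ k)) := by
    simp_rw [hW0]
    have h1 : Tendsto (fun q => ∑ j ∈ S, c q j * P0 k (rr j)) atTop
        (𝓝 (∑ j ∈ S, (∑ m ∈ S, C m j * VV k 0 (rr m)) * P0 k (rr j))) :=
      tendsto_finsetSum _ fun j _ => (hcT j).mul_const _
    simpa using (tendsto_const_nhds (x := 4 * (26 / 25 : ℝ)⁻¹ ^ k)).sub (hr0.mul h1)
  have huT : Tendsto (fun q => 2 - ∑ j ∈ S, lam j * VV k (rr j) (rr q)) atTop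
      (𝓝 (2 - ∑ j ∈ S, lam j * P0 k (rr j))) :=
    tendsto_const_nhds.sub (tendsto_finsetSum _ fun j _ => (VVr_tendsto k j).const_mul _)
  obtain ⟨U0, hU0⟩ : ∃ U0, U0 = 2 - ∑ j ∈ S, lam j * P0 k (rr j) := ⟨_, rfl⟩
  have hv := v0_pos k
  have hnew : Tendsto (fun q => U0 - (2 - ∑ j ∈ S, lam j * VV k (rr j) (rr q)) *
      (((rr q ^ 2) ^ k * (P0 k (rr q) - ∑ j ∈ S, c q j * P0 k (rr j))) /
        ((rr q ^ 2) ^ k * (VV k (rr q) (rr q) - ∑ j ∈ S, c q j * VV k (rr j) (rr q)))))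
      atTop (𝓝 (U0 - U0 * (4 * (26 / 25 : ℝ)⁻¹ ^ k / v0 k))) := by
    have h1 := huT.mul (hWT.div hDT hv.ne')
    rw [← hU0] at h1
    exact tendsto_const_nhds.sub h1
  have hlim : 2 < |U0 - U0 * (4 * (26 / 25 : ℝ)⁻¹ ^ k / v0 k)| := by
    have e : U0 - U0 * (4 * (26 / 25 : ℝ)⁻¹ ^ k / v0 k)
        = U0 * (1 - 4 * (26 / 25 : ℝ)⁻¹ ^ k / v0 k) := by ring
    rw [e, abs_mul]
    have h1 : 2 < 4 * (26 / 25 : ℝ)⁻¹ ^ k / v0 k := by
      rw [lt_div_iff₀ hv]; exact hk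
    have h2 : 1 < |1 - 4 * (26 / 25 : ℝ)⁻¹ ^ k / v0 k| := by
      rw [abs_sub_comm]
      exact lt_of_lt_of_le (by linarith) (le_abs_self _)
    have h3 : 2 ≤ |U0| := by rw [hU0]; exact hl2
    nlinarith
  have hev1 := hnew.abs.eventually (lt_mem_nhds hlim)
  have hev2 := hDT.eventually (lt_mem_nhds hv)
  have hev3 : ∀ᶠ q in atTop, q ∉ S := by
    filter_upwards [eventually_gt_atTop (S.sup id)] with q hq hqS
    have := Finset.le_sup (f := id) hqS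
    simp only [id] at this
    omega
  filter_upwards [hev1, hev2, hev3] with q h1 h2 h3
  refine ⟨h3, ?_⟩
  have hDpos : 0 < VV k (rr q) (rr q) - ∑ j ∈ S, c q j * VV k (rr j) (rr q) :=
    (mul_pos_iff_of_pos_left (hrp q)).1 h2
  rw [mul_div_mul_left _ _ (hrp q).ne'] at h1
  obtain ⟨D, hD⟩ : ∃ D, D = VV k (rr q) (rr q) - ∑ j ∈ S, c q j * VV k (rr j) (rr q) := ⟨_, rfl⟩
  rw [← hD] at hDpos h1
  -- sums over `insert q S` of modified coefficients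
  have hsum : ∀ (a : ℕ → ℝ) (t : ℝ) (w : ℕ → ℝ),
      ∑ j ∈ insert q S, (if j = q then t else a j - t * c q j) * w j
        = ∑ j ∈ S, a j * w j + t * (w q - ∑ j ∈ S, c q j * w j) := by
    intro a t w
    rw [Finset.sum_insert h3]
    have e : ∑ j ∈ S, (if j = q then t else a j - t * c q j) * w j
        = ∑ j ∈ S, a j * w j - t * ∑ j ∈ S, c q j * w j := by
      rw [Finset.mul_sum, ← Finset.sum_sub_distrib]
      refine Finset.sum_congr rfl fun j hj => ?_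
      have : j ≠ q := fun h => h3 (h ▸ hj)
      simp only [this, if_false]
      ring
    rw [e]
    simp only [if_true]
    ring
  have hS' : Solv k (insert q S) := by
    intro b
    obtain ⟨a, ha⟩ := hS b
    refine ⟨fun j => if j = q then (b q - ∑ j ∈ S, a j * VV k (rr j) (rr q)) / D
      else a j - (b q - ∑ j ∈ S, a j * VV k (rr j) (rr q)) / D * c q j, ?_⟩
    intro i hi
    rw [hsum a _ (fun j => VV k (rr j) (rr i))]
    rcases Finset.mem_insert.1 hi with rfl | hi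
    · rw [← hD, div_mul_cancel₀ _ hDpos.ne']
      ring
    · rw [ha i hi, hc q i hi]
      ring
  refine ⟨hS', fun j => if j = q then (2 - ∑ j ∈ S, lam j * VV k (rr j) (rr q)) / D
      else lam j - (2 - ∑ j ∈ S, lam j * VV k (rr j) (rr q)) / D * c q j, ?_, ?_⟩
  · intro i hi
    rw [hsum lam _ (fun j => VV k (rr j) (rr i))]
    rcases Finset.mem_insert.1 hi with rfl | hi
    · rw [← hD, div_mul_cancel₀ _ hDpos.ne']
      ring
    · rw [hc q i hi]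
      have := hl1 i hi
      linarith
  · rw [hsum lam _ (fun j => P0 k (rr j))]
    have e : 2 - (∑ j ∈ S, lam j * P0 k (rr j)
        + (2 - ∑ j ∈ S, lam j * VV k (rr j) (rr q)) / D * (P0 k (rr q)
          - ∑ j ∈ S, c q j * P0 k (rr j)))
        = U0 - (2 - ∑ j ∈ S, lam j * VV k (rr j) (rr q)) *
          ((P0 k (rr q) - ∑ j ∈ S, c q j * P0 k (rr j)) / D) := by
      rw [hU0]; ring
    rw [e]
    exact h1.le

end Pool.Agent.Lib.MP_7045fd_an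
end

section

set_option autoImplicit false

namespace Pool.Agent.Lib.MP_7045fd_an

open MeasureTheory Filter Topology Metric
open scoped ENNReal InnerProductSpace

variable {n : ℕ}

theorem Good.sub {O : Set (E n)} {k : ℕ} {u v : E n → ℝ} (hO : ∀ᵐ x, x ∈ O)
    (hu : Good O k u) (hv : Good O k v) : Good O k (fun x => u x - v x) := by
  have h := hu.add hO (hv.const_mul hO (-1))
  have e : (fun x => u x - v x) = fun x => u x + -1 * v x := by funext x; ring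
  rw [e]; exact h

/-- The Laplacian of `f` is orthogonal to the Laplacians of test functions. -/
def Orth (O : Set (E n)) (f : E n → ℝ) : Prop :=
  ∀ ψ, IsTest O ψ → ∫ x, lap f x * lap ψ x = 0

theorem Good.integrable {O : Set (E n)} {k : ℕ} {u : E n → ℝ} (hu : Good O k u) {ψ : E n → ℝ}
    {U : Set (E n)} (hψ : IsTest U ψ) : Integrable (fun x => lap u x * lap ψ x) :=
  hu.lp.integrable_mul hψ.memLp_lap

theorem Orth.add {O : Set (E n)} {k : ℕ} {u v : E n → ℝ} (hO : ∀ᵐ x, x ∈ O)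
    (hu : Good O k u) (hv : Good O k v) (h1 : Orth O u) (h2 : Orth O v) :
    Orth O (fun x => u x + v x) := by
  intro ψ hψ
  have e : ∫ x, lap (fun x => u x + v x) x * lap ψ x
      = ∫ x, (lap u x * lap ψ x + lap v x * lap ψ x) := by
    apply integral_congr_ae
    filter_upwards [hO] with x hx
    rw [lap_add (contDiffAt_infty.1 (hu.sm x hx) 2) (contDiffAt_infty.1 (hv.sm x hx) 2)]
    ring
  rw [e, integral_add (hu.integrable hψ) (hv.integrable hψ), h1 ψ hψ, h2 ψ hψ, add_zero]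

theorem Orth.const_mul {O : Set (E n)} {k : ℕ} {u : E n → ℝ} (hO : ∀ᵐ x, x ∈ O)
    (hu : Good O k u) (h1 : Orth O u) (c : ℝ) : Orth O (fun x => c * u x) := by
  intro ψ hψ
  have e : ∫ x, lap (fun x => c * u x) x * lap ψ x = ∫ x, c * (lap u x * lap ψ x) := by
    apply integral_congr_ae
    filter_upwards [hO] with x hx
    rw [lap_const_mul c (contDiffAt_infty.1 (hu.sm x hx) 2)]
    ring
  rw [e, integral_const_mul, h1 ψ hψ, mul_zero]

section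

variable (i0 i1 : Fin n)

theorem good_Phi (h01 : i0 ≠ i1) (k : ℕ) (hk : 1 ≤ k) (hn : n = 2 * k + 4) {r : ℝ} (hr : 0 < r)
    {O : Set (E n)} (hOae : ∀ᵐ x, x ∈ O) (hO : ∀ x ∈ O, ∀ c, 0 < Pf i0 i1 (cen i0 i1 r c) r x) :
    Good O k (Phi i0 i1 k r) := by
  have h : ∀ c, Good O k (ef i0 i1 k (cen i0 i1 r c) r) := fun c =>
    good_ef i0 i1 h01 k hk hn _ r hr fun x hx => hO x hx c
  have h4 := (((h 0).add hOae (h 1)).add hOae (h 2)).add hOae (h 3)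
  have e : Phi i0 i1 k r = fun x => ef i0 i1 k (cen i0 i1 r 0) r x
      + ef i0 i1 k (cen i0 i1 r 1) r x + ef i0 i1 k (cen i0 i1 r 2) r x
      + ef i0 i1 k (cen i0 i1 r 3) r x := by
    funext x; unfold Phi; rw [Fin.sum_univ_four]
  rw [e]; exact h4

theorem orth_Phi (h01 : i0 ≠ i1) (k : ℕ) (hk : 1 ≤ k) (hn : n = 2 * k + 4) {r : ℝ} (hr : 0 < r)
    {O : Set (E n)} (hOae : ∀ᵐ x, x ∈ O) (hO : ∀ x ∈ O, ∀ c, 0 < Pf i0 i1 (cen i0 i1 r c) r x) :
    Orth O (Phi i0 i1 k r) := by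
  have h : ∀ c, Good O k (ef i0 i1 k (cen i0 i1 r c) r) := fun c =>
    good_ef i0 i1 h01 k hk hn _ r hr fun x hx => hO x hx c
  have g : ∀ c, Orth O (ef i0 i1 k (cen i0 i1 r c) r) := fun c ψ hψ =>
    integral_lap_ef_lap i0 i1 k (cen i0 i1 r c) r h01 hn hr
      (hψ.mono fun x hx => hO x hx c)
  have h4 := Orth.add hOae (((h 0).add hOae (h 1)).add hOae (h 2)) (h 3)
    (Orth.add hOae ((h 0).add hOae (h 1)) (h 2) (Orth.add hOae (h 0) (h 1) (g 0) (g 1)) (g 2)) (g 3)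
  have e : Phi i0 i1 k r = fun x => ef i0 i1 k (cen i0 i1 r 0) r x
      + ef i0 i1 k (cen i0 i1 r 1) r x + ef i0 i1 k (cen i0 i1 r 2) r x
      + ef i0 i1 k (cen i0 i1 r 3) r x := by
    funext x; unfold Phi; rw [Fin.sum_univ_four]
  rw [e]; exact h4

/-- The list of spheres for a finite set of scales. -/
noncomputable def lS (S : Finset ℕ) : List (E n × ℝ) :=
  S.toList.flatMap fun j => (List.finRange 4).map fun c => (cen i0 i1 (rr j) c, rr j)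

theorem mem_lS {S : Finset ℕ} {s : E n × ℝ} :
    s ∈ lS i0 i1 S ↔ ∃ j ∈ S, ∃ c, s = (cen i0 i1 (rr j) c, rr j) := by
  unfold lS
  simp only [List.mem_flatMap, Finset.mem_toList, List.mem_map, List.mem_finRange, true_and]
  constructor
  · rintro ⟨j, hj, c, rfl⟩; exact ⟨j, hj, c, rfl⟩
  · rintro ⟨j, hj, c, rfl⟩; exact ⟨j, hj, c, rfl⟩

theorem mem_offS_lS {S : Finset ℕ} {x : E n} :
    x ∈ offS i0 i1 (lS i0 i1 S) ↔ ∀ j ∈ S, ∀ c, 0 < Pf i0 i1 (cen i0 i1 (rr j) c) (rr j) x := by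
  constructor
  · intro h j hj c
    exact h (cen i0 i1 (rr j) c, rr j) ((mem_lS i0 i1).2 ⟨j, hj, c, rfl⟩)
  · intro h s hs
    obtain ⟨j, hj, c, rfl⟩ := (mem_lS i0 i1).1 hs
    exact h j hj c

theorem ae_offS_lS (h01 : i0 ≠ i1) (hn : 4 ≤ n) (S : Finset ℕ) :
    ∀ᵐ x : E n, x ∈ offS i0 i1 (lS i0 i1 S) := by
  apply ae_offS i0 i1 h01 hn
  intro s hs
  obtain ⟨j, _, c, rfl⟩ := (mem_lS i0 i1).1 hs
  exact rr_pos j

/-- The state function. -/
noncomputable def uS (k : ℕ) (θ : E n → ℝ) (S : Finset ℕ) (lam : ℕ → ℝ) (x : E n) : ℝ :=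
  θ x - ∑ j ∈ S, lam j * Phi i0 i1 k (rr j) x

theorem good_sum (h01 : i0 ≠ i1) (k : ℕ) (hk : 1 ≤ k) (hn : n = 2 * k + 4) (lam : ℕ → ℝ)
    {O : Set (E n)} (hOae : ∀ᵐ x, x ∈ O) (S : Finset ℕ) :
    (∀ x ∈ O, ∀ j ∈ S, ∀ c, 0 < Pf i0 i1 (cen i0 i1 (rr j) c) (rr j) x) →
    Good O k (fun x => ∑ j ∈ S, lam j * Phi i0 i1 k (rr j) x) ∧
    Orth O (fun x => ∑ j ∈ S, lam j * Phi i0 i1 k (rr j) x) := by
  induction S using Finset.induction_on with
  | empty =>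
    intro _
    simp only [Finset.sum_empty]
    refine ⟨IsTest.zero.good, fun ψ _ => ?_⟩
    simp [lap_const]
  | insert j S hj ih =>
    intro h
    obtain ⟨g1, g2⟩ := ih fun x hx i hi => h x hx i (Finset.mem_insert_of_mem hi)
    have g3 : Good O k (fun x => lam j * Phi i0 i1 k (rr j) x) :=
      (good_Phi i0 i1 h01 k hk hn (rr_pos j) hOae
        fun x hx => h x hx j (Finset.mem_insert_self _ _)).const_mul hOae _
    have g4 : Orth O (fun x => lam j * Phi i0 i1 k (rr j) x) :=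
      (orth_Phi i0 i1 h01 k hk hn (rr_pos j) hOae
        fun x hx => h x hx j (Finset.mem_insert_self _ _)).const_mul hOae
        (good_Phi i0 i1 h01 k hk hn (rr_pos j) hOae
          fun x hx => h x hx j (Finset.mem_insert_self _ _)) _
    have e : (fun x => ∑ i ∈ insert j S, lam i * Phi i0 i1 k (rr i) x)
        = fun x => lam j * Phi i0 i1 k (rr j) x + ∑ i ∈ S, lam i * Phi i0 i1 k (rr i) x := by
      funext x; rw [Finset.sum_insert hj]
    rw [e]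
    exact ⟨g3.add hOae g1, Orth.add hOae g3 g1 g4 g2⟩

theorem good_uS (h01 : i0 ≠ i1) (k : ℕ) (hk : 1 ≤ k) (hn : n = 2 * k + 4) (lam : ℕ → ℝ)
    (S : Finset ℕ) {θ : E n → ℝ} (hθ : IsTest Set.univ θ) :
    Good (offS i0 i1 (lS i0 i1 S)) k (uS i0 i1 k θ S lam) := by
  have hae := ae_offS_lS i0 i1 h01 (by omega : 4 ≤ n) S
  exact hθ.good.sub hae (good_sum i0 i1 h01 k hk hn lam hae S
    fun x hx => (mem_offS_lS i0 i1).1 hx).1

theorem orth_uS (h01 : i0 ≠ i1) (k : ℕ) (hk : 1 ≤ k) (hn : n = 2 * k + 4) (lam : ℕ → ℝ)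
    (S : Finset ℕ) {θ : E n → ℝ} (hθ : IsTest Set.univ θ) {ψ : E n → ℝ}
    (hψ : IsTest (offS i0 i1 (lS i0 i1 S)) ψ) :
    ∫ x, (lap θ x - lap (uS i0 i1 k θ S lam) x) * lap ψ x = 0 := by
  have hae := ae_offS_lS i0 i1 h01 (by omega : 4 ≤ n) S
  obtain ⟨g1, g2⟩ := good_sum i0 i1 h01 k hk hn lam hae S
    fun x hx => (mem_offS_lS i0 i1).1 hx
  rw [← g2 ψ hψ]
  apply integral_congr_ae
  filter_upwards [hae] with x hx
  have e : lap (uS i0 i1 k θ S lam) x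
      = lap θ x - lap (fun x => ∑ j ∈ S, lam j * Phi i0 i1 k (rr j) x) x :=
    lap_sub (contDiff_infty.1 hθ.1 2).contDiffAt (contDiffAt_infty.1 (g1.sm x hx) 2)
  rw [e]; ring

theorem rr_le (j : ℕ) : rr j ≤ 1 / 4 := by
  unfold rr
  rw [pow_add]
  have : ((1:ℝ) / 2) ^ j ≤ 1 := pow_le_one₀ (by norm_num) (by norm_num)
  nlinarith

theorem norm_on_lt (h01 : i0 ≠ i1) (j : ℕ) (c : Fin 4) {y : E n}
    (hy : Pf i0 i1 (cen i0 i1 (rr j) c) (rr j) y = 0) : ‖y‖ < 1 := by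
  have h := norm_on_sq i0 i1 h01 (rr_pos j) c hy
  have h1 := rr_le j
  have h2 := rr_pos j
  have h3 : ‖y‖ ^ 2 < 1 := by rw [h]; nlinarith
  by_contra hcon
  nlinarith [not_lt.1 hcon]

theorem rep_uS (i2 : Fin n) (h01 : i0 ≠ i1) (h20 : i2 ≠ i0) (h21 : i2 ≠ i1) (k : ℕ) (hk : 1 ≤ k)
    (hn : n = 2 * k + 4) (lam : ℕ → ℝ)
    (S : Finset ℕ) {θ : E n → ℝ} (hθ : IsTest Set.univ θ) (hθ2 : ∀ x, ‖x‖ < 1 → θ x = 2)
    (hlam : ∀ i ∈ S, 2 - ∑ j ∈ S, lam j * VV k (rr j) (rr i) = 0) :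
    Rep (offS i0 i1 (lS i0 i1 S)) (uS i0 i1 k θ S lam) (lap (uS i0 i1 k θ S lam)) := by
  apply Good.rep i0 i1 i2 h01 h20 h21 k hk hn (lS i0 i1 S) _ (good_uS i0 i1 h01 k hk hn lam S hθ)
  · intro s hs y hy
    obtain ⟨i, hi, c, rfl⟩ := (mem_lS i0 i1).1 hs
    unfold uS
    rw [hθ2 y (norm_on_lt i0 i1 h01 i c hy), ← hlam i hi]
    congr 1
    refine Finset.sum_congr rfl fun j _ => ?_
    rw [Phi_on i0 i1 h01 k (rr j) (rr_pos i) c hy]
  · intro s hs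
    obtain ⟨i, hi, c, rfl⟩ := (mem_lS i0 i1).1 hs
    exact rr_pos i

theorem uS_zero (h01 : i0 ≠ i1) (k : ℕ) (lam : ℕ → ℝ) (S : Finset ℕ) {θ : E n → ℝ}
    (hθ2 : ∀ x, ‖x‖ < 1 → θ x = 2) :
    uS i0 i1 k θ S lam 0 = 2 - ∑ j ∈ S, lam j * P0 k (rr j) := by
  unfold uS
  rw [hθ2 0 (by simp)]
  congr 1
  refine Finset.sum_congr rfl fun j _ => ?_
  rw [Phi_zero i0 i1 h01 k (rr_pos j)]

end

end Pool.Agent.Lib.MP_7045fd_an
end

section

set_option autoImplicit false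

namespace Pool.Agent.Lib.MP_7045fd_an

open MeasureTheory Filter Topology Metric
open scoped ENNReal InnerProductSpace

variable {n : ℕ}

theorem lower_bound {u v : E n → ℝ} {s : ℝ} (hs : s ≤ 1)
    (hu : ∀ᵐ x, ‖x‖ < s → |u x| ≤ 1) (hv : ∀ x, ‖x‖ < s → 3 / 2 ≤ |v x|) :
    ‖(1 / 4 : ℝ)‖ₑ * (volume (ball (0 : E n) s)) ^ (1 / (2 : ℝ≥0∞).toReal)
      ≤ eLpNorm (fun x => wt x * (u x - v x)) 2 volume := by
  rw [← eLpNorm_indicator_const (μ := volume) (c := (1 / 4 : ℝ)) (s := ball (0 : E n) s)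
    measurableSet_ball (by norm_num) (by norm_num)]
  apply eLpNorm_mono_ae
  filter_upwards [hu] with x hx
  by_cases hxs : x ∈ ball (0 : E n) s
  · rw [Set.indicator_of_mem hxs]
    have hxn : ‖x‖ < s := mem_ball_zero_iff.1 hxs
    have h1 := hx hxn
    have h2 := hv x hxn
    have h3 : 1 / 2 ≤ |u x - v x| := by
      have := abs_sub_abs_le_abs_sub (v x) (u x)
      rw [abs_sub_comm] at this
      linarith
    have h4 : 1 / 2 ≤ wt x := by
      unfold wt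
      rw [one_div]
      apply inv_anti₀ (by positivity)
      nlinarith [norm_nonneg x]
    rw [Real.norm_eq_abs, Real.norm_eq_abs, abs_mul, abs_of_pos (wt_pos x),
      abs_of_pos (by norm_num : (0:ℝ) < 1 / 4)]
    nlinarith
  · rw [Set.indicator_of_notMem hxs, norm_zero]
    exact norm_nonneg _

section

variable (i0 i1 : Fin n)

theorem threshold (i2 : Fin n) (h01 : i0 ≠ i1) (h20 : i2 ≠ i0) (h21 : i2 ≠ i1) (k : ℕ) (hk : 1 ≤ k)
    (hn : n = 2 * k + 4) (lam : ℕ → ℝ)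
    (S : Finset ℕ) {θ : E n → ℝ} (hθ : IsTest Set.univ θ) (hθ2 : ∀ x, ‖x‖ < 1 → θ x = 2)
    (hlam : SolI k S lam) (s0 : ℝ) (hs0 : 0 < s0) :
    ∃ δ : ℝ, 0 < δ ∧ ∀ Ω ⊆ offS i0 i1 (lS i0 i1 S),
      (∀ x ∈ offS i0 i1 (lS i0 i1 S), δ < ‖x‖ → x ∈ Ω) →
      ∀ u g : E n → ℝ, Measurable u → Measurable g → MemLp g 2 volume → Rep Ω u g →
        (∀ ψ, IsTest Ω ψ → ∫ x, (lap θ x - g x) * lap ψ x = 0) →
        ¬ ∀ᵐ x, ‖x‖ < s0 → |u x| ≤ 1 := by
  set V := offS i0 i1 (lS i0 i1 S) with hV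
  set v := uS i0 i1 k θ S lam with hv
  have hgood := good_uS i0 i1 h01 k hk hn lam S hθ
  have hrep := rep_uS i0 i1 i2 h01 h20 h21 k hk hn lam S hθ hθ2 hlam.1
  have hv0 : 2 ≤ |v 0| := by
    rw [hv, uS_zero i0 i1 h01 k lam S hθ2]; exact hlam.2
  obtain ⟨s1, hs1, hs1'⟩ : ∃ s1 : ℝ, 0 < s1 ∧ ∀ x, ‖x‖ < s1 → 3 / 2 ≤ |v x| := by
    have h1 : ∀ᶠ x in 𝓝 (0 : E n), 3 / 2 < |v x| :=
      hgood.cont.abs.continuousAt.eventually (lt_mem_nhds (by linarith))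
    obtain ⟨s1, hs1, h2⟩ := Metric.eventually_nhds_iff_ball.1 h1
    exact ⟨s1, hs1, fun x hx => (h2 x (mem_ball_zero_iff.2 hx)).le⟩
  set s : ℝ := min (min s0 s1) 1 with hs
  have hspos : 0 < s := lt_min (lt_min hs0 hs1) one_pos
  set B : ℝ≥0∞ := ‖(1 / 4 : ℝ)‖ₑ * (volume (ball (0 : E n) s)) ^ (1 / (2 : ℝ≥0∞).toReal) with hB
  have hvol : volume (ball (0 : E n) s) ≠ 0 := (measure_ball_pos volume 0 hspos).ne'
  have hvol' : volume (ball (0 : E n) s) ≠ ⊤ := measure_ball_lt_top.ne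
  have hB0 : B ≠ 0 := by
    rw [hB]
    apply mul_ne_zero
    · simp
    · simp [ENNReal.rpow_eq_zero_iff, hvol]
  have hBt : B ≠ ⊤ := by
    rw [hB]
    apply ENNReal.mul_ne_top
    · simp
    · exact ENNReal.rpow_ne_top_of_nonneg (by simp) hvol'
  have he : B / 2 / 2 ≠ 0 := by
    simp [hB0]
  obtain ⟨φ, hφ1, hφ2, -⟩ := hrep (B / 2 / 2) he
  obtain ⟨δ, hδ, hδ2⟩ := small_cut (by omega : 5 ≤ n) hφ1 (B / 2 / 2) he
  refine ⟨δ, hδ, fun Ω hΩ hΩ2 u g hum hgm hg hr ho hcon => ?_⟩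
  obtain ⟨χ, hχ1, hχ2⟩ := hδ2 δ hδ le_rfl
  have hχ : IsTest Ω χ := hχ1.mono fun x hx => hΩ2 x hx.1 hx.2
  have hcmp := compare_solution (by omega : 5 ≤ n) hΩ hθ hum hgm hg hr ho
    hgood.cont.measurable (measurable_lap v) hgood.lp hrep
    (fun ψ hψ => orth_uS i0 i1 h01 k hk hn lam S hθ hψ) hχ
  have h1 : eLpNorm (fun x => lap v x - lap χ x) 2 volume ≤ B / 2 := by
    have e : (fun x => lap v x - lap χ x)
        = (fun x => lap v x - lap φ x) + (fun x => lap φ x - lap χ x) := by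
      funext x; simp
    rw [e]
    refine (eLpNorm_add_le ?_ ?_ (by norm_num)).trans ?_
    · exact ((measurable_lap _).sub (measurable_lap _)).aestronglyMeasurable
    · exact ((measurable_lap _).sub (measurable_lap _)).aestronglyMeasurable
    · have a1 : eLpNorm (fun x => lap v x - lap φ x) 2 volume ≤ B / 2 / 2 := by
        have : (fun x => lap v x - lap φ x) = -(fun x => lap φ x - lap v x) := by
          funext x; simp
        rw [this, eLpNorm_neg]; exact hφ2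
      have a2 : eLpNorm (fun x => lap φ x - lap χ x) 2 volume ≤ B / 2 / 2 := by
        have : (fun x => lap φ x - lap χ x) = -(fun x => lap χ x - lap φ x) := by
          funext x; simp
        rw [this, eLpNorm_neg]; exact hχ2
      calc _ ≤ B / 2 / 2 + B / 2 / 2 := add_le_add a1 a2
        _ = B / 2 := ENNReal.add_halves _
  have h2 : B ≤ eLpNorm (fun x => wt x * (u x - v x)) 2 volume := by
    apply lower_bound (min_le_right _ _)
    · filter_upwards [hcon] with x hx hxs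
      exact hx (hxs.trans_le ((min_le_left _ _).trans (min_le_left _ _)))
    · intro x hxs
      exact hs1' x (hxs.trans_le ((min_le_left _ _).trans (min_le_right _ _)))
  have h3 : B ≤ B / 2 := h2.trans (hcmp.trans h1)
  exact absurd h3 (not_le.2 (ENNReal.half_lt_self hB0 hBt))

end

end Pool.Agent.Lib.MP_7045fd_an
end

section

set_option autoImplicit false

namespace Pool.Agent.Lib.MP_7045fd_an

open MeasureTheory Filter Topology Metric
open scoped ENNReal InnerProductSpace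

variable {n : ℕ}

/-- The domain: all of space without the origin and the spheres of scales `q 0, q 1, …`. -/
def Om (i0 i1 : Fin n) (q : ℕ → ℕ) : Set (E n) :=
  {x | x ≠ 0 ∧ ∀ j c, 0 < Pf i0 i1 (cen i0 i1 (rr (q j)) c) (rr (q j)) x}

theorem exists_seq (Q : ℕ → Finset ℕ → ℕ → Prop) (I : Finset ℕ → Prop) (h0 : I ∅)
    (hstep : ∀ j S, I S → ∃ q, (∀ p ∈ S, p < q) ∧ Q j S q ∧ I (insert q S)) :
    ∃ (q : ℕ → ℕ) (S : ℕ → Finset ℕ), StrictMono q ∧ S 0 = ∅ ∧ (∀ j, S (j + 1) = insert (q j) (S j)) ∧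
      (∀ j, I (S j)) ∧ ∀ j, Q j (S j) (q j) := by
  choose! f hf1 hf2 hf3 using hstep
  obtain ⟨S, hS0, hS⟩ : ∃ S : ℕ → Finset ℕ, S 0 = ∅ ∧ ∀ j, S (j + 1) = insert (f j (S j)) (S j) :=
    ⟨fun j => Nat.rec ∅ (fun j T => insert (f j T) T) j, rfl, fun j => rfl⟩
  have hI : ∀ j, I (S j) := by
    intro j
    induction j with
    | zero => rw [hS0]; exact h0
    | succ j ih => rw [hS]; exact hf3 j (S j) ih
  refine ⟨fun j => f j (S j), S, ?_, hS0, hS, hI, fun j => hf2 j (S j) (hI j)⟩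
  apply strictMono_nat_of_lt_succ
  intro j
  apply hf1 (j + 1) (S (j + 1)) (hI (j + 1))
  rw [hS]
  exact Finset.mem_insert_self _ _

section

variable (i0 i1 : Fin n)

theorem norm_on_lt_two (h01 : i0 ≠ i1) {r : ℝ} (hr : 0 < r) (c : Fin 4) {y : E n}
    (hy : Pf i0 i1 (cen i0 i1 r c) r y = 0) : ‖y‖ < 2 * r := by
  have h := norm_on_sq i0 i1 h01 hr c hy
  by_contra hcon
  nlinarith [not_lt.1 hcon]

theorem rr_anti : Antitone rr := by
  intro i j hij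
  unfold rr
  exact pow_le_pow_of_le_one (by norm_num) (by norm_num) (by omega)

theorem exists_scales (i2 : Fin n) (h01 : i0 ≠ i1) (h20 : i2 ≠ i0) (h21 : i2 ≠ i1) (k : ℕ)
    (hk : 1 ≤ k) (hn : n = 2 * k + 4) (hov : 2 * v0 k < 4 * (26 / 25 : ℝ)⁻¹ ^ k)
    {θ : E n → ℝ} (hθ : IsTest Set.univ θ) (hθ2 : ∀ x, ‖x‖ < 1 → θ x = 2) :
    ∃ q : ℕ → ℕ, StrictMono q ∧ ∀ u g : E n → ℝ, Measurable u → Measurable g → MemLp g 2 volume →
      Rep (Om i0 i1 q) u g →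
        (∀ ψ, IsTest (Om i0 i1 q) ψ → ∫ x, (lap θ x - g x) * lap ψ x = 0) →
        ∀ η : ℝ, 0 < η → ¬ ∀ᵐ x, ‖x‖ < η → |u x| ≤ 1 := by
  -- the property of the next scale
  obtain ⟨q, S, hq, hS0, hS, hI, hQ⟩ := exists_seq
    (fun j S q => ∀ Ω ⊆ offS i0 i1 (lS i0 i1 S),
      (∀ x ∈ offS i0 i1 (lS i0 i1 S), 2 * rr q < ‖x‖ → x ∈ Ω) →
      ∀ u g : E n → ℝ, Measurable u → Measurable g → MemLp g 2 volume → Rep Ω u g →
        (∀ ψ, IsTest Ω ψ → ∫ x, (lap θ x - g x) * lap ψ x = 0) →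
        ¬ ∀ᵐ x, ‖x‖ < 1 / ((j : ℝ) + 1) → |u x| ≤ 1)
    (Inv k) (inv_empty k)
    (by
      intro j S hS
      obtain ⟨hS1, lam, hlam⟩ := id hS
      obtain ⟨δ, hδ, hδ2⟩ := threshold i0 i1 i2 h01 h20 h21 k hk hn lam S hθ hθ2 hlam
        (1 / ((j : ℝ) + 1)) (by positivity)
      have e1 := inv_step k (by omega) hov hS
      have e2 : ∀ᶠ q in atTop, 2 * rr q < δ := by
        have := (rr_tendsto.const_mul 2).eventually (gt_mem_nhds (by simpa using hδ))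
        exact this
      have e3 := eventually_gt_atTop (S.sup id)
      obtain ⟨q, h1, h2, h3⟩ := (e1.and (e2.and e3)).exists
      refine ⟨q, fun p hp => ?_, fun Ω hΩ hΩ2 => hδ2 Ω hΩ fun x hx hx2 => hΩ2 x hx (h2.trans hx2),
        h1.2⟩
      exact (Finset.le_sup (f := id) hp).trans_lt h3)
  refine ⟨q, hq, fun u g hum hgm hg hr ho η hη hcon => ?_⟩
  obtain ⟨j, hj⟩ := exists_nat_one_div_lt hη
  have hSmem : ∀ j p, p ∈ S j ↔ ∃ i < j, p = q i := by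
    intro j
    induction j with
    | zero => intro p; rw [hS0]; simp
    | succ j ih =>
      intro p
      rw [hS, Finset.mem_insert, ih]
      constructor
      · rintro (rfl | ⟨i, hi, rfl⟩)
        · exact ⟨j, by omega, rfl⟩
        · exact ⟨i, by omega, rfl⟩
      · rintro ⟨i, hi, rfl⟩
        rcases Nat.lt_succ_iff_lt_or_eq.1 hi with h | h
        · exact Or.inr ⟨i, h, rfl⟩
        · exact Or.inl (by rw [h])
  refine hQ j (Om i0 i1 q) ?_ ?_ u g hum hgm hg hr ho ?_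
  · intro x hx
    rw [mem_offS_lS]
    intro p hp c
    obtain ⟨i, _, rfl⟩ := (hSmem j p).1 hp
    exact hx.2 i c
  · intro x hx hx2
    have hrq := rr_pos (q j)
    refine ⟨fun h => ?_, fun i c => ?_⟩
    · rw [h, norm_zero] at hx2; linarith
    · by_cases hij : i < j
      · exact (mem_offS_lS i0 i1).1 hx (q i) ((hSmem j _).2 ⟨i, hij, rfl⟩) c
      · apply lt_of_le_of_ne (Pf_nonneg _ _ _ _ _)
        intro h
        have h1 := norm_on_lt_two i0 i1 h01 (rr_pos (q i)) c h.symm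
        have h2 := rr_anti (hq.monotone (not_lt.1 hij))
        linarith
  · filter_upwards [hcon] with x hx hx2
    exact hx (hx2.trans hj)

end

end Pool.Agent.Lib.MP_7045fd_an
end

section

set_option autoImplicit false

namespace Pool.Agent.Lib.MP_7045fd_an

open MeasureTheory Filter Topology Metric
open scoped ENNReal InnerProductSpace

variable {n : ℕ}

section

variable (i0 i1 : Fin n)

theorem exists_small {q : ℕ → ℕ} (hq : StrictMono q) {t : ℝ} (ht : 0 < t) :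
    ∃ J, ∀ j, J ≤ j → 2 * rr (q j) < t := by
  have h1 : ∀ᶠ j in atTop, 2 * rr j < t := by
    have := (rr_tendsto.const_mul 2).eventually (gt_mem_nhds (by simpa using ht))
    exact this
  obtain ⟨J, hJ⟩ := eventually_atTop.1 h1
  exact ⟨J, fun j hj => hJ (q j) (hj.trans (hq.id_le j))⟩

theorem isOpen_Om (h01 : i0 ≠ i1) {q : ℕ → ℕ} (hq : StrictMono q) : IsOpen (Om i0 i1 q) := by
  rw [isOpen_iff_mem_nhds]
  rintro x ⟨hx0, hx⟩
  have hxn : 0 < ‖x‖ := norm_pos_iff.2 hx0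
  obtain ⟨J, hJ⟩ := exists_small hq (half_pos hxn)
  have h1 : ∀ᶠ y in 𝓝 x, ‖x‖ / 2 < ‖y‖ :=
    continuous_norm.continuousAt.eventually (lt_mem_nhds (by linarith))
  have h2 : ∀ᶠ y in 𝓝 x, ∀ j ∈ Finset.range J, ∀ c : Fin 4,
      0 < Pf i0 i1 (cen i0 i1 (rr (q j)) c) (rr (q j)) y := by
    rw [Filter.eventually_all_finset]
    intro j _
    rw [Filter.eventually_all]
    intro c
    exact (continuous_Pf _ _ _ _).continuousAt.eventually (lt_mem_nhds (hx j c))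
  filter_upwards [h1, h2] with y hy1 hy2
  refine ⟨fun h => ?_, fun j c => ?_⟩
  · rw [h, norm_zero] at hy1; linarith
  · by_cases hj : j < J
    · exact hy2 j (Finset.mem_range.2 hj) c
    · apply lt_of_le_of_ne (Pf_nonneg _ _ _ _ _)
      intro h
      have h3 := norm_on_lt_two i0 i1 h01 (rr_pos (q j)) c h.symm
      have h4 := hJ j (not_lt.1 hj)
      linarith

/-- Points whose norm is not critical lie in the domain. -/
theorem mem_Om_of_norm (h01 : i0 ≠ i1) {q : ℕ → ℕ} {y : E n} (hy : y ≠ 0)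
    (h : ∀ j, ‖y‖ ^ 2 ≠ rr (q j) ^ 2 * (26 / 25)) : y ∈ Om i0 i1 q := by
  refine ⟨hy, fun j c => ?_⟩
  apply lt_of_le_of_ne (Pf_nonneg _ _ _ _ _)
  intro h1
  exact h j (norm_on_sq i0 i1 h01 (rr_pos (q j)) c h1.symm)

theorem ray_mem (h01 : i0 ≠ i1) (i2 : Fin n) (h20 : i2 ≠ i0) (h21 : i2 ≠ i1) (q : ℕ → ℕ) {t : ℝ}
    (ht : 0 < t) : t • (EuclideanSpace.single i2 (1 : ℝ) : E n) ∈ Om i0 i1 q := by
  refine ⟨?_, fun j c => ?_⟩
  · intro h
    have h1 := congrArg (fun x : E n => x i2) h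
    simp at h1
    exact ht.ne' h1
  · apply lt_of_le_of_ne (Pf_nonneg _ _ _ _ _)
    intro h
    have hr := rr_pos (q j)
    obtain ⟨-, h2, h3⟩ := (Pf_eq_zero_iff i0 i1 _ _ hr _).1 h.symm
    have h4 := cen_sq i0 i1 h01 (rr (q j)) c
    have h5 : (t • (EuclideanSpace.single i2 (1 : ℝ) : E n)) i0 = 0 := by
      simp [h20.symm]
    have h6 : (t • (EuclideanSpace.single i2 (1 : ℝ) : E n)) i1 = 0 := by
      simp [h21.symm]
    rw [← h2, ← h3, h5, h6] at h4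
    have : 0 < rr (q j) ^ 2 / 25 := by positivity
    linarith

theorem rr_half {i j : ℕ} (h : i < j) : 2 * rr j ≤ rr i := by
  have h1 := rr_anti (Nat.succ_le_of_lt h)
  have h2 : rr (i + 1) = rr i / 2 := by unfold rr; rw [pow_succ]; ring
  rw [Nat.succ_eq_add_one, h2] at h1
  linarith

/-- A radial segment leads to a noncritical radius. -/
theorem exists_scale_mem (h01 : i0 ≠ i1) {q : ℕ → ℕ} (hq : StrictMono q) {x : E n}
    (hx : x ∈ Om i0 i1 q) :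
    ∃ T : ℝ, 1 ≤ T ∧ (∀ t, 1 ≤ t → t ≤ T → t • x ∈ Om i0 i1 q) ∧
      ∀ y : E n, ‖y‖ = T * ‖x‖ → y ∈ Om i0 i1 q := by
  have hxn : 0 < ‖x‖ := norm_pos_iff.2 hx.1
  by_cases hc : ∃ j, ‖x‖ ^ 2 = rr (q j) ^ 2 * (26 / 25)
  · obtain ⟨j, hj⟩ := hc
    have key : ∀ t : ℝ, 1 < t → t ≤ 3 / 2 → ∀ y : E n, ‖y‖ = t * ‖x‖ → y ∈ Om i0 i1 q := by
      intro t ht1 ht2 y hy
      have hy0 : y ≠ 0 := by
        rw [← norm_pos_iff, hy]; positivity
      apply mem_Om_of_norm i0 i1 h01 hy0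
      intro i hi
      rw [hy, mul_pow, hj] at hi
      have hrj := rr_pos (q j)
      have hri := rr_pos (q i)
      have e : (t * rr (q j)) ^ 2 = rr (q i) ^ 2 := by nlinarith
      have e2 : t * rr (q j) = rr (q i) :=
        (pow_left_inj₀ (by positivity) hri.le two_ne_zero).1 e
      rcases lt_trichotomy i j with h | h | h
      · have := rr_half (hq h)
        nlinarith
      · rw [h] at e2
        nlinarith
      · have := rr_half (hq h)
        nlinarith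
    refine ⟨3 / 2, by norm_num, fun t ht1 ht2 => ?_, fun y hy => key _ (by norm_num) le_rfl y hy⟩
    rcases eq_or_lt_of_le ht1 with h | h
    · rw [← h, one_smul]; exact hx
    · apply key t h ht2
      rw [norm_smul, Real.norm_eq_abs, abs_of_pos (by linarith)]
  · push Not at hc
    refine ⟨1, le_rfl, fun t ht1 ht2 => ?_, fun y hy => ?_⟩
    · have : t = 1 := le_antisymm ht2 ht1
      rw [this, one_smul]; exact hx
    · rw [one_mul] at hy
      apply mem_Om_of_norm i0 i1 h01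
      · rw [← norm_pos_iff, hy]; exact hxn
      · rw [hy]; exact hc

theorem isConnected_Om (h01 : i0 ≠ i1) (i2 : Fin n) (h20 : i2 ≠ i0) (h21 : i2 ≠ i1)
    {q : ℕ → ℕ} (hq : StrictMono q) : IsConnected (Om i0 i1 q) := by
  set e : E n := EuclideanSpace.single i2 (1 : ℝ) with he
  have hen : ‖e‖ = 1 := by rw [he]; simp
  have hrk : 1 < Module.rank ℝ (E n) := by
    rw [← Module.finrank_eq_rank, finrank_euclideanSpace, Fintype.card_fin]
    have h0 := i0.2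
    have h1 := i1.2
    have h2 := i2.2
    have h3 : i0.1 ≠ i1.1 := fun h => h01 (Fin.ext h)
    have : 1 < n := by omega
    exact_mod_cast this
  refine ⟨⟨(1 : ℝ) • e, ray_mem i0 i1 h01 i2 h20 h21 q one_pos⟩, ?_⟩
  apply isPreconnected_of_forall ((1 : ℝ) • e)
  intro x hx
  obtain ⟨T, hT1, hT2, hT3⟩ := exists_scale_mem i0 i1 h01 hq hx
  have hxn : 0 < ‖x‖ := norm_pos_iff.2 hx.1
  have hTx : 0 < T * ‖x‖ := by positivity
  set A : Set (E n) := (fun t : ℝ => t • e) '' Set.Ioi 0 with hA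
  set B : Set (E n) := sphere (0 : E n) (T * ‖x‖) with hB
  set C : Set (E n) := (fun t : ℝ => t • x) '' Set.Icc 1 T with hC
  have hAc : IsPreconnected A := isPreconnected_Ioi.image _ (by fun_prop)
  have hBc : IsPreconnected B := isPreconnected_sphere hrk _ _
  have hCc : IsPreconnected C := isPreconnected_Icc.image _ (by fun_prop)
  have hAB : IsPreconnected (A ∪ B) := by
    apply IsPreconnected.union ((T * ‖x‖) • e) _ _ hAc hBc
    · exact ⟨T * ‖x‖, hTx, rfl⟩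
    · rw [hB, mem_sphere_zero_iff_norm, norm_smul, hen, Real.norm_eq_abs, abs_of_pos hTx, mul_one]
  have hABC : IsPreconnected ((A ∪ B) ∪ C) := by
    apply IsPreconnected.union (T • x) _ _ hAB hCc
    · right
      rw [hB, mem_sphere_zero_iff_norm, norm_smul, Real.norm_eq_abs, abs_of_pos (by linarith)]
    · exact ⟨T, ⟨hT1, le_rfl⟩, rfl⟩
  refine ⟨(A ∪ B) ∪ C, ?_, ?_, ?_, hABC⟩
  · rintro y ((⟨t, ht, rfl⟩ | hy) | ⟨t, ht, rfl⟩)
    · exact ray_mem i0 i1 h01 i2 h20 h21 q ht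
    · exact hT3 y (mem_sphere_zero_iff_norm.1 hy)
    · exact hT2 t ht.1 ht.2
  · left; left
    exact ⟨1, Set.mem_Ioi.2 one_pos, rfl⟩
  · right
    exact ⟨1, ⟨le_rfl, hT1⟩, one_smul _ _⟩

theorem zero_mem_frontier (h01 : i0 ≠ i1) (i2 : Fin n) (h20 : i2 ≠ i0) (h21 : i2 ≠ i1)
    (q : ℕ → ℕ) : (0 : E n) ∈ frontier (Om i0 i1 q) := by
  refine ⟨?_, fun h => (interior_subset h).1 rfl⟩
  have ht : Tendsto (fun j : ℕ => (1 / ((j : ℝ) + 1)) • (EuclideanSpace.single i2 (1 : ℝ) : E n))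
      atTop (𝓝 0) := by
    have := (tendsto_one_div_add_atTop_nhds_zero_nat (𝕜 := ℝ)).smul_const
      (EuclideanSpace.single i2 (1 : ℝ) : E n)
    rwa [zero_smul] at this
  exact mem_closure_of_tendsto ht (Eventually.of_forall fun j =>
    ray_mem i0 i1 h01 i2 h20 h21 q (by positivity))

theorem ae_Om (h01 : i0 ≠ i1) (hn : 4 ≤ n) (q : ℕ → ℕ) : ∀ᵐ x : E n, x ∈ Om i0 i1 q := by
  have hnz : ∀ᵐ x : E n, x ≠ 0 := by
    have hnt : Nontrivial (E n) := by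
      have : 0 < Module.finrank ℝ (E n) := by
        rw [finrank_euclideanSpace, Fintype.card_fin]; omega
      exact Module.finrank_pos_iff.1 this
    rw [ae_iff]
    simp
  have h1 : ∀ᵐ x : E n, ∀ j : ℕ, ∀ c : Fin 4,
      0 < Pf i0 i1 (cen i0 i1 (rr (q j)) c) (rr (q j)) x := by
    rw [ae_all_iff]
    intro j
    rw [ae_all_iff]
    intro c
    have := volume_zero_Pf i0 i1 (cen i0 i1 (rr (q j)) c) (rr (q j)) h01 hn (rr_pos (q j))
    have h2 : ∀ᵐ x : E n, Pf i0 i1 (cen i0 i1 (rr (q j)) c) (rr (q j)) x ≠ 0 := by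
      rw [ae_iff]
      simpa using this
    filter_upwards [h2] with x hx
    exact lt_of_le_of_ne (Pf_nonneg _ _ _ _ _) (Ne.symm hx)
  filter_upwards [hnz, h1] with x hx1 hx2
  exact ⟨hx1, hx2⟩

end

end Pool.Agent.Lib.MP_7045fd_an
end

section

set_option autoImplicit false

namespace Pool.Agent.Lib.MP_7045fd_an

open MeasureTheory Filter Topology Metric
open scoped ENNReal InnerProductSpace

variable {n : ℕ}

theorem lintegral_enorm_sq_eq {F : E n → ℝ} (hF : MemLp F 2 volume) :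
    ∫⁻ x, ‖F x‖ₑ ^ 2 = ENNReal.ofReal (∫ x, F x ^ 2) := by
  rw [ofReal_integral_eq_lintegral_ofReal hF.integrable_sq
    (Eventually.of_forall fun x => sq_nonneg _)]
  congr 1
  funext x
  rw [Real.enorm_eq_ofReal_abs, ← ENNReal.ofReal_pow (abs_nonneg _), sq_abs]

section

variable (i0 i1 : Fin n)

/-- The four spheres of one scale. -/
noncomputable def l4 (r : ℝ) : List (E n × ℝ) :=
  (List.finRange 4).map fun c => (cen i0 i1 r c, r)

theorem mem_l4 {r : ℝ} {s : E n × ℝ} : s ∈ l4 i0 i1 r ↔ ∃ c, s = (cen i0 i1 r c, r) := by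
  unfold l4
  simp only [List.mem_map, List.mem_finRange, true_and]
  constructor
  · rintro ⟨c, rfl⟩; exact ⟨c, rfl⟩
  · rintro ⟨c, rfl⟩; exact ⟨c, rfl⟩

theorem mem_offS_l4 {r : ℝ} {x : E n} (h : x ∈ offS i0 i1 (l4 i0 i1 r)) (c : Fin 4) :
    0 < Pf i0 i1 (cen i0 i1 r c) r x :=
  h (cen i0 i1 r c, r) ((mem_l4 i0 i1).2 ⟨c, rfl⟩)

/-- The energy of a competitor is at least the energy of the potential. -/
theorem energy_le (i2 : Fin n) (h01 : i0 ≠ i1) (h20 : i2 ≠ i0) (h21 : i2 ≠ i1) (k : ℕ)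
    (hk : 1 ≤ k) (hn : n = 2 * k + 4) {r : ℝ} (hr : 0 < r) {φ : E n → ℝ}
    (hφ : IsTest Set.univ φ)
    (h1 : ∀ c, ∀ y, Pf i0 i1 (cen i0 i1 r c) r y = 0 → φ y = 1) :
    ∫ x, lap (Phi i0 i1 k r) x ^ 2 ≤ (VV k r r) ^ 2 * ∫ x, lap φ x ^ 2 := by
  set O := offS i0 i1 (l4 i0 i1 r) with hO
  have hl : ∀ s ∈ l4 i0 i1 r, 0 < s.2 := by
    intro s hs
    obtain ⟨c, rfl⟩ := (mem_l4 i0 i1).1 hs
    exact hr
  have hae : ∀ᵐ x : E n, x ∈ O := ae_offS i0 i1 h01 (by omega) _ hl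
  set v := VV k r r with hv
  have gP : Good O k (Phi i0 i1 k r) := good_Phi i0 i1 h01 k hk hn hr hae
    fun x hx c => mem_offS_l4 i0 i1 hx c
  have oP : Orth O (Phi i0 i1 k r) := orth_Phi i0 i1 h01 k hk hn hr hae
    fun x hx c => mem_offS_l4 i0 i1 hx c
  have gφ : Good O k (fun x => v * φ x) := (hφ.good (O := O) (k := k)).const_mul hae v
  have gw : Good O k (fun x => Phi i0 i1 k r x - v * φ x) := gP.sub hae gφ
  have rw' : Rep O (fun x => Phi i0 i1 k r x - v * φ x)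
      (lap (fun x => Phi i0 i1 k r x - v * φ x)) := by
    apply Good.rep i0 i1 i2 h01 h20 h21 k hk hn (l4 i0 i1 r) hl gw
    intro s hs y hy
    obtain ⟨c, rfl⟩ := (mem_l4 i0 i1).1 hs
    simp only at hy ⊢
    rw [Phi_on i0 i1 h01 k r hr c hy, h1 c y hy, hv]
    ring
  have hm := rep_mem_MS gw.lp rw'
  have h2 : ⟪gP.lp.toLp (lap (Phi i0 i1 k r)), gw.lp.toLp _⟫_ℝ = 0 := by
    apply inner_eq_zero_of_MS _ hm
    intro ψ hψ
    rw [inner_toLp gP.lp hψ.memLp_lap]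
    exact oP ψ hψ
  rw [inner_toLp gP.lp gw.lp] at h2
  -- pointwise identity
  have hid : ∀ᵐ x : E n, v ^ 2 * lap φ x ^ 2
      = lap (Phi i0 i1 k r) x ^ 2 + lap (fun x => Phi i0 i1 k r x - v * φ x) x ^ 2
        - 2 * (lap (Phi i0 i1 k r) x * lap (fun x => Phi i0 i1 k r x - v * φ x) x) := by
    filter_upwards [hae] with x hx
    have e : lap (fun x => Phi i0 i1 k r x - v * φ x) x
        = lap (Phi i0 i1 k r) x - v * lap φ x := by
      rw [lap_sub (contDiffAt_infty.1 (gP.sm x hx) 2) (contDiffAt_infty.1 (gφ.sm x hx) 2),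
        lap_const_mul v (contDiff_infty.1 hφ.1 2).contDiffAt]
    rw [e]; ring
  have i1' := gP.lp.integrable_sq
  have i2' := gw.lp.integrable_sq
  have i3' := gP.lp.integrable_mul gw.lp
  have e1 : v ^ 2 * ∫ x, lap φ x ^ 2
      = (∫ x, lap (Phi i0 i1 k r) x ^ 2)
        + ∫ x, lap (fun x => Phi i0 i1 k r x - v * φ x) x ^ 2 := by
    have i3 : Integrable (fun x => 2 * (lap (Phi i0 i1 k r) x
        * lap (fun x => Phi i0 i1 k r x - v * φ x) x)) := i3'.const_mul 2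
    have i12 : Integrable (fun x => lap (Phi i0 i1 k r) x ^ 2
        + lap (fun x => Phi i0 i1 k r x - v * φ x) x ^ 2) := i1'.add i2'
    rw [← integral_const_mul, integral_congr_ae hid]
    rw [integral_sub i12 i3, integral_add i1' i2', integral_const_mul, h2]
    ring
  rw [e1]
  have : 0 ≤ ∫ x, lap (fun x => Phi i0 i1 k r x - v * φ x) x ^ 2 :=
    integral_nonneg fun x => sq_nonneg _
  linarith

theorem lap_ef_le (h01 : i0 ≠ i1) (k : ℕ) (hn : n = 2 * k + 4) {r : ℝ} (hr : 0 < r) (c : Fin 4)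
    {x : E n} (hx : ‖x‖ < r) (hP : 0 < Pf i0 i1 (cen i0 i1 r c) r x) :
    lap (ef i0 i1 k (cen i0 i1 r c) r) x ≤ -(4 * (k : ℝ) * (3 * r ^ 2)⁻¹ ^ (k + 1)) := by
  set a := cen i0 i1 r c with ha
  have hA := Af_pos i0 i1 a r x hr
  have hR := Rf_pos i0 i1 a r x hP
  have hN : Nf a x ≤ 2 * r ^ 2 := by
    rw [Nf_eq]
    have h1 : ‖a‖ ^ 2 = r ^ 2 / 25 := norm_cen_sq i0 i1 h01 r c
    have h2 : ‖a‖ ≤ r / 5 := by
      by_contra hcon
      nlinarith [not_le.1 hcon]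
    have h3 : ‖x - a‖ ≤ 6 / 5 * r := (norm_sub_le _ _).trans (by linarith)
    nlinarith [norm_nonneg (x - a)]
  have hA3 : Af i0 i1 a r x ≤ 3 * r ^ 2 := (Af_le i0 i1 a r x h01).trans (by linarith)
  have hR3 : Rf i0 i1 a r x ≤ 3 * r ^ 2 := (Rf_le i0 i1 a r x h01).trans (by linarith)
  rw [lap_e i0 i1 k a r x h01 hn hr hP, zpow_neg_eq, zpow_neg_one]
  have h1 : (3 * r ^ 2)⁻¹ ^ k ≤ (Af i0 i1 a r x)⁻¹ ^ k :=
    pow_le_pow_left₀ (by positivity) (inv_anti₀ hA hA3) k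
  have h2 : (3 * r ^ 2)⁻¹ ≤ (Rf i0 i1 a r x)⁻¹ := inv_anti₀ hR hR3
  have h3 : (3 * r ^ 2)⁻¹ ^ (k + 1) ≤ (Af i0 i1 a r x)⁻¹ ^ k * (Rf i0 i1 a r x)⁻¹ := by
    rw [pow_succ]
    exact mul_le_mul h1 h2 (by positivity) (by positivity)
  have h4 := mul_le_mul_of_nonneg_left h3 (by positivity : (0:ℝ) ≤ 4 * (k : ℝ))
  linarith

theorem energy_ge (h01 : i0 ≠ i1) (k : ℕ)
    (hk : 1 ≤ k) (hn : n = 2 * k + 4) {r : ℝ} (hr : 0 < r) :
    (4 * (k : ℝ) * (3 * r ^ 2)⁻¹ ^ (k + 1)) ^ 2 * (r ^ n * volume.real (ball (0 : E n) 1))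
      ≤ ∫ x, lap (Phi i0 i1 k r) x ^ 2 := by
  set O := offS i0 i1 (l4 i0 i1 r) with hO
  have hl : ∀ s ∈ l4 i0 i1 r, 0 < s.2 := by
    intro s hs
    obtain ⟨c, rfl⟩ := (mem_l4 i0 i1).1 hs
    exact hr
  have hae : ∀ᵐ x : E n, x ∈ O := ae_offS i0 i1 h01 (by omega) _ hl
  have gP : Good O k (Phi i0 i1 k r) := good_Phi i0 i1 h01 k hk hn hr hae
    fun x hx c => mem_offS_l4 i0 i1 hx c
  have hef : ∀ c, Good O k (ef i0 i1 k (cen i0 i1 r c) r) := fun c =>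
    good_ef i0 i1 h01 k hk hn _ r hr fun x hx => mem_offS_l4 i0 i1 hx c
  set b : ℝ := 4 * (k : ℝ) * (3 * r ^ 2)⁻¹ ^ (k + 1) with hb
  have hb0 : 0 ≤ b := by positivity
  have hpt : ∀ᵐ x : E n, x ∈ ball (0 : E n) r → b ^ 2 ≤ lap (Phi i0 i1 k r) x ^ 2 := by
    filter_upwards [hae] with x hx hxr
    have hxr' : ‖x‖ < r := mem_ball_zero_iff.1 hxr
    have e : lap (Phi i0 i1 k r) x = lap (ef i0 i1 k (cen i0 i1 r 0) r) x
        + lap (ef i0 i1 k (cen i0 i1 r 1) r) x + lap (ef i0 i1 k (cen i0 i1 r 2) r) x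
        + lap (ef i0 i1 k (cen i0 i1 r 3) r) x := by
      have e0 : Phi i0 i1 k r = fun x => ef i0 i1 k (cen i0 i1 r 0) r x
          + ef i0 i1 k (cen i0 i1 r 1) r x + ef i0 i1 k (cen i0 i1 r 2) r x
          + ef i0 i1 k (cen i0 i1 r 3) r x := by
        funext x; unfold Phi; rw [Fin.sum_univ_four]
      have g1 := ((hef 0).add hae (hef 1))
      have g2 := g1.add hae (hef 2)
      rw [e0, lap_add (contDiffAt_infty.1 (g2.sm x hx) 2) (contDiffAt_infty.1 ((hef 3).sm x hx) 2),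
        lap_add (contDiffAt_infty.1 (g1.sm x hx) 2) (contDiffAt_infty.1 ((hef 2).sm x hx) 2),
        lap_add (contDiffAt_infty.1 ((hef 0).sm x hx) 2)
          (contDiffAt_infty.1 ((hef 1).sm x hx) 2)]
    have h : ∀ c, lap (ef i0 i1 k (cen i0 i1 r c) r) x ≤ -b := fun c =>
      lap_ef_le i0 i1 h01 k hn hr c hxr' (mem_offS_l4 i0 i1 hx c)
    have h0 := h 0
    have h1 := h 1
    have h2 := h 2
    have h3 := h 3
    have h4 : lap (Phi i0 i1 k r) x ≤ -b := by rw [e]; linarith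
    nlinarith
  have hvol : volume.real (ball (0 : E n) r) = r ^ n * volume.real (ball (0 : E n) 1) := by
    have h := Measure.addHaar_ball_of_pos (volume : Measure (E n)) 0 hr
    rw [finrank_euclideanSpace, Fintype.card_fin] at h
    rw [Measure.real, h, ENNReal.toReal_mul, ENNReal.toReal_ofReal (by positivity), Measure.real]
  calc b ^ 2 * (r ^ n * volume.real (ball (0 : E n) 1))
      = ∫ _ in ball (0 : E n) r, b ^ 2 := by
        rw [setIntegral_const, hvol, smul_eq_mul]; ring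
    _ ≤ ∫ x in ball (0 : E n) r, lap (Phi i0 i1 k r) x ^ 2 := by
        apply setIntegral_mono_on_ae (integrableOn_const measure_ball_lt_top.ne (by simp))
          gP.lp.integrable_sq.integrableOn measurableSet_ball hpt
    _ ≤ ∫ x, lap (Phi i0 i1 k r) x ^ 2 :=
        setIntegral_le_integral gP.lp.integrable_sq (Eventually.of_forall fun x => sq_nonneg _)

/-- The constant in the capacity estimate. -/
noncomputable def c0 (n k : ℕ) : ℝ :=
  16 * (k : ℝ) ^ 2 * (9 : ℝ)⁻¹ ^ (k + 1) * volume.real (ball (0 : E n) 1) / v0 k ^ 2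

theorem c0_pos (k : ℕ) (hk : 1 ≤ k) : 0 < c0 n k := by
  unfold c0
  have h1 := v0_pos k
  have h2 : 0 < volume.real (ball (0 : E n) 1) := by
    rw [Measure.real, ENNReal.toReal_pos_iff]
    exact ⟨measure_ball_pos volume 0 one_pos, measure_ball_lt_top⟩
  have h3 : (0:ℝ) < k := by exact_mod_cast hk
  positivity

theorem cap_lower (i2 : Fin n) (h01 : i0 ≠ i1) (h20 : i2 ≠ i0) (h21 : i2 ≠ i1) (k : ℕ)
    (hk : 1 ≤ k) (hn : n = 2 * k + 4) {r : ℝ} (hr : 0 < r) {φ : E n → ℝ}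
    (hφ : IsTest Set.univ φ)
    (h1 : ∀ c, ∀ y, Pf i0 i1 (cen i0 i1 r c) r y = 0 → φ y = 1) :
    c0 n k * (r ^ 2) ^ k ≤ ∫ x, lap φ x ^ 2 := by
  have e1 := energy_le i0 i1 i2 h01 h20 h21 k hk hn hr hφ h1
  have e2 := energy_ge i0 i1 h01 k hk hn hr
  have hv := v0_pos k
  rw [VV_self k hr] at e1
  have hrk : 0 < (r ^ 2) ^ k := by positivity
  set I := ∫ x, lap φ x ^ 2 with hI
  set κ := volume.real (ball (0 : E n) 1) with hκ
  have h3 : (4 * (k : ℝ) * (3 * r ^ 2)⁻¹ ^ (k + 1)) ^ 2 * (r ^ n * κ)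
      ≤ (v0 k * (r ^ 2)⁻¹ ^ k) ^ 2 * I := e2.trans e1
  have e4 : (4 * (k : ℝ) * (3 * r ^ 2)⁻¹ ^ (k + 1)) ^ 2 * (r ^ n * κ)
      = 16 * (k : ℝ) ^ 2 * (9 : ℝ)⁻¹ ^ (k + 1) * κ * ((r ^ 2) ^ k)⁻¹ := by
    have a1 : r ^ n = (r ^ 2) ^ k * (r ^ 2) ^ 2 := by
      rw [hn, pow_add, pow_mul, ← pow_mul r 2 2]
    have a2 : (3 * r ^ 2)⁻¹ ^ (k + 1) = (3 : ℝ)⁻¹ ^ (k + 1) * ((r ^ 2) ^ (k + 1))⁻¹ := by
      rw [mul_inv, mul_pow, inv_pow (r ^ 2)]
    have a3 : (9 : ℝ)⁻¹ ^ (k + 1) = ((3 : ℝ)⁻¹ ^ (k + 1)) ^ 2 := by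
      rw [← pow_mul, mul_comm (k + 1) 2, pow_mul]; norm_num
    rw [a1, a2, a3]
    have : (r ^ 2) ^ (k + 1) = (r ^ 2) ^ k * r ^ 2 := pow_succ _ _
    rw [this]
    field_simp
    ring
  have e5 : (v0 k * (r ^ 2)⁻¹ ^ k) ^ 2 = v0 k ^ 2 * (((r ^ 2) ^ k)⁻¹) ^ 2 := by
    rw [mul_pow, inv_pow]
  rw [e4, e5] at h3
  unfold c0
  rw [div_mul_eq_mul_div, div_le_iff₀ (by positivity)]
  have h6 := mul_le_mul_of_nonneg_left h3 (by positivity : (0:ℝ) ≤ ((r ^ 2) ^ k) ^ 2)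
  have e7 : ((r ^ 2) ^ k) ^ 2 * (16 * (k : ℝ) ^ 2 * (9 : ℝ)⁻¹ ^ (k + 1) * κ * ((r ^ 2) ^ k)⁻¹)
      = 16 * (k : ℝ) ^ 2 * (9 : ℝ)⁻¹ ^ (k + 1) * κ * (r ^ 2) ^ k := by
    field_simp
  have e8 : ((r ^ 2) ^ k) ^ 2 * (v0 k ^ 2 * (((r ^ 2) ^ k)⁻¹) ^ 2 * I) = I * v0 k ^ 2 := by
    field_simp
  rw [e7, e8] at h6
  exact h6

end

end Pool.Agent.Lib.MP_7045fd_an
end

section

set_option autoImplicit false

namespace Pool.Agent.Lib.MP_7045fd_an

open MeasureTheory Filter Topology Metric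
open scoped ENNReal InnerProductSpace

variable {n : ℕ}

section

variable (i0 i1 : Fin n)

/-- The capacity series diverges. -/
theorem series_diverges (i2 : Fin n) (h01 : i0 ≠ i1) (h20 : i2 ≠ i0) (h21 : i2 ≠ i1) (k : ℕ)
    (hk : 1 ≤ k) (hn : n = 2 * k + 4) {q : ℕ → ℕ} (hq : StrictMono q) :
    (∑' j : ℕ, (2 : ℝ≥0∞) ^ ((j + 1) * (n - 4)) *
        ⨅ (φ : EuclideanSpace ℝ (Fin n) → ℝ)
          (_ : ContDiff ℝ (⊤ : ℕ∞) φ ∧ HasCompactSupport φ ∧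
            ∃ U : Set (EuclideanSpace ℝ (Fin n)), IsOpen U ∧
              {x : EuclideanSpace ℝ (Fin n) |
                ((1 : ℝ) / 2) ^ (j + 1) / 2 ≤ ‖x‖ ∧ ‖x‖ ≤ ((1 : ℝ) / 2) ^ (j + 1)} \ Om i0 i1 q ⊆ U ∧
              ∀ x ∈ U, φ x = 1),
          ∫⁻ x, ‖∑ i : Fin n, iteratedFDeriv ℝ 2 φ x
                  ![EuclideanSpace.single i (1 : ℝ), EuclideanSpace.single i (1 : ℝ)]‖ₑ ^ 2) = ⊤ := by
  set F : ℕ → ℝ≥0∞ := fun j => (2 : ℝ≥0∞) ^ ((j + 1) * (n - 4)) *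
        ⨅ (φ : EuclideanSpace ℝ (Fin n) → ℝ)
          (_ : ContDiff ℝ (⊤ : ℕ∞) φ ∧ HasCompactSupport φ ∧
            ∃ U : Set (EuclideanSpace ℝ (Fin n)), IsOpen U ∧
              {x : EuclideanSpace ℝ (Fin n) |
                ((1 : ℝ) / 2) ^ (j + 1) / 2 ≤ ‖x‖ ∧ ‖x‖ ≤ ((1 : ℝ) / 2) ^ (j + 1)} \ Om i0 i1 q ⊆ U ∧
              ∀ x ∈ U, φ x = 1),
          ∫⁻ x, ‖∑ i : Fin n, iteratedFDeriv ℝ 2 φ x
                  ![EuclideanSpace.single i (1 : ℝ), EuclideanSpace.single i (1 : ℝ)]‖ₑ ^ 2 with hF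
  set c : ℝ≥0∞ := ENNReal.ofReal (c0 n k * (1 / 4) ^ k) with hc
  have hcpos : c ≠ 0 := by
    rw [hc, Ne, ENNReal.ofReal_eq_zero, not_le]
    have := c0_pos (n := n) k hk
    positivity
  have hterm : ∀ j, c ≤ F (q j) := by
    intro j
    have hr := rr_pos (q j)
    have hlow : ENNReal.ofReal (c0 n k * (rr (q j) ^ 2) ^ k) ≤
        ⨅ (φ : EuclideanSpace ℝ (Fin n) → ℝ)
          (_ : ContDiff ℝ (⊤ : ℕ∞) φ ∧ HasCompactSupport φ ∧
            ∃ U : Set (EuclideanSpace ℝ (Fin n)), IsOpen U ∧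
              {x : EuclideanSpace ℝ (Fin n) |
                ((1 : ℝ) / 2) ^ (q j + 1) / 2 ≤ ‖x‖ ∧ ‖x‖ ≤ ((1 : ℝ) / 2) ^ (q j + 1)}
                  \ Om i0 i1 q ⊆ U ∧
              ∀ x ∈ U, φ x = 1),
          ∫⁻ x, ‖∑ i : Fin n, iteratedFDeriv ℝ 2 φ x
                  ![EuclideanSpace.single i (1 : ℝ), EuclideanSpace.single i (1 : ℝ)]‖ₑ ^ 2 := by
      refine le_iInf fun φ => le_iInf fun hφ => ?_
      obtain ⟨hφ1, hφ2, U, hU, hU1, hU2⟩ := hφ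
      have hφt : IsTest Set.univ φ := ⟨hφ1, hφ2, Set.subset_univ _⟩
      have e : ∫⁻ x, ‖∑ i : Fin n, iteratedFDeriv ℝ 2 φ x
                  ![EuclideanSpace.single i (1 : ℝ), EuclideanSpace.single i (1 : ℝ)]‖ₑ ^ 2
          = ENNReal.ofReal (∫ x, lap φ x ^ 2) := by
        rw [← lintegral_enorm_sq_eq hφt.memLp_lap]
        congr 1
        funext x
        rw [iter_two_sum (contDiff_infty.1 hφ1 2).contDiffAt]
      rw [e]
      apply ENNReal.ofReal_le_ofReal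
      apply cap_lower i0 i1 i2 h01 h20 h21 k hk hn hr hφt
      intro c' y hy
      apply hU2
      apply hU1
      have h1 := norm_on_sq i0 i1 h01 hr c' hy
      have e1 : ((1 : ℝ) / 2) ^ (q j + 1) / 2 = rr (q j) := by
        unfold rr; rw [pow_succ, pow_succ, pow_succ]; ring
      have e2 : ((1 : ℝ) / 2) ^ (q j + 1) = 2 * rr (q j) := by
        unfold rr; rw [pow_succ, pow_succ, pow_succ]; ring
      refine ⟨⟨?_, ?_⟩, fun h => ?_⟩
      · rw [e1]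
        by_contra hcon
        have h2 := norm_nonneg y
        nlinarith [not_le.1 hcon]
      · rw [e2]
        by_contra hcon
        nlinarith [not_le.1 hcon]
      · exact (h.2 j c').ne' hy
    have e3 : c = (2 : ℝ≥0∞) ^ ((q j + 1) * (n - 4)) *
        ENNReal.ofReal (c0 n k * (rr (q j) ^ 2) ^ k) := by
      have h2 : (2 : ℝ≥0∞) = ENNReal.ofReal 2 := by simp
      rw [h2, ← ENNReal.ofReal_pow (by norm_num), ← ENNReal.ofReal_mul (by positivity), hc]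
      congr 1
      have h4 : n - 4 = 2 * k := by omega
      have h5 : (2:ℝ) ^ ((q j + 1) * (n - 4)) = (((2:ℝ) ^ (q j + 1)) ^ 2) ^ k := by
        rw [h4, pow_mul, pow_mul]
      have h6 : ((2:ℝ) ^ (q j + 1)) ^ 2 * rr (q j) ^ 2 = 1 / 4 := by
        rw [← mul_pow]
        have : (2:ℝ) ^ (q j + 1) * rr (q j) = 1 / 2 := by
          unfold rr
          rw [pow_succ (1 / 2 : ℝ) (q j + 1), ← mul_assoc, ← mul_pow]
          norm_num
        rw [this]; norm_num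
      rw [h5, ← h6, mul_pow]
      ring
    rw [e3]
    exact mul_le_mul_right hlow _
  have h1 : ∑' _ : ℕ, c = ⊤ := ENNReal.tsum_const_eq_top_of_ne_zero hcpos
  have h2 : ∑' j : ℕ, F (q j) ≤ ∑' j : ℕ, F j :=
    ENNReal.tsum_comp_le_tsum_of_injective hq.injective F
  have h3 : (⊤ : ℝ≥0∞) ≤ ∑' j : ℕ, F j := by
    rw [← h1]
    exact (ENNReal.tsum_le_tsum hterm).trans h2
  exact top_le_iff.1 h3

end

theorem exists_theta : ∃ θ : E n → ℝ, IsTest Set.univ θ ∧ ∀ x, ‖x‖ < 1 → θ x = 2 := by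
  let b : ContDiffBump (0 : E n) := ⟨1, 2, one_pos, one_lt_two⟩
  refine ⟨fun x => 2 * b x, ⟨contDiff_const.mul b.contDiff, b.hasCompactSupport.mul_left,
    Set.subset_univ _⟩, fun x hx => ?_⟩
  have : b x = 1 := b.one_of_mem_closedBall (by
    rw [mem_closedBall_zero_iff]; exact hx.le)
  show 2 * b x = 2
  rw [this, mul_one]

theorem tsupport_bilap {θ : E n → ℝ} (hθ2 : ∀ x, ‖x‖ < 1 → θ x = 2) :
    tsupport (lap (lap θ)) ⊆ {x | 1 ≤ ‖x‖} := by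
  apply closure_minimal _ (isClosed_le continuous_const continuous_norm)
  intro x hx
  by_contra hcon
  apply hx
  have hx1 : ‖x‖ < 1 := not_le.1 hcon
  have h1 : ∀ y : E n, ‖y‖ < 1 → lap θ y = 0 := by
    intro y hy
    have h2 : θ =ᶠ[𝓝 y] fun _ => 2 := by
      filter_upwards [continuous_norm.continuousAt.eventually (gt_mem_nhds hy)] with z hz
      exact hθ2 z hz
    rw [lap_congr h2, lap_const]
  have h2 : lap θ =ᶠ[𝓝 x] fun _ => 0 := by
    filter_upwards [continuous_norm.continuousAt.eventually (gt_mem_nhds hx1)] with z hz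
    exact h1 z hz
  rw [lap_congr h2, lap_const]

end Pool.Agent.Lib.MP_7045fd_an
end
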