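import Pool.Agent.Lib.MP_7045fd_an.Potential

section

set_option autoImplicit false

namespace Pool.Agent.Lib.MP_7045fd_an

open MeasureTheory Filter Topology Metric
open scoped ENNReal

variable {n : ℕ}

section logest

variable (i0 i1 : Fin n) (a : E n) (ρ : ℝ) (x : E n)

theorem contDiff_logP {m : WithTop ℕ∞} {ε : ℝ} (hε : 0 < ε) :
    ContDiff ℝ m (fun y => Real.log (Pf i0 i1 a ρ y + ε)) := by
  apply ContDiff.log
  · exact (contDiff_Pf i0 i1 a ρ).add contDiff_const
  · intro y
    have := Pf_nonneg i0 i1 a ρ y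
    positivity

theorem lap_logP (h01 : i0 ≠ i1) {ε : ℝ} (hε : 0 < ε) :
    lap (fun y => Real.log (Pf i0 i1 a ρ y + ε)) x
      = (((4 * n + 8) * Nf a x - (4 * n - 16) * ρ ^ 2) * (Pf i0 i1 a ρ x + ε)
          - 16 * Nf a x * Pf i0 i1 a ρ x) / (Pf i0 i1 a ρ x + ε) ^ 2 := by
  have hP := Pf_nonneg i0 i1 a ρ x
  have hpos : 0 < Pf i0 i1 a ρ x + ε := by positivity
  have hc : ContDiffAt ℝ 2 (fun y => Pf i0 i1 a ρ y + ε) x :=
    ((contDiff_Pf i0 i1 a ρ).add contDiff_const).contDiffAt
  have hcP : ContDiffAt ℝ 2 (Pf i0 i1 a ρ) x := (contDiff_Pf i0 i1 a ρ).contDiffAt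
  have hF : ContDiffAt ℝ 2 Real.log (Pf i0 i1 a ρ x + ε) := Real.contDiffAt_log.2 hpos.ne'
  have e1 : lap (fun y => Pf i0 i1 a ρ y + ε) x = lap (Pf i0 i1 a ρ) x := by
    rw [lap_add hcP contDiffAt_const, lap_const]; ring
  have e2 : gam (fun y => Pf i0 i1 a ρ y + ε) (fun y => Pf i0 i1 a ρ y + ε) x
      = gam (Pf i0 i1 a ρ) (Pf i0 i1 a ρ) x := by
    rw [gam_add_right (diff_of hcP) (differentiableAt_const _), gam_const_right, gam_comm,
      gam_add_right (diff_of hcP) (differentiableAt_const _), gam_const_right]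
    ring
  rw [lap_comp (F := Real.log) (f := fun y => Pf i0 i1 a ρ y + ε) hF hc, e1, e2,
    lap_P i0 i1 a ρ x h01, gam_PP i0 i1 a ρ x h01]
  have d1 : deriv Real.log = fun t => t⁻¹ := by funext t; exact Real.deriv_log t
  have d2 : deriv (fun t : ℝ => t⁻¹) (Pf i0 i1 a ρ x + ε) = -((Pf i0 i1 a ρ x + ε) ^ 2)⁻¹ := by
    rw [deriv_inv]
  rw [d1, d2]
  simp only
  field_simp
  ring

theorem lap_logP_ge (h01 : i0 ≠ i1) (hn : 4 ≤ n) (hρ : 0 < ρ) {ε : ℝ} (hε : 0 < ε) :
    4 * ρ ^ 2 / (Pf i0 i1 a ρ x + ε) - (4 * n - 8) ^ 2 / (16 * ρ ^ 2)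
      ≤ lap (fun y => Real.log (Pf i0 i1 a ρ y + ε)) x := by
  rw [lap_logP i0 i1 a ρ x h01 hε]
  have hP := Pf_nonneg i0 i1 a ρ x
  have hpos : 0 < Pf i0 i1 a ρ x + ε := by positivity
  have hR := Rf_nonneg i0 i1 a ρ x
  have hR2 := Rf_sq i0 i1 a ρ x
  have hN := abs_sub_le_Rf i0 i1 a ρ x
  have hN0 := Nf_nonneg a x
  set N := Nf a x
  set P := Pf i0 i1 a ρ x
  set R := Rf i0 i1 a ρ x
  have hn' : (4 : ℝ) ≤ n := by exact_mod_cast hn
  have hN2 : ρ ^ 2 - R ≤ N := by
    have := neg_abs_le (N - ρ ^ 2)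
    linarith
  -- first reduce to the quotient with first power
  have h1 : ((4 * n - 8) * N - (4 * n - 16) * ρ ^ 2) / (P + ε)
      ≤ (((4 * n + 8) * N - (4 * n - 16) * ρ ^ 2) * (P + ε) - 16 * N * P) / (P + ε) ^ 2 := by
    rw [div_le_div_iff₀ hpos (by positivity)]
    have : 0 ≤ N * ε * (P + ε) := by positivity
    nlinarith [this]
  refine le_trans ?_ h1
  have h2 : (8 * ρ ^ 2 - (4 * n - 8) * R) / (P + ε)
      ≤ ((4 * n - 8) * N - (4 * n - 16) * ρ ^ 2) / (P + ε) := by
    apply div_le_div_of_nonneg_right _ hpos.le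
    nlinarith
  refine le_trans ?_ h2
  rw [← sub_nonneg]
  have h3 : (8 * ρ ^ 2 - (4 * n - 8) * R) / (P + ε)
      - (4 * ρ ^ 2 / (P + ε) - (4 * n - 8) ^ 2 / (16 * ρ ^ 2))
      = ((2 * ρ - (4 * n - 8) * R / (4 * ρ)) ^ 2 + (4 * n - 8) ^ 2 * ε / (16 * ρ ^ 2))
          / (P + ε) := by
    rw [← hR2]
    have hpos' : R ^ 2 + ε ≠ 0 := by rw [hR2]; exact hpos.ne'
    field_simp
    ring
  rw [h3]
  positivity

end logest

section integrable

variable (i0 i1 : Fin n) (a : E n) (ρ : ℝ)

theorem exists_far (hρ : 0 < ρ) : ∀ x : E n, ‖a‖ + 2 * ρ ≤ ‖x‖ → 0 < Pf i0 i1 a ρ x := by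
  intro x hx
  have h1 : 2 * ρ ≤ ‖x - a‖ := by
    have := norm_sub_norm_le x a
    linarith
  have h2 : 4 * ρ ^ 2 ≤ Nf a x := by
    rw [Nf_eq]
    nlinarith
  have h3 := sub_sq_le_Pf i0 i1 a ρ x
  have h4 : 0 < (Nf a x - ρ ^ 2) ^ 2 := by
    have : 0 < Nf a x - ρ ^ 2 := by nlinarith [sq_nonneg ρ, sq_pos_of_pos hρ]
    positivity
  linarith

/-- The uniform bound for the regularized integrals. -/
theorem exists_unif_bound (h01 : i0 ≠ i1) (hn : 4 ≤ n) (hρ : 0 < ρ) (L : ℝ) :
    ∃ C : ℝ, 0 ≤ C ∧ ∀ ε : ℝ, 0 < ε → ε ≤ 1 →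
      ∫⁻ x in ball (0 : E n) L, ENNReal.ofReal (1 / (Pf i0 i1 a ρ x + ε)) ≤ ENNReal.ofReal C := by
  set L' : ℝ := max L (‖a‖ + 2 * ρ) with hL'
  have hL'pos : 0 < L' := lt_of_lt_of_le (by positivity) (le_max_right _ _)
  let b : ContDiffBump (0 : E n) := ⟨L', L' + 1, hL'pos, by linarith⟩
  have hbs : ContDiff ℝ (⊤ : ℕ∞) b := b.contDiff
  have hbc : HasCompactSupport b := b.hasCompactSupport
  have hlc : Continuous (lap b) := (contDiff_lap_top hbs).continuous
  have hlcs : HasCompactSupport (lap b) := hcs_lap hbc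
  -- `P > 0` on the support of `lap b`
  have hK : ∀ x ∈ tsupport (lap b), 0 < Pf i0 i1 a ρ x := by
    intro x hx
    apply exists_far i0 i1 a ρ hρ
    by_contra hlt
    push Not at hlt
    have hx2 : x ∈ ball (0 : E n) b.rIn := by
      rw [mem_ball_zero_iff]
      exact lt_of_lt_of_le hlt (le_max_right _ _)
    have h1 : (b : E n → ℝ) =ᶠ[𝓝 x] fun _ => 1 := b.eventuallyEq_one_of_mem_ball hx2
    have h2 : lap b =ᶠ[𝓝 x] fun _ => 0 := by
      filter_upwards [h1.eventuallyEq_nhds] with y hy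
      rw [lap_congr hy, lap_const]
    exact (notMem_tsupport_iff_eventuallyEq.2 h2) hx
  -- bound of the logarithm
  obtain ⟨M, hM⟩ : ∃ M : ℝ, ∀ p ∈ (tsupport (lap b)) ×ˢ (Set.Icc (0 : ℝ) 1),
      ‖Real.log (Pf i0 i1 a ρ p.1 + p.2)‖ ≤ M := by
    apply IsCompact.exists_bound_of_continuousOn
    · exact IsCompact.prod hlcs isCompact_Icc
    · apply ContinuousOn.log
      · exact (((continuous_Pf i0 i1 a ρ).comp continuous_fst).add continuous_snd).continuousOn
      · rintro ⟨y, t⟩ ⟨hy, ht⟩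
        have h1 := hK y hy
        have h2 := ht.1
        simp only at h1 h2 ⊢
        positivity
  have ilap : Integrable (lap b) := hlc.integrable_of_hasCompactSupport hlcs
  have ib : Integrable b := b.continuous.integrable_of_hasCompactSupport hbc
  set C1 : ℝ := (4 * n - 8) ^ 2 / (16 * ρ ^ 2) with hC1
  have hC1nn : 0 ≤ C1 := by positivity
  set C : ℝ := ((∫ x, M * |lap b x|) + C1 * ∫ x, b x) / (4 * ρ ^ 2) with hC
  refine ⟨|C|, abs_nonneg _, fun ε hε hε1 => ?_⟩
  have hlog := contDiff_logP i0 i1 a ρ (m := 2) hε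
  have hgreen := green (g := fun y => Real.log (Pf i0 i1 a ρ y + ε)) hbs hbc
    (fun x _ => hlog.contDiffAt)
  have hposP : ∀ x, 0 < Pf i0 i1 a ρ x + ε := fun x => by
    have := Pf_nonneg i0 i1 a ρ x
    positivity
  have hcinv : Continuous fun x => 1 / (Pf i0 i1 a ρ x + ε) :=
    continuous_const.div ((continuous_Pf i0 i1 a ρ).add continuous_const) fun x => (hposP x).ne'
  have iinv : Integrable (fun x => 1 / (Pf i0 i1 a ρ x + ε) * b x) :=
    integrable_mul_of_tsupport b.continuous hbc fun x _ => hcinv.continuousAt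
  have hll : Continuous (lap fun y => Real.log (Pf i0 i1 a ρ y + ε)) :=
    (contDiff_lap_top (contDiff_logP i0 i1 a ρ hε)).continuous
  have i2 : Integrable (fun x => lap (fun y => Real.log (Pf i0 i1 a ρ y + ε)) x * b x) :=
    integrable_mul_of_tsupport b.continuous hbc fun x _ => hll.continuousAt
  have i1' : Integrable (fun x => Real.log (Pf i0 i1 a ρ x + ε) * lap b x) :=
    integrable_mul_of_tsupport hlc hlcs fun x _ => hlog.continuous.continuousAt
  have step1 : ∫ x, (4 * ρ ^ 2) * (1 / (Pf i0 i1 a ρ x + ε) * b x)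
      ≤ ∫ x, (lap (fun y => Real.log (Pf i0 i1 a ρ y + ε)) x * b x + C1 * b x) := by
    apply integral_mono (iinv.const_mul _) (i2.add (ib.const_mul _))
    intro x
    have h := lap_logP_ge i0 i1 a ρ x h01 hn hρ hε
    have hb0 : 0 ≤ b x := b.nonneg
    simp only [Pi.add_apply]
    have h' : 4 * ρ ^ 2 * (1 / (Pf i0 i1 a ρ x + ε))
        ≤ lap (fun y => Real.log (Pf i0 i1 a ρ y + ε)) x + C1 := by
      have e : 4 * ρ ^ 2 * (1 / (Pf i0 i1 a ρ x + ε)) = 4 * ρ ^ 2 / (Pf i0 i1 a ρ x + ε) := by ring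
      rw [e]; linarith
    nlinarith [mul_le_mul_of_nonneg_right h' hb0]
  have step2 : ∫ x, (lap (fun y => Real.log (Pf i0 i1 a ρ y + ε)) x * b x + C1 * b x)
      = (∫ x, Real.log (Pf i0 i1 a ρ x + ε) * lap b x) + C1 * ∫ x, b x := by
    rw [integral_add i2 (ib.const_mul _), ← hgreen, integral_const_mul]
  have step3 : ∫ x, Real.log (Pf i0 i1 a ρ x + ε) * lap b x ≤ ∫ x, M * |lap b x| := by
    apply integral_mono i1' (ilap.abs.const_mul _)
    intro x
    simp only
    by_cases hx : x ∈ tsupport (lap b)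
    · have h := hM (x, ε) ⟨hx, hε.le, hε1⟩
      simp only [Real.norm_eq_abs] at h
      calc Real.log (Pf i0 i1 a ρ x + ε) * lap b x
          ≤ |Real.log (Pf i0 i1 a ρ x + ε) * lap b x| := le_abs_self _
        _ = |Real.log (Pf i0 i1 a ρ x + ε)| * |lap b x| := abs_mul _ _
        _ ≤ M * |lap b x| := mul_le_mul_of_nonneg_right h (abs_nonneg _)
    · rw [image_eq_zero_of_notMem_tsupport hx]; simp
  have step4 : ∫ x, 1 / (Pf i0 i1 a ρ x + ε) * b x ≤ |C| := by
    have h : (4 * ρ ^ 2) * ∫ x, 1 / (Pf i0 i1 a ρ x + ε) * b x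
        ≤ (∫ x, M * |lap b x|) + C1 * ∫ x, b x := by
      rw [← integral_const_mul]
      linarith [step1, step2, step3]
    have h2 : ∫ x, 1 / (Pf i0 i1 a ρ x + ε) * b x ≤ C := by
      rw [hC, le_div_iff₀ (by positivity)]
      linarith
    exact h2.trans (le_abs_self _)
  calc ∫⁻ x in ball (0 : E n) L, ENNReal.ofReal (1 / (Pf i0 i1 a ρ x + ε))
      ≤ ∫⁻ x in ball (0 : E n) L, ENNReal.ofReal (1 / (Pf i0 i1 a ρ x + ε) * b x) := by
        apply setLIntegral_mono' measurableSet_ball
        intro x hx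
        have h1 : b x = 1 := by
          apply b.one_of_mem_closedBall
          rw [mem_closedBall_zero_iff]
          exact (mem_ball_zero_iff.1 hx).le.trans (le_max_left _ _)
        rw [h1, mul_one]
    _ ≤ ∫⁻ x, ENNReal.ofReal (1 / (Pf i0 i1 a ρ x + ε) * b x) := setLIntegral_le_lintegral _ _
    _ = ENNReal.ofReal (∫ x, 1 / (Pf i0 i1 a ρ x + ε) * b x) := by
        rw [ofReal_integral_eq_lintegral_ofReal iinv]
        exact Eventually.of_forall fun x => mul_nonneg (by have := hposP x; positivity) b.nonneg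
    _ ≤ ENNReal.ofReal |C| := ENNReal.ofReal_le_ofReal step4

/-- The zero set of `P` is a null set. -/
theorem volume_zero_Pf (h01 : i0 ≠ i1) (hn : 4 ≤ n) (hρ : 0 < ρ) :
    volume {x : E n | Pf i0 i1 a ρ x = 0} = 0 := by
  set L : ℝ := ‖a‖ + 2 * ρ with hL
  obtain ⟨C, hC, h⟩ := exists_unif_bound i0 i1 a ρ h01 hn hρ L
  have hsub : {x : E n | Pf i0 i1 a ρ x = 0} ⊆ ball (0 : E n) L := by
    intro x hx
    rw [mem_ball_zero_iff]
    by_contra hlt
    push Not at hlt
    exact (exists_far i0 i1 a ρ hρ x hlt).ne' hx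
  have hmeas : MeasurableSet {x : E n | Pf i0 i1 a ρ x = 0} :=
    (isClosed_eq (continuous_Pf i0 i1 a ρ) continuous_const).measurableSet
  have key : ∀ j : ℕ, (j + 1 : ℝ≥0∞) * volume {x : E n | Pf i0 i1 a ρ x = 0} ≤ ENNReal.ofReal C := by
    intro j
    have hj : (0 : ℝ) < 1 / ((j : ℝ) + 1) := by positivity
    have hj1 : 1 / ((j : ℝ) + 1) ≤ 1 := by
      rw [div_le_one (by positivity)]
      have : (0 : ℝ) ≤ j := Nat.cast_nonneg j
      linarith
    refine le_trans ?_ (h _ hj hj1)
    calc (j + 1 : ℝ≥0∞) * volume {x : E n | Pf i0 i1 a ρ x = 0}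
        = ∫⁻ x in {x : E n | Pf i0 i1 a ρ x = 0}, (j + 1 : ℝ≥0∞) := by
          rw [setLIntegral_const]
      _ ≤ ∫⁻ x in {x : E n | Pf i0 i1 a ρ x = 0},
            ENNReal.ofReal (1 / (Pf i0 i1 a ρ x + 1 / ((j : ℝ) + 1))) := by
          apply setLIntegral_mono' hmeas
          intro x hx
          have hx' : Pf i0 i1 a ρ x = 0 := hx
          rw [hx', zero_add, one_div_one_div, ENNReal.ofReal_add (by positivity) (by positivity)]
          simp
      _ ≤ _ := lintegral_mono_set hsub
  by_contra hne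
  have hlt : ENNReal.ofReal C < ⊤ := ENNReal.ofReal_lt_top
  have hinf : (⊤ : ℝ≥0∞) ≤ ENNReal.ofReal C := by
    have h1 : Tendsto (fun j : ℕ => (j + 1 : ℝ≥0∞) * volume {x : E n | Pf i0 i1 a ρ x = 0})
        atTop (𝓝 (⊤ * volume {x : E n | Pf i0 i1 a ρ x = 0})) := by
      apply ENNReal.Tendsto.mul_const
      · have := ENNReal.tendsto_nat_nhds_top
        have h2 := this.comp (tendsto_add_atTop_nat 1)
        refine h2.congr fun j => ?_
        simp
      · left; simp
    rw [ENNReal.top_mul hne] at h1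
    exact le_of_tendsto' h1 key
  exact absurd (lt_of_le_of_lt hinf hlt) (lt_irrefl _)

/-- `1 / P` is locally integrable. -/
theorem integrableOn_inv_Pf (h01 : i0 ≠ i1) (hn : 4 ≤ n) (hρ : 0 < ρ) (L : ℝ) :
    IntegrableOn (fun x : E n => 1 / Pf i0 i1 a ρ x) (ball (0 : E n) L) := by
  obtain ⟨C, hC, h⟩ := exists_unif_bound i0 i1 a ρ h01 hn hρ L
  have hm : Measurable (fun x : E n => 1 / Pf i0 i1 a ρ x) :=
    measurable_const.div (continuous_Pf i0 i1 a ρ).measurable
  have hnn : ∀ x : E n, 0 ≤ 1 / Pf i0 i1 a ρ x := fun x => by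
    have := Pf_nonneg i0 i1 a ρ x
    positivity
  refine ⟨hm.aestronglyMeasurable, ?_⟩
  rw [hasFiniteIntegral_iff_ofReal (Eventually.of_forall hnn)]
  refine lt_of_le_of_lt ?_ (ENNReal.ofReal_lt_top (r := C))
  have hj0 : ∀ j : ℕ, (0 : ℝ) < 1 / ((j : ℝ) + 1) := fun j => by positivity
  have hj1 : ∀ j : ℕ, 1 / ((j : ℝ) + 1) ≤ 1 := fun j => by
    rw [div_le_one (by positivity)]
    have : (0 : ℝ) ≤ j := Nat.cast_nonneg j
    linarith
  have hmj : ∀ j : ℕ, Measurable
      fun x : E n => ENNReal.ofReal (1 / (Pf i0 i1 a ρ x + 1 / ((j : ℝ) + 1))) := fun j =>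
    (measurable_const.div ((continuous_Pf i0 i1 a ρ).measurable.add measurable_const)).ennreal_ofReal
  calc ∫⁻ x in ball (0 : E n) L, ENNReal.ofReal (1 / Pf i0 i1 a ρ x)
      ≤ ∫⁻ x in ball (0 : E n) L,
          liminf (fun j : ℕ => ENNReal.ofReal (1 / (Pf i0 i1 a ρ x + 1 / ((j : ℝ) + 1)))) atTop := by
        apply lintegral_mono
        intro x
        by_cases hx : Pf i0 i1 a ρ x = 0
        · simp [hx]
        · have ht : Tendsto (fun j : ℕ => 1 / (Pf i0 i1 a ρ x + 1 / ((j : ℝ) + 1))) atTop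
              (𝓝 (1 / (Pf i0 i1 a ρ x + 0))) := by
            apply Tendsto.div tendsto_const_nhds
            · exact tendsto_const_nhds.add tendsto_one_div_add_atTop_nhds_zero_nat
            · simpa using hx
          rw [add_zero] at ht
          have ht2 := (ENNReal.continuous_ofReal.tendsto _).comp ht
          exact (Tendsto.liminf_eq ht2).ge
    _ ≤ liminf (fun j : ℕ => ∫⁻ x in ball (0 : E n) L,
          ENNReal.ofReal (1 / (Pf i0 i1 a ρ x + 1 / ((j : ℝ) + 1)))) atTop :=
        lintegral_liminf_le hmj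
    _ ≤ ENNReal.ofReal C := by
        apply liminf_le_of_le
        · isBoundedDefault
        · intro b hb
          obtain ⟨j, hj⟩ := hb.exists
          exact hj.trans (h _ (hj0 j) (hj1 j))

end integrable

end Pool.Agent.Lib.MP_7045fd_an
end

section

set_option autoImplicit false

namespace Pool.Agent.Lib.MP_7045fd_an

open MeasureTheory Filter Topology Metric
open scoped ENNReal

variable {n : ℕ}

/-- The smooth transition function. -/
noncomputable abbrev sT : ℝ → ℝ := Real.smoothTransition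

theorem contDiff_sT {m : ℕ∞} : ContDiff ℝ m sT := Real.smoothTransition.contDiff

theorem deriv_sT_zero {t : ℝ} (ht : t < 0 ∨ 1 < t) : deriv sT t = 0 := by
  rcases ht with ht | ht
  · have h : sT =ᶠ[𝓝 t] fun _ => 0 := by
      filter_upwards [Iio_mem_nhds ht] with y hy
      exact Real.smoothTransition.zero_of_nonpos (le_of_lt hy)
    rw [h.deriv_eq]; simp
  · have h : sT =ᶠ[𝓝 t] fun _ => 1 := by
      filter_upwards [Ioi_mem_nhds ht] with y hy
      exact Real.smoothTransition.one_of_one_le (le_of_lt hy)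
    rw [h.deriv_eq]; simp

theorem deriv2_sT_zero {t : ℝ} (ht : t < 0 ∨ 1 < t) : deriv (deriv sT) t = 0 := by
  rcases ht with ht | ht
  · have h : deriv sT =ᶠ[𝓝 t] fun _ => 0 := by
      filter_upwards [Iio_mem_nhds ht] with y hy
      exact deriv_sT_zero (Or.inl hy)
    rw [h.deriv_eq]; simp
  · have h : deriv sT =ᶠ[𝓝 t] fun _ => 0 := by
      filter_upwards [Ioi_mem_nhds ht] with y hy
      exact deriv_sT_zero (Or.inr hy)
    rw [h.deriv_eq]; simp

theorem contDiff_deriv_sT : ContDiff ℝ (⊤ : ℕ∞) (deriv sT) :=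
  ((contDiff_infty_iff_deriv (f := sT)).1 contDiff_sT).2

theorem contDiff_deriv2_sT : ContDiff ℝ (⊤ : ℕ∞) (deriv (deriv sT)) :=
  ((contDiff_infty_iff_deriv (f := deriv sT)).1 contDiff_deriv_sT).2

/-- A common bound for the first two derivatives of the transition function. -/
theorem exists_bound_sT : ∃ M : ℝ, 1 ≤ M ∧ (∀ t, |deriv sT t| ≤ M) ∧ (∀ t, |deriv (deriv sT) t| ≤ M) := by
  obtain ⟨M1, h1⟩ := (isCompact_Icc (a := (0:ℝ)) (b := 1)).exists_bound_of_continuousOn
    contDiff_deriv_sT.continuous.continuousOn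
  obtain ⟨M2, h2⟩ := (isCompact_Icc (a := (0:ℝ)) (b := 1)).exists_bound_of_continuousOn
    contDiff_deriv2_sT.continuous.continuousOn
  refine ⟨max 1 (max M1 M2), le_max_left _ _, fun t => ?_, fun t => ?_⟩
  · by_cases ht : t ∈ Set.Icc (0:ℝ) 1
    · exact (h1 t ht).trans ((le_max_left _ _).trans (le_max_right _ _))
    · have ht' : t < 0 ∨ 1 < t := by
        by_contra hcon
        push Not at hcon
        exact ht ⟨hcon.1, hcon.2⟩
      rw [deriv_sT_zero ht', abs_zero]
      exact le_trans zero_le_one (le_max_left _ _)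
  · by_cases ht : t ∈ Set.Icc (0:ℝ) 1
    · exact (h2 t ht).trans ((le_max_right _ _).trans (le_max_right _ _))
    · have ht' : t < 0 ∨ 1 < t := by
        by_contra hcon
        push Not at hcon
        exact ht ⟨hcon.1, hcon.2⟩
      rw [deriv2_sT_zero ht', abs_zero]
      exact le_trans zero_le_one (le_max_left _ _)

/-- The cutoff `sT (c Q - 1)`: it is `0` where `c Q ≤ 1` and `1` where `c Q ≥ 2`. -/
noncomputable def cut (c : ℝ) (Q : E n → ℝ) (x : E n) : ℝ := sT (c * Q x - 1)

section cut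

variable {c : ℝ} {Q : E n → ℝ} {x : E n}

theorem cut_nonneg : 0 ≤ cut c Q x := Real.smoothTransition.nonneg _

theorem cut_le_one : cut c Q x ≤ 1 := Real.smoothTransition.le_one _

theorem cut_eq_zero (h : c * Q x ≤ 1) : cut c Q x = 0 :=
  Real.smoothTransition.zero_of_nonpos (by linarith)

theorem cut_eq_one (h : 2 ≤ c * Q x) : cut c Q x = 1 :=
  Real.smoothTransition.one_of_one_le (by linarith)

theorem contDiff_cut (hQ : ContDiff ℝ (⊤ : ℕ∞) Q) : ContDiff ℝ (⊤ : ℕ∞) (cut c Q) := by
  unfold cut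
  exact contDiff_sT.comp ((contDiff_const.mul hQ).sub contDiff_const)

theorem cut_eventually_one (hQ : ContinuousAt Q x) (h : 2 < c * Q x) :
    cut c Q =ᶠ[𝓝 x] fun _ => 1 := by
  have : ContinuousAt (fun y => c * Q y) x := continuousAt_const.mul hQ
  filter_upwards [this.eventually (lt_mem_nhds h)] with y hy
  exact cut_eq_one (le_of_lt hy)

theorem cut_eventually_zero (hQ : ContinuousAt Q x) (h : c * Q x < 1) :
    cut c Q =ᶠ[𝓝 x] fun _ => 0 := by
  have : ContinuousAt (fun y => c * Q y) x := continuousAt_const.mul hQ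
  filter_upwards [this.eventually (gt_mem_nhds h)] with y hy
  exact cut_eq_zero (le_of_lt hy)

theorem deriv_affine (F : ℝ → ℝ) (hF : Differentiable ℝ F) (c t : ℝ) :
    deriv (fun s => F (c * s - 1)) t = c * deriv F (c * t - 1) := by
  have h1 : HasDerivAt (fun s : ℝ => c * s - 1) c t := by
    simpa using ((hasDerivAt_id t).const_mul c).sub_const 1
  have h2 := (hF (c * t - 1)).hasDerivAt.comp t h1
  have h3 : (fun s => F (c * s - 1)) = F ∘ fun s => c * s - 1 := rfl
  rw [h3, h2.deriv]; ring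

theorem gam_cut_right {f : E n → ℝ} (hQ : ContDiffAt ℝ 2 Q x) :
    gam f (cut c Q) x = c * deriv sT (c * Q x - 1) * gam f Q x := by
  have hs : Differentiable ℝ sT := (contDiff_sT (m := 1)).differentiable (by norm_num)
  have hF : DifferentiableAt ℝ (fun s => sT (c * s - 1)) (Q x) := by
    have h1 : Differentiable ℝ (fun s : ℝ => c * s - 1) := by fun_prop
    exact (hs.comp h1) _
  have h := gam_comp_right (f := f) (F := fun s => sT (c * s - 1)) hF (diff_of hQ)
  rw [deriv_affine sT hs] at h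
  exact h

theorem lap_cut (hQ : ContDiffAt ℝ 2 Q x) :
    lap (cut c Q) x = c * deriv sT (c * Q x - 1) * lap Q x
      + c ^ 2 * deriv (deriv sT) (c * Q x - 1) * gam Q Q x := by
  have hs : Differentiable ℝ sT := (contDiff_sT (m := 1)).differentiable (by norm_num)
  have hs' : Differentiable ℝ (deriv sT) := contDiff_deriv_sT.differentiable (by simp)
  have hF : ContDiffAt ℝ 2 (fun s => sT (c * s - 1)) (Q x) := by
    have h1 : ContDiff ℝ 2 (fun s : ℝ => c * s - 1) := by fun_prop
    exact ((contDiff_sT (m := 2)).comp h1).contDiffAt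
  have h := lap_comp (F := fun s => sT (c * s - 1)) hF hQ
  have e1 : deriv (fun s => sT (c * s - 1)) = fun t => c * deriv sT (c * t - 1) := by
    funext t; exact deriv_affine sT hs c t
  have e2 : deriv (fun t => c * deriv sT (c * t - 1)) (Q x)
      = c ^ 2 * deriv (deriv sT) (c * Q x - 1) := by
    rw [deriv_const_mul_field, deriv_affine (deriv sT) hs']
    ring
  rw [e1, e2] at h
  exact h

/-- Bounds for the cutoff. -/
theorem cut_bounds {M K : ℝ} (hM1 : 1 ≤ M) (hM : ∀ t, |deriv sT t| ≤ M)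
    (hM' : ∀ t, |deriv (deriv sT) t| ≤ M) (hc : 0 ≤ c) (hK : 0 ≤ K)
    (hQ : ContDiffAt ℝ 2 Q x) (hQx : 0 < Q x) (hg : gam Q Q x ≤ K * Q x) (hl : |lap Q x| ≤ K) :
    gam (cut c Q) (cut c Q) x ≤ 4 * M ^ 2 * K / Q x ∧ |lap (cut c Q) x| ≤ 6 * M * K / Q x := by
  have hg0 : 0 ≤ gam Q Q x := gam_self_nonneg
  by_cases ht : c * Q x - 1 < 0 ∨ 1 < c * Q x - 1
  · rw [gam_cut_right hQ, lap_cut hQ, deriv_sT_zero ht, deriv2_sT_zero ht]
    constructor
    · have : 0 ≤ 4 * M ^ 2 * K / Q x := by positivity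
      simpa using this
    · have : 0 ≤ 6 * M * K / Q x := by positivity
      simpa using this
  · push Not at ht
    have hcQ : c * Q x ≤ 2 := by linarith [ht.2]
    have hcQ0 : 0 ≤ c * Q x := by positivity
    have hc2 : c ≤ 2 / Q x := by rwa [le_div_iff₀ hQx]
    set d := deriv sT (c * Q x - 1) with hd
    set d2 := deriv (deriv sT) (c * Q x - 1) with hd2
    have hdM : |d| ≤ M := hM _
    have hd2M : |d2| ≤ M := hM' _
    have hdsq : d ^ 2 ≤ M ^ 2 := by
      rw [← sq_abs]; exact pow_le_pow_left₀ (abs_nonneg _) hdM 2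
    have hcgam : c ^ 2 * gam Q Q x ≤ 4 * K / Q x := by
      have h1 : c ^ 2 * gam Q Q x ≤ c ^ 2 * (K * Q x) := mul_le_mul_of_nonneg_left hg (sq_nonneg c)
      have h2 : c ^ 2 * (K * Q x) = (c * Q x) ^ 2 * K / Q x := by field_simp
      have h3 : (c * Q x) ^ 2 * K / Q x ≤ 4 * K / Q x := by
        apply div_le_div_of_nonneg_right _ hQx.le
        have h4 : (c * Q x) ^ 2 ≤ 4 := by nlinarith
        exact mul_le_mul_of_nonneg_right h4 hK
      linarith
    constructor
    · rw [gam_cut_right hQ, gam_comm, gam_cut_right hQ]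
      calc c * d * (c * d * gam Q Q x) = d ^ 2 * (c ^ 2 * gam Q Q x) := by ring
        _ ≤ M ^ 2 * (4 * K / Q x) := by
            apply mul_le_mul hdsq hcgam (by positivity) (by positivity)
        _ = 4 * M ^ 2 * K / Q x := by ring
    · rw [lap_cut hQ]
      calc |c * d * lap Q x + c ^ 2 * d2 * gam Q Q x|
          ≤ |c * d * lap Q x| + |c ^ 2 * d2 * gam Q Q x| := abs_add_le _ _
        _ = c * |d| * |lap Q x| + |d2| * (c ^ 2 * gam Q Q x) := by
            rw [abs_mul, abs_mul, abs_of_nonneg hc, abs_mul, abs_mul, abs_of_nonneg (sq_nonneg c),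
              abs_of_nonneg hg0]
            ring
        _ ≤ (2 / Q x) * M * K + M * (4 * K / Q x) := by
            apply add_le_add
            · apply mul_le_mul _ hl (abs_nonneg _) (by positivity)
              exact mul_le_mul hc2 hdM (abs_nonneg _) (by positivity)
            · exact mul_le_mul hd2M hcgam (by positivity) (by positivity)
        _ = 6 * M * K / Q x := by ring

end cut

section L2conv

/-- Dominated convergence in `L²`. -/
theorem tendsto_eLpNorm_two {f : ℕ → E n → ℝ} {G : E n → ℝ}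
    (hf : ∀ j, AEStronglyMeasurable (f j) volume) (hG : Integrable G)
    (hb : ∀ j, ∀ᵐ x, f j x ^ 2 ≤ G x) (h0 : ∀ᵐ x, Tendsto (fun j => f j x) atTop (𝓝 0)) :
    Tendsto (fun j => eLpNorm (f j) 2 volume) atTop (𝓝 0) := by
  have key : Tendsto (fun j => ∫⁻ x, ‖f j x‖ₑ ^ (2:ℝ)) atTop (𝓝 (∫⁻ x : E n, 0)) := by
    apply tendsto_lintegral_of_dominated_convergence' (fun x => ENNReal.ofReal (G x))
    · intro j
      exact ((hf j).enorm).pow_const _
    · intro j
      filter_upwards [hb j] with x hx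
      rw [Real.enorm_eq_ofReal_abs, ENNReal.ofReal_rpow_of_nonneg (abs_nonneg _) (by norm_num)]
      apply ENNReal.ofReal_le_ofReal
      simpa using hx
    · exact (hG.lintegral_lt_top).ne
    · filter_upwards [h0] with x hx
      have h1 : Tendsto (fun j => ‖f j x‖ₑ) atTop (𝓝 0) := by
        have := (continuous_enorm.tendsto (0:ℝ)).comp hx
        rw [enorm_zero] at this
        exact this
      have h2 := ((ENNReal.continuous_rpow_const (y := (2:ℝ))).tendsto 0).comp h1
      rw [ENNReal.zero_rpow_of_pos (by norm_num)] at h2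
      exact h2
  rw [lintegral_zero] at key
  have h2 := ((ENNReal.continuous_rpow_const (y := (1/2:ℝ))).tendsto 0).comp key
  have h3 : (0:ℝ≥0∞) ^ (1/2:ℝ) = 0 := ENNReal.zero_rpow_of_pos (by norm_num)
  rw [h3] at h2
  refine h2.congr fun j => ?_
  rw [eLpNorm_eq_lintegral_rpow_enorm_toReal (by norm_num) (by norm_num)]
  simp

theorem memLp_two_of_sq_le {f G : E n → ℝ} (hf : AEStronglyMeasurable f volume)
    (hG : Integrable G) (hb : ∀ᵐ x, f x ^ 2 ≤ G x) : MemLp f 2 volume := by
  rw [memLp_two_iff_integrable_sq hf]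
  refine hG.mono' (hf.pow 2) ?_
  filter_upwards [hb] with x hx
  rw [Real.norm_of_nonneg (sq_nonneg _)]
  exact hx

end L2conv

end Pool.Agent.Lib.MP_7045fd_an
end

section

set_option autoImplicit false

namespace Pool.Agent.Lib.MP_7045fd_an

open MeasureTheory Filter Topology Metric
open scoped ENNReal

variable {n : ℕ}

/-- Smooth functions with compact support in `U`. -/
def IsTest (U : Set (E n)) (φ : E n → ℝ) : Prop :=
  ContDiff ℝ (⊤ : ℕ∞) φ ∧ HasCompactSupport φ ∧ tsupport φ ⊆ U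

/-- The weight `1 / (1 + |x|^2)`. -/
noncomputable def wt (x : E n) : ℝ := (1 + ‖x‖ ^ 2)⁻¹

theorem wt_pos (x : E n) : 0 < wt x := by unfold wt; positivity

theorem wt_le_one (x : E n) : wt x ≤ 1 := by
  unfold wt
  apply inv_le_one_of_one_le₀
  nlinarith [sq_nonneg ‖x‖]

theorem continuous_wt : Continuous (wt : E n → ℝ) := by
  unfold wt
  refine (continuous_const.add (continuous_norm.pow 2)).inv₀ fun x => ?_
  have : (0:ℝ) < 1 + ‖x‖ ^ 2 := by positivity
  exact this.ne'

/-- The pair `(u, g)` is a limit of `(φ, Δ φ)` with `φ` a test function in `U`. -/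
def Rep (U : Set (E n)) (u g : E n → ℝ) : Prop :=
  ∀ ε : ℝ≥0∞, ε ≠ 0 → ∃ φ, IsTest U φ ∧ eLpNorm (fun x => lap φ x - g x) 2 volume ≤ ε ∧
    eLpNorm (fun x => wt x * (φ x - u x)) 2 volume ≤ ε

theorem IsTest.continuous {U : Set (E n)} {φ : E n → ℝ} (h : IsTest U φ) : Continuous φ :=
  h.1.continuous

theorem IsTest.mono {U V : Set (E n)} {φ : E n → ℝ} (h : IsTest U φ) (hUV : U ⊆ V) : IsTest V φ :=
  ⟨h.1, h.2.1, h.2.2.trans hUV⟩

theorem IsTest.continuous_lap {U : Set (E n)} {φ : E n → ℝ} (h : IsTest U φ) :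
    Continuous (lap φ) := (contDiff_lap_top h.1).continuous

theorem IsTest.memLp_lap {U : Set (E n)} {φ : E n → ℝ} (h : IsTest U φ) :
    MemLp (lap φ) 2 volume :=
  h.continuous_lap.memLp_of_hasCompactSupport (hcs_lap h.2.1)

theorem IsTest.memLp_wt {U : Set (E n)} {φ : E n → ℝ} (h : IsTest U φ) :
    MemLp (fun x => wt x * φ x) 2 volume :=
  (continuous_wt.mul h.continuous).memLp_of_hasCompactSupport h.2.1.mul_left

theorem Rep.mono {U V : Set (E n)} {u g : E n → ℝ} (h : Rep U u g) (hUV : U ⊆ V) : Rep V u g := by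
  intro ε hε
  obtain ⟨φ, h1, h2, h3⟩ := h ε hε
  exact ⟨φ, h1.mono hUV, h2, h3⟩

theorem IsTest.rep {U : Set (E n)} {φ : E n → ℝ} (h : IsTest U φ) : Rep U φ (lap φ) := by
  intro ε _
  refine ⟨φ, h, ?_, ?_⟩ <;> simp

theorem Rep.closure {U : Set (E n)} {u g : E n → ℝ} (hu : Measurable u) (hg : Measurable g)
    {u' g' : ℕ → E n → ℝ} (hu' : ∀ j, Measurable (u' j)) (hg' : ∀ j, Measurable (g' j))
    (hr : ∀ j, Rep U (u' j) (g' j))
    (h1 : Tendsto (fun j => eLpNorm (fun x => g' j x - g x) 2 volume) atTop (𝓝 0))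
    (h2 : Tendsto (fun j => eLpNorm (fun x => wt x * (u' j x - u x)) 2 volume) atTop (𝓝 0)) :
    Rep U u g := by
  intro ε hε
  have hε2 : ε / 2 ≠ 0 := by
    simp [hε]
  have e1 := (ENNReal.tendsto_nhds_zero.1 h1) (ε / 2) (pos_iff_ne_zero.2 hε2)
  have e2 := (ENNReal.tendsto_nhds_zero.1 h2) (ε / 2) (pos_iff_ne_zero.2 hε2)
  obtain ⟨j, hj1, hj2⟩ := (e1.and e2).exists
  obtain ⟨φ, h3, h4, h5⟩ := hr j (ε / 2) hε2
  have hmw : Measurable (wt : E n → ℝ) := continuous_wt.measurable
  refine ⟨φ, h3, ?_, ?_⟩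
  · have e : (fun x => lap φ x - g x) = (fun x => lap φ x - g' j x) + (fun x => g' j x - g x) := by
      funext x; simp
    rw [e]
    refine (eLpNorm_add_le ?_ ?_ (by norm_num)).trans ?_
    · exact ((measurable_lap φ).sub (hg' j)).aestronglyMeasurable
    · exact ((hg' j).sub hg).aestronglyMeasurable
    · calc _ ≤ ε / 2 + ε / 2 := add_le_add h4 hj1
        _ = ε := ENNReal.add_halves ε
  · have e : (fun x => wt x * (φ x - u x))
        = (fun x => wt x * (φ x - u' j x)) + (fun x => wt x * (u' j x - u x)) := by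
      funext x; simp; ring
    rw [e]
    refine (eLpNorm_add_le ?_ ?_ (by norm_num)).trans ?_
    · exact (hmw.mul (h3.continuous.measurable.sub (hu' j))).aestronglyMeasurable
    · exact (hmw.mul ((hu' j).sub hu)).aestronglyMeasurable
    · calc _ ≤ ε / 2 + ε / 2 := add_le_add h5 hj2
        _ = ε := ENNReal.add_halves ε

/-- The general cutoff lemma. -/
theorem cut_conv {u : E n → ℝ} {ζ : ℕ → E n → ℝ} {G : E n → ℝ}
    (hum : Measurable u) (hsm : ∀ᵐ x, ContDiffAt ℝ 2 u x)
    (hlap : MemLp (lap u) 2 volume) (hwt : MemLp (fun x => wt x * u x) 2 volume)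
    (hζ : ∀ j, ContDiff ℝ (⊤ : ℕ∞) (ζ j)) (hζ0 : ∀ j x, 0 ≤ ζ j x) (hζ1 : ∀ j x, ζ j x ≤ 1)
    (hG : Integrable G)
    (hb : ∀ j, ∀ᵐ x, (2 * gam (ζ j) u x + u x * lap (ζ j) x) ^ 2 ≤ G x)
    (hev : ∀ᵐ x, ∀ᶠ j in atTop, ζ j =ᶠ[𝓝 x] fun _ => 1) :
    Tendsto (fun j => eLpNorm (fun x => lap (fun y => ζ j y * u y) x - lap u x) 2 volume)
      atTop (𝓝 0) ∧
    Tendsto (fun j => eLpNorm (fun x => wt x * (ζ j x * u x - u x)) 2 volume) atTop (𝓝 0) ∧
    ∀ j, MemLp (lap (fun y => ζ j y * u y)) 2 volume := by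
  have hform : ∀ j, ∀ᵐ x, lap (fun y => ζ j y * u y) x - lap u x
      = (ζ j x - 1) * lap u x + (2 * gam (ζ j) u x + u x * lap (ζ j) x) := by
    intro j
    filter_upwards [hsm] with x hx
    rw [lap_mul (contDiff_infty.1 (hζ j) 2).contDiffAt hx]
    ring
  have hlapsq : Integrable (fun x => lap u x ^ 2) := hlap.integrable_sq
  have hwtsq : Integrable (fun x => (wt x * u x) ^ 2) := hwt.integrable_sq
  have hmz : ∀ j, Measurable (ζ j) := fun j => (hζ j).continuous.measurable
  have hbound : ∀ j, ∀ᵐ x, (lap (fun y => ζ j y * u y) x - lap u x) ^ 2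
      ≤ 2 * lap u x ^ 2 + 2 * G x := by
    intro j
    filter_upwards [hform j, hb j] with x h1 h2
    rw [h1]
    have h3 : ((ζ j x - 1) * lap u x) ^ 2 ≤ lap u x ^ 2 := by
      rw [mul_pow]
      have : (ζ j x - 1) ^ 2 ≤ 1 := by
        have a1 := hζ0 j x
        have a2 := hζ1 j x
        nlinarith
      nlinarith [sq_nonneg (lap u x)]
    nlinarith [sq_nonneg ((ζ j x - 1) * lap u x - (2 * gam (ζ j) u x + u x * lap (ζ j) x))]
  have hGint : Integrable (fun x => 2 * lap u x ^ 2 + 2 * G x) :=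
    (hlapsq.const_mul 2).add (hG.const_mul 2)
  refine ⟨?_, ?_, ?_⟩
  · apply tendsto_eLpNorm_two (G := fun x => 2 * lap u x ^ 2 + 2 * G x)
    · intro j
      exact ((measurable_lap _).sub (measurable_lap _)).aestronglyMeasurable
    · exact hGint
    · exact hbound
    · filter_upwards [hev] with x hx
      apply tendsto_const_nhds.congr'
      filter_upwards [hx] with j hj
      have h1 : (fun y => ζ j y * u y) =ᶠ[𝓝 x] u := by
        filter_upwards [hj] with y hy
        rw [hy, one_mul]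
      rw [lap_congr h1, sub_self]
  · apply tendsto_eLpNorm_two (G := fun x => (wt x * u x) ^ 2)
    · intro j
      exact (continuous_wt.measurable.mul (((hmz j).mul hum).sub hum)).aestronglyMeasurable
    · exact hwtsq
    · intro j
      refine Eventually.of_forall fun x => ?_
      have a1 := hζ0 j x
      have a2 := hζ1 j x
      have e : wt x * (ζ j x * u x - u x) = (ζ j x - 1) * (wt x * u x) := by ring
      rw [e, mul_pow]
      have : (ζ j x - 1) ^ 2 ≤ 1 := by nlinarith
      nlinarith [sq_nonneg (wt x * u x)]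
    · filter_upwards [hev] with x hx
      apply tendsto_const_nhds.congr'
      filter_upwards [hx] with j hj
      rw [hj.self_of_nhds]
      ring
  · intro j
    have hm : MemLp (fun x => lap (fun y => ζ j y * u y) x - lap u x) 2 volume :=
      memLp_two_of_sq_le ((measurable_lap _).sub (measurable_lap _)).aestronglyMeasurable hGint
        (hbound j)
    have := hm.add hlap
    refine this.ae_eq ?_
    refine Eventually.of_forall fun x => ?_
    simp

end Pool.Agent.Lib.MP_7045fd_an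
end

section

set_option autoImplicit false

namespace Pool.Agent.Lib.MP_7045fd_an

open MeasureTheory Filter Topology Metric
open scoped ENNReal

variable {n : ℕ}

/-- The complement of the spheres in the list `l`. -/
def offS (i0 i1 : Fin n) (l : List (E n × ℝ)) : Set (E n) :=
  {x | ∀ s ∈ l, 0 < Pf i0 i1 s.1 s.2 x}

theorem ae_offS (i0 i1 : Fin n) (h01 : i0 ≠ i1) (hn : 4 ≤ n) (l : List (E n × ℝ))
    (hl : ∀ s ∈ l, 0 < s.2) : ∀ᵐ x : E n, x ∈ offS i0 i1 l := by
  induction l with
  | nil => exact Eventually.of_forall fun x s hs => by simp at hs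
  | cons s l ih =>
    have h1 : ∀ᵐ x : E n, Pf i0 i1 s.1 s.2 x ≠ 0 := by
      have := volume_zero_Pf i0 i1 s.1 s.2 h01 hn (hl s (by simp))
      rw [ae_iff]
      simpa using this
    filter_upwards [h1, ih fun t ht => hl t (by simp [ht])] with x hx1 hx2
    intro t ht
    rcases List.mem_cons.1 ht with rfl | ht
    · exact lt_of_le_of_ne (Pf_nonneg _ _ _ _ _) (Ne.symm hx1)
    · exact hx2 t ht

theorem isOpen_offS (i0 i1 : Fin n) (l : List (E n × ℝ)) : IsOpen (offS i0 i1 l) := by
  induction l with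
  | nil =>
    have : offS i0 i1 ([] : List (E n × ℝ)) = Set.univ := by
      ext x; simp [offS]
    rw [this]; exact isOpen_univ
  | cons s l ih =>
    have : offS i0 i1 (s :: l) = {x | 0 < Pf i0 i1 s.1 s.2 x} ∩ offS i0 i1 l := by
      ext x; simp [offS]
    rw [this]
    exact (isOpen_lt continuous_const (continuous_Pf _ _ _ _)).inter ih

theorem gam_mul_self_le {f g : E n → ℝ} {x : E n} (hf : DifferentiableAt ℝ f x)
    (hg : DifferentiableAt ℝ g x) :
    gam (fun y => f y * g y) (fun y => f y * g y) x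
      ≤ 2 * f x ^ 2 * gam g g x + 2 * g x ^ 2 * gam f f x := by
  have e : gam (fun y => f y * g y) (fun y => f y * g y) x
      = f x ^ 2 * gam g g x + 2 * (f x * g x) * gam f g x + g x ^ 2 * gam f f x := by
    rw [gam_mul_right hf hg, gam_comm, gam_mul_right hf hg, gam_comm (f := fun y => f y * g y),
      gam_mul_right hf hg, gam_comm (f := g) (g := f)]
    ring
  rw [e]
  have h2 : 2 * (f x * g x) * gam f g x ≤ f x ^ 2 * gam g g x + g x ^ 2 * gam f f x := by
    have h3 : 0 ≤ gam (fun y => f x * g y - g x * f y) (fun y => f x * g y - g x * f y) x :=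
      gam_self_nonneg
    have d1 : DifferentiableAt ℝ (fun y => f x * g y) x := hg.const_mul _
    have d2 : DifferentiableAt ℝ (fun y => g x * f y) x := hf.const_mul _
    have e3 : gam (fun y => f x * g y - g x * f y) (fun y => f x * g y - g x * f y) x
        = f x ^ 2 * gam g g x - 2 * (f x * g x) * gam f g x + g x ^ 2 * gam f f x := by
      rw [gam_sub_right d1 d2, gam_const_mul_right _ hg, gam_const_mul_right _ hf, gam_comm,
        gam_sub_right d1 d2, gam_const_mul_right _ hg, gam_const_mul_right _ hf,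
        gam_comm (f := fun y => f x * g y - g x * f y),
        gam_sub_right d1 d2, gam_const_mul_right _ hg, gam_const_mul_right _ hf,
        gam_comm (f := g) (g := f)]
      ring
    linarith
  linarith

theorem sq_bound {A B C gζ gu gζu u lz : ℝ} (h1 : gζu ^ 2 ≤ gζ * gu) (h2 : 0 ≤ gζ) (h2' : 0 ≤ gu)
    (h3 : gζ ≤ A) (h4 : gu ≤ B) (h5 : u ^ 2 * lz ^ 2 ≤ C) :
    (2 * gζu + u * lz) ^ 2 ≤ 8 * A * B + 2 * C := by
  have h6 : gζ * gu ≤ A * B := mul_le_mul h3 h4 h2' (h2.trans h3)
  nlinarith [sq_nonneg (2 * gζu - u * lz)]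

/-- Functions of the class used in the removal of singularities. -/
theorem rep_of_class (i0 i1 : Fin n) (h01 : i0 ≠ i1) (hn : 4 ≤ n) (l : List (E n × ℝ)) :
    ∀ (U : Set (E n)) (u : E n → ℝ), (∀ s ∈ l, 0 < s.2) → Continuous u → HasCompactSupport u →
      (∀ x ∈ offS i0 i1 l, ContDiffAt ℝ (⊤ : ℕ∞) u x) →
      (∀ s ∈ l, ∃ C, ∀ x, u x ^ 2 ≤ C * Pf i0 i1 s.1 s.2 x) →
      (∃ C, ∀ x ∈ offS i0 i1 l, gam u u x ≤ C) →
      MemLp (lap u) 2 volume → tsupport u ⊆ U →
      Rep (U ∩ offS i0 i1 l) u (lap u) := by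
  induction l with
  | nil =>
    intro U u _ hcu hcs hsm _ _ _ hU
    have h : IsTest (U ∩ offS i0 i1 []) u := by
      refine ⟨?_, hcs, ?_⟩
      · rw [contDiff_iff_contDiffAt]
        intro x
        exact hsm x (by intro s hs; simp at hs)
      · intro x hx
        exact ⟨hU hx, by intro s hs; simp at hs⟩
    exact h.rep
  | cons s l ih =>
    intro U u hl hcu hcs hsm hbd hgr hlap hU
    obtain ⟨M, hM1, hM, hM'⟩ := exists_bound_sT
    have hs : 0 < s.2 := hl s (by simp)
    have hl' : ∀ t ∈ l, 0 < t.2 := fun t ht => hl t (by simp [ht])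
    set P := Pf i0 i1 s.1 s.2 with hP
    have hPc : Continuous P := continuous_Pf i0 i1 s.1 s.2
    have hPs : ContDiff ℝ (⊤ : ℕ∞) P := contDiff_Pf i0 i1 s.1 s.2
    have hP0 : ∀ x, 0 ≤ P x := Pf_nonneg i0 i1 s.1 s.2
    obtain ⟨Cb, hCb⟩ := hbd s (by simp)
    obtain ⟨Cg, hCg⟩ := hgr
    have hCg0 : 0 ≤ |Cg| := abs_nonneg _
    have hCb0 : 0 ≤ |Cb| := abs_nonneg _
    -- the support is contained in a ball
    obtain ⟨L, hL⟩ : ∃ L, tsupport u ⊆ ball (0 : E n) L :=
      (hcs.isBounded).subset_ball 0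
    -- bounds for the polynomial on the support
    obtain ⟨K, hK0, hK1, hK2⟩ : ∃ K : ℝ, 0 ≤ K ∧ (∀ x ∈ tsupport u, 16 * Nf s.1 x ≤ K) ∧
        (∀ x ∈ tsupport u, |lap P x| ≤ K) := by
      obtain ⟨K1, hK1⟩ := hcs.exists_bound_of_continuousOn
        (f := fun x => 16 * Nf s.1 x) (continuous_const.mul (continuous_Nf s.1)).continuousOn
      obtain ⟨K2, hK2⟩ := hcs.exists_bound_of_continuousOn
        (f := lap P) (contDiff_lap_top hPs).continuous.continuousOn
      refine ⟨max 0 (max K1 K2), le_max_left _ _, fun x hx => ?_, fun x hx => ?_⟩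
      · exact (le_abs_self _).trans ((hK1 x hx).trans ((le_max_left _ _).trans (le_max_right _ _)))
      · exact (hK2 x hx).trans ((le_max_right _ _).trans (le_max_right _ _))
    -- the cutoffs
    set ζ : ℕ → E n → ℝ := fun j => cut (j : ℝ) P with hζ
    have hζs : ∀ j, ContDiff ℝ (⊤ : ℕ∞) (ζ j) := fun j => contDiff_cut hPs
    have hζ0 : ∀ j x, 0 ≤ ζ j x := fun j x => cut_nonneg
    have hζ1 : ∀ j x, ζ j x ≤ 1 := fun j x => cut_le_one
    have hae := ae_offS i0 i1 h01 hn (s :: l) hl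
    set D : ℝ := 8 * (4 * M ^ 2 * K) * |Cg| + 2 * (|Cb| * (6 * M * K) ^ 2) with hD
    set G : E n → ℝ := (ball (0 : E n) L).indicator (fun x => D * (1 / P x)) with hG
    have hGint : Integrable G := by
      rw [hG, integrable_indicator_iff measurableSet_ball]
      exact (integrableOn_inv_Pf i0 i1 s.1 s.2 h01 hn hs L).const_mul D
    have hbound : ∀ j, ∀ x ∈ offS i0 i1 (s :: l),
        (2 * gam (ζ j) u x + u x * lap (ζ j) x) ^ 2 ≤ G x := by
      intro j x hx
      have hPx : 0 < P x := hx s (by simp)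
      by_cases hxs : x ∈ tsupport u
      · have hxb : x ∈ ball (0 : E n) L := hL hxs
        have hg : gam P P x ≤ K * P x := by
          rw [hP, gam_PP i0 i1 s.1 s.2 x h01]
          exact mul_le_mul_of_nonneg_right (hK1 x hxs) hPx.le
        obtain ⟨b1, b2⟩ := cut_bounds (c := (j : ℝ)) hM1 hM hM' (Nat.cast_nonneg j) hK0
          (contDiff_infty.1 hPs 2).contDiffAt hPx hg (hK2 x hxs)
        have hgu : gam u u x ≤ |Cg| := (hCg x hx).trans (le_abs_self _)
        have hu2 : u x ^ 2 * lap (ζ j) x ^ 2 ≤ |Cb| * (6 * M * K) ^ 2 / P x := by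
          have hl2 : lap (ζ j) x ^ 2 ≤ (6 * M * K / P x) ^ 2 := by
            rw [← sq_abs]
            exact pow_le_pow_left₀ (abs_nonneg _) b2 2
          have hu3 : u x ^ 2 ≤ |Cb| * P x :=
            (hCb x).trans (mul_le_mul_of_nonneg_right (le_abs_self _) hPx.le)
          calc u x ^ 2 * lap (ζ j) x ^ 2 ≤ (|Cb| * P x) * (6 * M * K / P x) ^ 2 := by
                apply mul_le_mul hu3 hl2 (sq_nonneg _) (by positivity)
            _ = |Cb| * (6 * M * K) ^ 2 / P x := by field_simp
        have h := sq_bound (gam_sq_le (f := ζ j) (g := u) (x := x)) gam_self_nonneg gam_self_nonneg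
          b1 hgu hu2
        rw [hG, Set.indicator_of_mem hxb, hD]
        calc _ ≤ _ := h
          _ = _ := by ring
      · have h1 : u =ᶠ[𝓝 x] fun _ => 0 := notMem_tsupport_iff_eventuallyEq.1 hxs
        rw [gam_congr (EventuallyEq.refl _ _) h1, gam_const_right, h1.self_of_nhds]
        have : 0 ≤ G x := by
          rw [hG]
          apply Set.indicator_nonneg
          intro y _
          have := hP0 y
          positivity
        simpa using this
    have hwt : MemLp (fun x => wt x * u x) 2 volume :=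
      (continuous_wt.mul hcu).memLp_of_hasCompactSupport hcs.mul_left
    have hconv := cut_conv (u := u) (ζ := ζ) (G := G) hcu.measurable
      (by filter_upwards [hae] with x hx using (contDiffAt_infty.1 (hsm x hx) 2)) hlap hwt hζs hζ0 hζ1
      hGint (fun j => by filter_upwards [hae] with x hx using hbound j x hx)
      (by
        filter_upwards [hae] with x hx
        have hPx : 0 < P x := hx s (by simp)
        have ht : Tendsto (fun j : ℕ => (j : ℝ) * P x) atTop atTop :=
          tendsto_natCast_atTop_atTop.atTop_mul_const hPx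
        filter_upwards [ht.eventually_gt_atTop 2] with j hj
        exact cut_eventually_one hPc.continuousAt hj)
    obtain ⟨hc1, hc2, hc3⟩ := hconv
    -- apply the closure property
    apply Rep.closure (u' := fun j x => ζ j x * u x) (g' := fun j => lap (fun y => ζ j y * u y))
      hcu.measurable (measurable_lap _)
      (fun j => ((hζs j).continuous.mul hcu).measurable) (fun j => measurable_lap _) _ hc1 hc2
    intro j
    have hcont : Continuous fun x => ζ j x * u x := (hζs j).continuous.mul hcu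
    have hcsj : HasCompactSupport fun x => ζ j x * u x := hcs.mul_left
    have hset : (U ∩ {x | 0 < P x}) ∩ offS i0 i1 l = U ∩ offS i0 i1 (s :: l) := by
      ext x
      simp only [offS, Set.mem_inter_iff, Set.mem_ofPred_eq, List.mem_cons, forall_eq_or_imp]
      tauto
    rw [← hset]
    apply ih (U ∩ {x | 0 < P x}) (fun x => ζ j x * u x) hl' hcont hcsj
    · -- smoothness
      intro x hx
      rcases (hP0 x).eq_or_lt with h0 | h0
      · have h1 : ζ j =ᶠ[𝓝 x] fun _ => 0 := by
          apply cut_eventually_zero hPc.continuousAt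
          rw [← h0]; simp
        have h2 : (fun y => ζ j y * u y) =ᶠ[𝓝 x] fun _ => 0 := by
          filter_upwards [h1] with y hy
          rw [hy, zero_mul]
        exact contDiffAt_const.congr_of_eventuallyEq h2
      · apply (hζs j).contDiffAt.mul
        apply hsm
        intro t ht
        rcases List.mem_cons.1 ht with rfl | ht
        · exact h0
        · exact hx t ht
    · -- pointwise bound
      intro t ht
      obtain ⟨C, hC⟩ := hbd t (by simp [ht])
      refine ⟨C, fun x => ?_⟩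
      refine le_trans ?_ (hC x)
      rw [mul_pow]
      have a1 := hζ0 j x
      have a2 := hζ1 j x
      have : ζ j x ^ 2 ≤ 1 := by nlinarith
      nlinarith [sq_nonneg (u x)]
    · -- gradient bound
      obtain ⟨B1, hB1⟩ := hcs.exists_bound_of_continuousOn (f := u) hcu.continuousOn
      have hgc : Continuous (gam (ζ j) (ζ j)) := by
        unfold gam
        exact continuous_finsetSum _ fun i _ =>
          (contDiff_pd_top (hζs j)).continuous.mul (contDiff_pd_top (hζs j)).continuous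
      obtain ⟨B2, hB2⟩ := hcs.exists_bound_of_continuousOn (f := gam (ζ j) (ζ j)) hgc.continuousOn
      refine ⟨2 * |Cg| + 2 * B1 ^ 2 * |B2|, fun x hx => ?_⟩
      have hnn : 0 ≤ 2 * |Cg| + 2 * B1 ^ 2 * |B2| := by positivity
      by_cases hxs : x ∈ tsupport u
      · rcases (hP0 x).eq_or_lt with h0 | h0
        · have h1 : ζ j =ᶠ[𝓝 x] fun _ => 0 := by
            apply cut_eventually_zero hPc.continuousAt
            rw [← h0]; simp
          have h2 : (fun y => ζ j y * u y) =ᶠ[𝓝 x] fun _ => 0 := by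
            filter_upwards [h1] with y hy
            rw [hy, zero_mul]
          rw [gam_congr (EventuallyEq.refl _ _) h2, gam_const_right]
          exact hnn
        · have hx' : x ∈ offS i0 i1 (s :: l) := by
            intro t ht
            rcases List.mem_cons.1 ht with rfl | ht
            · exact h0
            · exact hx t ht
          have hd1 : DifferentiableAt ℝ (ζ j) x :=
            ((hζs j).differentiable (by simp)).differentiableAt
          have hd2 : DifferentiableAt ℝ u x := (hsm x hx').differentiableAt (by simp)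
          refine (gam_mul_self_le hd1 hd2).trans ?_
          have a1 := hζ0 j x
          have a2 := hζ1 j x
          have b1 : ζ j x ^ 2 ≤ 1 := by nlinarith
          have b2 : gam u u x ≤ |Cg| := (hCg x hx').trans (le_abs_self _)
          have b3 : u x ^ 2 ≤ B1 ^ 2 := by
            rw [← sq_abs]
            exact pow_le_pow_left₀ (abs_nonneg _) (hB1 x hxs) 2
          have b4 : gam (ζ j) (ζ j) x ≤ |B2| :=
            (le_abs_self _).trans ((hB2 x hxs).trans (le_abs_self _))
          have c1 : ζ j x ^ 2 * gam u u x ≤ 1 * |Cg| :=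
            mul_le_mul b1 b2 gam_self_nonneg (by norm_num)
          have c2 : u x ^ 2 * gam (ζ j) (ζ j) x ≤ B1 ^ 2 * |B2| :=
            mul_le_mul b3 b4 gam_self_nonneg (by positivity)
          nlinarith
      · have h1 : u =ᶠ[𝓝 x] fun _ => 0 := notMem_tsupport_iff_eventuallyEq.1 hxs
        have h2 : (fun y => ζ j y * u y) =ᶠ[𝓝 x] fun _ => 0 := by
          filter_upwards [h1] with y hy
          rw [hy, mul_zero]
        rw [gam_congr (EventuallyEq.refl _ _) h2, gam_const_right]
        exact hnn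
    · exact hc3 j
    · -- support
      intro x hx
      refine ⟨hU (closure_mono (Function.support_mul_subset_right _ _) hx), ?_⟩
      have h1 : x ∈ tsupport (ζ j) := closure_mono (Function.support_mul_subset_left _ _) hx
      have hcl : IsClosed {x : E n | 1 ≤ (j : ℝ) * P x} :=
        isClosed_le continuous_const (continuous_const.mul hPc)
      have h2 : x ∈ {x : E n | 1 ≤ (j : ℝ) * P x} := by
        apply closure_minimal _ hcl h1
        intro y hy
        by_contra hcon
        apply hy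
        apply cut_eq_zero
        have : ¬ 1 ≤ (j : ℝ) * P y := hcon
        linarith [not_le.1 this]
      have h3 : 1 ≤ (j : ℝ) * P x := h2
      show 0 < P x
      by_contra hcon
      have : P x = 0 := le_antisymm (not_lt.1 hcon) (hP0 x)
      rw [this] at h3
      norm_num at h3

end Pool.Agent.Lib.MP_7045fd_an
end

section

set_option autoImplicit false

namespace Pool.Agent.Lib.MP_7045fd_an

open MeasureTheory Filter Topology Metric
open scoped ENNReal

variable {n : ℕ}

theorem integrable_wt_pow (k : ℕ) (hk : 1 ≤ k) (hn : n = 2 * k + 4) :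
    Integrable (fun x : E n => wt x ^ (2 * k + 2)) := by
  have h := integrable_rpow_neg_one_add_norm_sq (E := E n) (μ := volume) (r := 4 * k + 4)
    (by
      simp only [finrank_euclideanSpace, Fintype.card_fin]
      rw [hn]
      push_cast
      have : (1 : ℝ) ≤ k := by exact_mod_cast hk
      linarith)
  refine h.congr (Eventually.of_forall fun x => ?_)
  simp only [wt]
  have e : (-(4 * (k : ℝ) + 4) / 2) = -((2 * k + 2 : ℕ) : ℝ) := by push_cast; ring
  rw [e, Real.rpow_neg (by positivity), Real.rpow_natCast, inv_pow]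

theorem Nf_zero (x : E n) : Nf 0 x = ‖x‖ ^ 2 := by
  rw [Nf_eq]; simp

/-- Functions vanishing on the spheres, with decay at infinity. -/
theorem rep_main (i0 i1 : Fin n) (h01 : i0 ≠ i1) (k : ℕ) (hk : 1 ≤ k) (hn : n = 2 * k + 4)
    (l : List (E n × ℝ)) (hl : ∀ s ∈ l, 0 < s.2) (u : E n → ℝ) (hcu : Continuous u)
    (hsm : ∀ x ∈ offS i0 i1 l, ContDiffAt ℝ (⊤ : ℕ∞) u x)
    (hbd : ∀ s ∈ l, ∀ L : ℝ, ∃ C, ∀ x ∈ ball (0 : E n) L, u x ^ 2 ≤ C * Pf i0 i1 s.1 s.2 x)
    (hgr : ∃ C, ∀ x ∈ offS i0 i1 l, gam u u x ≤ C * wt x ^ (2 * k + 1))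
    (hdec : ∃ C, ∀ x, u x ^ 2 ≤ C * wt x ^ (2 * k))
    (hlap : MemLp (lap u) 2 volume) :
    Rep (offS i0 i1 l) u (lap u) := by
  have hn4 : 4 ≤ n := by omega
  obtain ⟨M, hM1, hM, hM'⟩ := exists_bound_sT
  obtain ⟨Cg, hCg⟩ := hgr
  obtain ⟨Cd, hCd⟩ := hdec
  set Q : E n → ℝ := Nf 0 with hQ
  have hQs : ContDiff ℝ (⊤ : ℕ∞) Q := contDiff_Nf 0
  have hQc : Continuous Q := continuous_Nf 0
  have hQ0 : ∀ x, 0 ≤ Q x := Nf_nonneg 0
  have hQn : ∀ x, Q x = ‖x‖ ^ 2 := Nf_zero
  set χ : ℕ → E n → ℝ := fun j => cut (1 / ((j : ℝ) + 1)) Q with hχ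
  have hχs : ∀ j, ContDiff ℝ (⊤ : ℕ∞) (χ j) := fun j => contDiff_cut hQs
  set ζ : ℕ → E n → ℝ := fun j x => 1 - χ j x with hζ
  have hζs : ∀ j, ContDiff ℝ (⊤ : ℕ∞) (ζ j) := fun j => contDiff_const.sub (hχs j)
  have hζ0 : ∀ j x, 0 ≤ ζ j x := fun j x => sub_nonneg.2 cut_le_one
  have hζ1 : ∀ j x, ζ j x ≤ 1 := fun j x => by
    have : 0 ≤ χ j x := cut_nonneg
    show 1 - χ j x ≤ 1
    linarith
  have hjpos : ∀ j : ℕ, (0:ℝ) < (j : ℝ) + 1 := fun j => by positivity
  have hae := ae_offS i0 i1 h01 hn4 l hl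
  set K : ℝ := 2 * n + 4 with hK
  have hK0 : 0 ≤ K := by positivity
  set D : ℝ := 8 * (8 * M ^ 2 * K) * |Cg| + 2 * (|Cd| * (12 * M * K) ^ 2) with hD
  set G : E n → ℝ := fun x => D * wt x ^ (2 * k + 2) with hG
  have hGint : Integrable G := (integrable_wt_pow k hk hn).const_mul D
  have hloc : ∀ (j : ℕ) (x : E n), Q x < (j : ℝ) + 1 → ζ j =ᶠ[𝓝 x] fun _ => 1 := by
    intro j x hx
    have h1 : χ j =ᶠ[𝓝 x] fun _ => 0 := by
      apply cut_eventually_zero hQc.continuousAt
      rw [one_div, inv_mul_lt_iff₀ (hjpos j)]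
      simpa using hx
    filter_upwards [h1] with y hy
    show 1 - χ j y = 1
    rw [hy]; ring
  have hbound : ∀ j, ∀ x ∈ offS i0 i1 l,
      (2 * gam (ζ j) u x + u x * lap (ζ j) x) ^ 2 ≤ G x := by
    intro j x hx
    have hwp := wt_pos x
    by_cases hxq : Q x < j + 1
    · have h1 := hloc j x hxq
      rw [lap_congr h1, lap_const, gam_comm, gam_congr (EventuallyEq.refl _ _) h1, gam_const_right]
      have : 0 ≤ G x := by rw [hG]; positivity
      simpa using this
    · push Not at hxq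
      have hQ1 : 1 ≤ Q x := by
        have : (0:ℝ) ≤ j := Nat.cast_nonneg j
        linarith
      have hQpos : 0 < Q x := by linarith
      have hg : gam Q Q x ≤ K * Q x := by
        rw [hQ, gam_NN]
        apply mul_le_mul_of_nonneg_right _ hQpos.le
        rw [hK]
        have : (0:ℝ) ≤ n := Nat.cast_nonneg n
        linarith
      have hlq : |lap Q x| ≤ K := by
        rw [hQ, lap_N, abs_of_nonneg (by positivity), hK]
        linarith
      obtain ⟨b1, b2⟩ := cut_bounds (c := 1 / ((j : ℝ) + 1)) hM1 hM hM' (by positivity) hK0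
        (contDiff_infty.1 hQs 2).contDiffAt hQpos hg hlq
      have hw : 1 / Q x ≤ 2 * wt x := by
        unfold wt
        rw [← hQn x, div_le_iff₀ hQpos, mul_assoc, inv_mul_eq_div, ← mul_div_assoc,
          le_div_iff₀ (by linarith)]
        linarith
      have hχd : DifferentiableAt ℝ (χ j) x := ((hχs j).differentiable (by simp)).differentiableAt
      have hχ2 : ContDiffAt ℝ 2 (χ j) x := (contDiff_infty.1 (hχs j) 2).contDiffAt
      have e1 : gam (ζ j) (ζ j) x = gam (χ j) (χ j) x := by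
        show gam (fun y => 1 - χ j y) (fun y => 1 - χ j y) x = _
        rw [gam_sub_right (differentiableAt_const _) hχd, gam_const_right, gam_comm,
          gam_sub_right (differentiableAt_const _) hχd, gam_const_right]
        ring
      have e2 : lap (ζ j) x = - lap (χ j) x := by
        show lap (fun y => 1 - χ j y) x = _
        rw [lap_sub contDiffAt_const hχ2, lap_const]
        ring
      have b1' : gam (ζ j) (ζ j) x ≤ 8 * M ^ 2 * K * wt x := by
        rw [e1]
        calc _ ≤ 4 * M ^ 2 * K / Q x := b1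
          _ = 4 * M ^ 2 * K * (1 / Q x) := by ring
          _ ≤ 4 * M ^ 2 * K * (2 * wt x) := mul_le_mul_of_nonneg_left hw (by positivity)
          _ = _ := by ring
      have b2' : |lap (ζ j) x| ≤ 12 * M * K * wt x := by
        rw [e2, abs_neg]
        calc _ ≤ 6 * M * K / Q x := b2
          _ = 6 * M * K * (1 / Q x) := by ring
          _ ≤ 6 * M * K * (2 * wt x) := mul_le_mul_of_nonneg_left hw (by positivity)
          _ = _ := by ring
      have hgu : gam u u x ≤ |Cg| * wt x ^ (2 * k + 1) :=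
        (hCg x hx).trans (mul_le_mul_of_nonneg_right (le_abs_self _) (by positivity))
      have hu2 : u x ^ 2 * lap (ζ j) x ^ 2 ≤ |Cd| * (12 * M * K) ^ 2 * wt x ^ (2 * k + 2) := by
        have hl2 : lap (ζ j) x ^ 2 ≤ (12 * M * K * wt x) ^ 2 := by
          rw [← sq_abs]
          exact pow_le_pow_left₀ (abs_nonneg _) b2' 2
        have hu3 : u x ^ 2 ≤ |Cd| * wt x ^ (2 * k) :=
          (hCd x).trans (mul_le_mul_of_nonneg_right (le_abs_self _) (by positivity))
        calc u x ^ 2 * lap (ζ j) x ^ 2 ≤ (|Cd| * wt x ^ (2 * k)) * (12 * M * K * wt x) ^ 2 := by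
              apply mul_le_mul hu3 hl2 (sq_nonneg _) (by positivity)
          _ = _ := by ring
      have h := sq_bound (gam_sq_le (f := ζ j) (g := u) (x := x)) gam_self_nonneg gam_self_nonneg
        b1' hgu hu2
      rw [hG, hD]
      calc _ ≤ _ := h
        _ = _ := by ring
  have hwt : MemLp (fun x => wt x * u x) 2 volume := by
    apply memLp_two_of_sq_le (G := fun x => |Cd| * wt x ^ (2 * k + 2))
      (continuous_wt.mul hcu).aestronglyMeasurable ((integrable_wt_pow k hk hn).const_mul _)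
    refine Eventually.of_forall fun x => ?_
    have hwp := wt_pos x
    have hu3 : u x ^ 2 ≤ |Cd| * wt x ^ (2 * k) :=
      (hCd x).trans (mul_le_mul_of_nonneg_right (le_abs_self _) (by positivity))
    calc (wt x * u x) ^ 2 = wt x ^ 2 * u x ^ 2 := by ring
      _ ≤ wt x ^ 2 * (|Cd| * wt x ^ (2 * k)) := mul_le_mul_of_nonneg_left hu3 (by positivity)
      _ = _ := by ring
  have hconv := cut_conv (u := u) (ζ := ζ) (G := G) hcu.measurable
    (by filter_upwards [hae] with x hx using (contDiffAt_infty.1 (hsm x hx) 2)) hlap hwt hζs hζ0 hζ1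
    hGint (fun j => by filter_upwards [hae] with x hx using hbound j x hx)
    (by
      refine Eventually.of_forall fun x => ?_
      have ht : Tendsto (fun j : ℕ => (j : ℝ) + 1) atTop atTop :=
        tendsto_natCast_atTop_atTop.atTop_add tendsto_const_nhds
      filter_upwards [ht.eventually_gt_atTop (Q x)] with j hj
      exact hloc j x hj)
  obtain ⟨hc1, hc2, hc3⟩ := hconv
  apply Rep.closure (u' := fun j x => ζ j x * u x) (g' := fun j => lap (fun y => ζ j y * u y))
    hcu.measurable (measurable_lap _)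
    (fun j => ((hζs j).continuous.mul hcu).measurable) (fun j => measurable_lap _) _ hc1 hc2
  intro j
  have hcont : Continuous fun x => ζ j x * u x := (hζs j).continuous.mul hcu
  -- the support is compact
  have hzero : ∀ x, 2 * ((j:ℝ) + 1) ≤ Q x → ζ j x = 0 := by
    intro x hx
    have : χ j x = 1 := by
      apply cut_eq_one
      rw [one_div, le_inv_mul_iff₀ (hjpos j)]
      linarith
    show 1 - χ j x = 0
    rw [this]; ring
  obtain ⟨L, hL0, hL⟩ : ∃ L : ℝ, 0 < L ∧ ∀ x, L ≤ ‖x‖ → ζ j x = 0 := by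
    refine ⟨2 * ((j:ℝ) + 1), by positivity, fun x hx => hzero x ?_⟩
    rw [hQn]
    have h1 : (1:ℝ) ≤ ‖x‖ := by
      have : (0:ℝ) ≤ j := Nat.cast_nonneg j
      linarith
    nlinarith
  have hcsζ : HasCompactSupport (ζ j) := by
    apply HasCompactSupport.of_support_subset_isCompact (isCompact_closedBall (0 : E n) L)
    intro x hx
    rw [mem_closedBall_zero_iff]
    by_contra hcon
    exact hx (hL x (not_le.1 hcon).le)
  have hcsj : HasCompactSupport fun x => ζ j x * u x := hcsζ.mul_right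
  have h := rep_of_class i0 i1 h01 hn4 l Set.univ (fun x => ζ j x * u x) hl hcont hcsj
    (fun x hx => (hζs j).contDiffAt.mul (hsm x hx))
    (by
      intro s hs
      obtain ⟨C, hC⟩ := hbd s hs L
      refine ⟨|C|, fun x => ?_⟩
      have hPx := Pf_nonneg i0 i1 s.1 s.2 x
      by_cases hx : ‖x‖ < L
      · have h1 := hC x (by rwa [mem_ball_zero_iff])
        have a1 := hζ0 j x
        have a2 := hζ1 j x
        have : ζ j x ^ 2 ≤ 1 := by nlinarith
        calc (ζ j x * u x) ^ 2 = ζ j x ^ 2 * u x ^ 2 := by ring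
          _ ≤ 1 * u x ^ 2 := mul_le_mul_of_nonneg_right this (sq_nonneg _)
          _ = u x ^ 2 := one_mul _
          _ ≤ C * Pf i0 i1 s.1 s.2 x := h1
          _ ≤ |C| * Pf i0 i1 s.1 s.2 x := mul_le_mul_of_nonneg_right (le_abs_self _) hPx
      · rw [hL x (not_lt.1 hx)]
        have : 0 ≤ |C| * Pf i0 i1 s.1 s.2 x := by positivity
        simpa using this)
    (by
      obtain ⟨B1, hB1⟩ := hcsζ.exists_bound_of_continuousOn (f := u) hcu.continuousOn
      have hgc : Continuous (gam (ζ j) (ζ j)) := by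
        unfold gam
        exact continuous_finsetSum _ fun i _ =>
          (contDiff_pd_top (hζs j)).continuous.mul (contDiff_pd_top (hζs j)).continuous
      obtain ⟨B2, hB2⟩ := hcsζ.exists_bound_of_continuousOn (f := gam (ζ j) (ζ j)) hgc.continuousOn
      refine ⟨2 * |Cg| + 2 * B1 ^ 2 * |B2|, fun x hx => ?_⟩
      have hnn : 0 ≤ 2 * |Cg| + 2 * B1 ^ 2 * |B2| := by positivity
      by_cases hxs : x ∈ tsupport (ζ j)
      · have hd1 : DifferentiableAt ℝ (ζ j) x :=
          ((hζs j).differentiable (by simp)).differentiableAt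
        have hd2 : DifferentiableAt ℝ u x := (hsm x hx).differentiableAt (by simp)
        refine (gam_mul_self_le hd1 hd2).trans ?_
        have a1 := hζ0 j x
        have a2 := hζ1 j x
        have b1 : ζ j x ^ 2 ≤ 1 := by nlinarith
        have hwp := wt_pos x
        have hw1 := wt_le_one x
        have b2 : gam u u x ≤ |Cg| := by
          refine (hCg x hx).trans ?_
          have : wt x ^ (2 * k + 1) ≤ 1 := pow_le_one₀ hwp.le hw1
          calc Cg * wt x ^ (2 * k + 1) ≤ |Cg| * wt x ^ (2 * k + 1) :=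
                mul_le_mul_of_nonneg_right (le_abs_self _) (by positivity)
            _ ≤ |Cg| * 1 := mul_le_mul_of_nonneg_left this (abs_nonneg _)
            _ = |Cg| := mul_one _
        have b3 : u x ^ 2 ≤ B1 ^ 2 := by
          rw [← sq_abs]
          exact pow_le_pow_left₀ (abs_nonneg _) (hB1 x hxs) 2
        have b4 : gam (ζ j) (ζ j) x ≤ |B2| :=
          (le_abs_self _).trans ((hB2 x hxs).trans (le_abs_self _))
        have c1 : ζ j x ^ 2 * gam u u x ≤ 1 * |Cg| :=
          mul_le_mul b1 b2 gam_self_nonneg (by norm_num)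
        have c2 : u x ^ 2 * gam (ζ j) (ζ j) x ≤ B1 ^ 2 * |B2| :=
          mul_le_mul b3 b4 gam_self_nonneg (by positivity)
        nlinarith
      · have h1 : ζ j =ᶠ[𝓝 x] fun _ => 0 := notMem_tsupport_iff_eventuallyEq.1 hxs
        have h2 : (fun y => ζ j y * u y) =ᶠ[𝓝 x] fun _ => 0 := by
          filter_upwards [h1] with y hy
          rw [hy, zero_mul]
        rw [gam_congr (EventuallyEq.refl _ _) h2, gam_const_right]
        exact hnn)
    (hc3 j) (Set.subset_univ _)
  rwa [Set.univ_inter] at h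

end Pool.Agent.Lib.MP_7045fd_an
end
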