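import Mathlib

section

set_option autoImplicit false

namespace Pool.Agent.Lib.MP_7045fd_an

open MeasureTheory Filter Topology

/-- Euclidean space of dimension `n`. -/
abbrev E (n : ℕ) := EuclideanSpace ℝ (Fin n)

variable {n : ℕ}

/-- The `i`-th partial derivative. -/
noncomputable def pd (i : Fin n) (f : E n → ℝ) (x : E n) : ℝ :=
  fderiv ℝ f x (EuclideanSpace.single i (1 : ℝ))

/-- The Laplacian. -/
noncomputable def lap (f : E n → ℝ) (x : E n) : ℝ := ∑ i, pd i (pd i f) x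

/-- The dot product of the gradients. -/
noncomputable def gam (f g : E n → ℝ) (x : E n) : ℝ := ∑ i, pd i f x * pd i g x

section rules

variable {f g : E n → ℝ} {x : E n} {i : Fin n}

theorem pd_congr (h : f =ᶠ[𝓝 x] g) : pd i f x = pd i g x := by
  unfold pd
  rw [h.fderiv_eq]

theorem pd_congr' (h : f =ᶠ[𝓝 x] g) : pd i f =ᶠ[𝓝 x] pd i g := by
  filter_upwards [h.eventuallyEq_nhds] with y hy using pd_congr hy

theorem lap_congr (h : f =ᶠ[𝓝 x] g) : lap f x = lap g x := by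
  unfold lap
  exact Finset.sum_congr rfl fun i _ => pd_congr (pd_congr' h)

theorem gam_congr {f' g' : E n → ℝ} (h : f =ᶠ[𝓝 x] f') (h' : g =ᶠ[𝓝 x] g') :
    gam f g x = gam f' g' x := by
  unfold gam
  exact Finset.sum_congr rfl fun i _ => by rw [pd_congr h, pd_congr h']

theorem gam_comm : gam f g x = gam g f x := by
  unfold gam
  exact Finset.sum_congr rfl fun i _ => mul_comm _ _

theorem pd_add (hf : DifferentiableAt ℝ f x) (hg : DifferentiableAt ℝ g x) :
    pd i (fun y => f y + g y) x = pd i f x + pd i g x := by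
  unfold pd
  rw [fderiv_fun_add hf hg]; rfl

theorem pd_sub (hf : DifferentiableAt ℝ f x) (hg : DifferentiableAt ℝ g x) :
    pd i (fun y => f y - g y) x = pd i f x - pd i g x := by
  unfold pd
  rw [fderiv_fun_sub hf hg]; rfl

theorem pd_const (c : ℝ) : pd i (fun _ => c) x = 0 := by
  unfold pd
  simp

theorem pd_const_mul (c : ℝ) (hf : DifferentiableAt ℝ f x) :
    pd i (fun y => c * f y) x = c * pd i f x := by
  unfold pd
  rw [fderiv_const_mul hf]; rfl

theorem pd_mul (hf : DifferentiableAt ℝ f x) (hg : DifferentiableAt ℝ g x) :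
    pd i (fun y => f y * g y) x = f x * pd i g x + g x * pd i f x := by
  unfold pd
  rw [fderiv_fun_mul hf hg]
  simp

theorem pd_comp {F : ℝ → ℝ} (hF : DifferentiableAt ℝ F (f x)) (hf : DifferentiableAt ℝ f x) :
    pd i (fun y => F (f y)) x = deriv F (f x) * pd i f x := by
  unfold pd
  have h := (hF.hasDerivAt.comp_hasFDerivAt x hf.hasFDerivAt).fderiv
  have h2 : (fun y => F (f y)) = F ∘ f := rfl
  rw [h2, h]
  simp

theorem contDiffAt_pd (hf : ContDiffAt ℝ 2 f x) : ContDiffAt ℝ 1 (pd i f) x := by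
  have h : ContDiffAt ℝ 1 (fderiv ℝ f) x := hf.fderiv_right (m := 1) (by norm_num)
  exact h.clm_apply contDiffAt_const

theorem differentiableAt_pd (hf : ContDiffAt ℝ 2 f x) : DifferentiableAt ℝ (pd i f) x :=
  (contDiffAt_pd hf).differentiableAt (by norm_num)

theorem contDiffAt_pd_top (hf : ContDiffAt ℝ (⊤ : ℕ∞) f x) :
    ContDiffAt ℝ (⊤ : ℕ∞) (pd i f) x := by
  have h : ContDiffAt ℝ (⊤ : ℕ∞) (fderiv ℝ f) x := hf.fderiv_right (m := (⊤ : ℕ∞)) (by simp)
  exact h.clm_apply contDiffAt_const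

theorem contDiff_pd_top (hf : ContDiff ℝ (⊤ : ℕ∞) f) : ContDiff ℝ (⊤ : ℕ∞) (pd i f) :=
  contDiff_iff_contDiffAt.2 fun _ => contDiffAt_pd_top hf.contDiffAt

theorem contDiff_lap_top (hf : ContDiff ℝ (⊤ : ℕ∞) f) : ContDiff ℝ (⊤ : ℕ∞) (lap f) :=
  ContDiff.sum fun _ _ => contDiff_pd_top (contDiff_pd_top hf)

theorem ev_contDiffAt (hf : ContDiffAt ℝ 2 f x) : ∀ᶠ y in 𝓝 x, ContDiffAt ℝ 2 f y :=
  hf.eventually (by norm_num)

theorem ev_diff (hf : ContDiffAt ℝ 2 f x) : ∀ᶠ y in 𝓝 x, DifferentiableAt ℝ f y := by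
  filter_upwards [ev_contDiffAt hf] with y hy using hy.differentiableAt (by norm_num)

theorem diff_of (hf : ContDiffAt ℝ 2 f x) : DifferentiableAt ℝ f x :=
  hf.differentiableAt (by norm_num)

theorem lap_add (hf : ContDiffAt ℝ 2 f x) (hg : ContDiffAt ℝ 2 g x) :
    lap (fun y => f y + g y) x = lap f x + lap g x := by
  unfold lap
  rw [← Finset.sum_add_distrib]
  refine Finset.sum_congr rfl fun i _ => ?_
  rw [← pd_add (differentiableAt_pd hf) (differentiableAt_pd hg)]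
  apply pd_congr
  filter_upwards [ev_diff hf, ev_diff hg] with y h1 h2 using pd_add h1 h2

theorem lap_sub (hf : ContDiffAt ℝ 2 f x) (hg : ContDiffAt ℝ 2 g x) :
    lap (fun y => f y - g y) x = lap f x - lap g x := by
  unfold lap
  rw [← Finset.sum_sub_distrib]
  refine Finset.sum_congr rfl fun i _ => ?_
  rw [← pd_sub (differentiableAt_pd hf) (differentiableAt_pd hg)]
  apply pd_congr
  filter_upwards [ev_diff hf, ev_diff hg] with y h1 h2 using pd_sub h1 h2

theorem lap_const_mul (c : ℝ) (hf : ContDiffAt ℝ 2 f x) :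
    lap (fun y => c * f y) x = c * lap f x := by
  unfold lap
  rw [Finset.mul_sum]
  refine Finset.sum_congr rfl fun i _ => ?_
  rw [← pd_const_mul c (differentiableAt_pd hf)]
  apply pd_congr
  filter_upwards [ev_diff hf] with y h1 using pd_const_mul c h1

theorem lap_const (c : ℝ) : lap (fun _ => c) x = 0 := by
  unfold lap
  refine Finset.sum_eq_zero fun i _ => ?_
  have : pd i (fun _ : E n => c) = fun _ => 0 := by
    funext y; exact pd_const c
  rw [this, pd_const]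

theorem lap_mul (hf : ContDiffAt ℝ 2 f x) (hg : ContDiffAt ℝ 2 g x) :
    lap (fun y => f y * g y) x = f x * lap g x + 2 * gam f g x + g x * lap f x := by
  unfold lap gam
  rw [Finset.mul_sum, Finset.mul_sum, Finset.mul_sum, ← Finset.sum_add_distrib,
    ← Finset.sum_add_distrib]
  refine Finset.sum_congr rfl fun i _ => ?_
  have h1 : pd i (fun y => f y * g y) =ᶠ[𝓝 x] fun y => f y * pd i g y + g y * pd i f y := by
    filter_upwards [ev_diff hf, ev_diff hg] with y h1 h2 using pd_mul h1 h2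
  rw [pd_congr h1, pd_add, pd_mul, pd_mul]
  · ring
  · exact diff_of hg
  · exact differentiableAt_pd hf
  · exact diff_of hf
  · exact differentiableAt_pd hg
  · exact (diff_of hf).mul (differentiableAt_pd hg)
  · exact (diff_of hg).mul (differentiableAt_pd hf)

theorem lap_comp {F : ℝ → ℝ} (hF : ContDiffAt ℝ 2 F (f x)) (hf : ContDiffAt ℝ 2 f x) :
    lap (fun y => F (f y)) x = deriv F (f x) * lap f x + deriv (deriv F) (f x) * gam f f x := by
  unfold lap gam
  rw [Finset.mul_sum, Finset.mul_sum, ← Finset.sum_add_distrib]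
  refine Finset.sum_congr rfl fun i _ => ?_
  have hF1 : ∀ᶠ t in 𝓝 (f x), DifferentiableAt ℝ F t := by
    filter_upwards [hF.eventually (by norm_num)] with t ht using ht.differentiableAt (by norm_num)
  have hF2 : DifferentiableAt ℝ (deriv F) (f x) := by
    have h : ContDiffAt ℝ 1 (fderiv ℝ F) (f x) := hF.fderiv_right (m := 1) (by norm_num)
    have h2 : ContDiffAt ℝ 1 (fun t => fderiv ℝ F t 1) (f x) := h.clm_apply contDiffAt_const
    exact h2.differentiableAt (by norm_num)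
  have h1 : pd i (fun y => F (f y)) =ᶠ[𝓝 x] fun y => deriv F (f y) * pd i f y := by
    filter_upwards [(hf.continuousAt).eventually hF1, ev_diff hf] with y h1 h2 using pd_comp h1 h2
  rw [pd_congr h1, pd_mul, pd_comp hF2 (diff_of hf)]
  · ring
  · exact hF2.comp x (diff_of hf)
  · exact differentiableAt_pd hf

theorem gam_mul_right {h : E n → ℝ} (hg : DifferentiableAt ℝ g x) (hh : DifferentiableAt ℝ h x) :
    gam f (fun y => g y * h y) x = g x * gam f h x + h x * gam f g x := by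
  unfold gam
  rw [Finset.mul_sum, Finset.mul_sum, ← Finset.sum_add_distrib]
  refine Finset.sum_congr rfl fun i _ => ?_
  rw [pd_mul hg hh]; ring

theorem gam_add_right {h : E n → ℝ} (hg : DifferentiableAt ℝ g x) (hh : DifferentiableAt ℝ h x) :
    gam f (fun y => g y + h y) x = gam f g x + gam f h x := by
  unfold gam
  rw [← Finset.sum_add_distrib]
  refine Finset.sum_congr rfl fun i _ => ?_
  rw [pd_add hg hh]; ring

theorem gam_sub_right {h : E n → ℝ} (hg : DifferentiableAt ℝ g x) (hh : DifferentiableAt ℝ h x) :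
    gam f (fun y => g y - h y) x = gam f g x - gam f h x := by
  unfold gam
  rw [← Finset.sum_sub_distrib]
  refine Finset.sum_congr rfl fun i _ => ?_
  rw [pd_sub hg hh]; ring

theorem gam_const_mul_right (c : ℝ) (hg : DifferentiableAt ℝ g x) :
    gam f (fun y => c * g y) x = c * gam f g x := by
  unfold gam
  rw [Finset.mul_sum]
  refine Finset.sum_congr rfl fun i _ => ?_
  rw [pd_const_mul c hg]; ring

theorem gam_const_right (c : ℝ) : gam f (fun _ => c) x = 0 := by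
  unfold gam
  refine Finset.sum_eq_zero fun i _ => ?_
  rw [pd_const c]; ring

theorem gam_comp_right {F : ℝ → ℝ} (hF : DifferentiableAt ℝ F (g x)) (hg : DifferentiableAt ℝ g x) :
    gam f (fun y => F (g y)) x = deriv F (g x) * gam f g x := by
  unfold gam
  rw [Finset.mul_sum]
  refine Finset.sum_congr rfl fun i _ => ?_
  rw [pd_comp hF hg]; ring

/-- Cauchy-Schwarz. -/
theorem gam_sq_le : gam f g x ^ 2 ≤ gam f f x * gam g g x := by
  unfold gam
  have h := Finset.sum_mul_sq_le_sq_mul_sq Finset.univ (fun i => pd i f x) (fun i => pd i g x)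
  simpa [sq] using h

theorem gam_self_nonneg : 0 ≤ gam f f x := by
  unfold gam
  exact Finset.sum_nonneg fun i _ => mul_self_nonneg _

end rules

section meas

theorem measurable_pd (i : Fin n) (f : E n → ℝ) : Measurable (pd i f) :=
  measurable_fderiv_apply_const ℝ f _

theorem measurable_lap (f : E n → ℝ) : Measurable (lap f) := by
  unfold lap
  exact Finset.measurable_sum _ fun i _ => measurable_pd i _

theorem measurable_gam (f g : E n → ℝ) : Measurable (gam f g) := by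
  unfold gam
  exact Finset.measurable_sum _ fun i _ => (measurable_pd i _).mul (measurable_pd i _)

end meas

section support

variable {f g : E n → ℝ} {x : E n} {i : Fin n}

theorem pd_eq_zero_of_notMem_tsupport (h : x ∉ tsupport f) : pd i f x = 0 := by
  have : f =ᶠ[𝓝 x] fun _ => 0 := notMem_tsupport_iff_eventuallyEq.1 h
  rw [pd_congr this, pd_const]

theorem tsupport_pd : tsupport (pd i f) ⊆ tsupport f := by
  apply closure_minimal _ (isClosed_tsupport f)
  intro x hx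
  by_contra h
  exact hx (pd_eq_zero_of_notMem_tsupport h)

theorem tsupport_lap : tsupport (lap f) ⊆ tsupport f := by
  apply closure_minimal _ (isClosed_tsupport f)
  intro x hx
  by_contra h
  apply hx
  have h1 : f =ᶠ[𝓝 x] fun _ => 0 := notMem_tsupport_iff_eventuallyEq.1 h
  rw [lap_congr h1, lap_const]

theorem hcs_pd (h : HasCompactSupport f) : HasCompactSupport (pd i f) :=
  h.mono' (subset_tsupport _ |>.trans tsupport_pd)

theorem hcs_lap (h : HasCompactSupport f) : HasCompactSupport (lap f) :=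
  h.mono' (subset_tsupport _ |>.trans tsupport_lap)

end support

section green

/-- A product with a compactly supported factor is continuous with compact support. -/
theorem integrable_mul_of_tsupport {f g : E n → ℝ} (hg : Continuous g) (hgc : HasCompactSupport g)
    (hf : ∀ x ∈ tsupport g, ContinuousAt f x) : Integrable (fun x => f x * g x) := by
  have hc : Continuous (fun x => f x * g x) := by
    rw [continuous_iff_continuousAt]
    intro x
    by_cases hx : x ∈ tsupport g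
    · exact (hf x hx).mul hg.continuousAt
    · have h1 : g =ᶠ[𝓝 x] fun _ => 0 := notMem_tsupport_iff_eventuallyEq.1 hx
      have h2 : (fun y => f y * g y) =ᶠ[𝓝 x] fun _ => 0 := by
        filter_upwards [h1] with y hy
        simp [hy]
      exact continuousAt_const.congr h2.symm
  exact hc.integrable_of_hasCompactSupport hgc.mul_left

theorem green {g ψ : E n → ℝ} (hψ : ContDiff ℝ (⊤ : ℕ∞) ψ) (hc : HasCompactSupport ψ)
    (hg : ∀ x ∈ tsupport ψ, ContDiffAt ℝ 2 g x) :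
    ∫ x, g x * lap ψ x = ∫ x, lap g x * ψ x := by
  have hψ2 : ∀ x, ContDiffAt ℝ 2 ψ x := fun x => (contDiff_infty.1 hψ 2).contDiffAt
  have hpdc : ∀ i, Continuous (pd i ψ) := fun i => (contDiff_pd_top hψ).continuous
  have hpdc2 : ∀ i, Continuous (pd i (pd i ψ)) :=
    fun i => (contDiff_pd_top (contDiff_pd_top hψ)).continuous
  have hgd : ∀ x ∈ tsupport ψ, DifferentiableAt ℝ g x := fun x hx => diff_of (hg x hx)
  have i1 : ∀ i, Integrable (fun x => g x * pd i (pd i ψ) x) := fun i =>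
    integrable_mul_of_tsupport (hpdc2 i) (hcs_pd (hcs_pd hc)) fun x hx =>
      (hgd x (tsupport_pd (tsupport_pd hx))).continuousAt
  have i2 : ∀ i, Integrable (fun x => g x * pd i ψ x) := fun i =>
    integrable_mul_of_tsupport (hpdc i) (hcs_pd hc) fun x hx =>
      (hgd x (tsupport_pd hx)).continuousAt
  have i3 : ∀ i, Integrable (fun x => pd i g x * pd i ψ x) := fun i =>
    integrable_mul_of_tsupport (hpdc i) (hcs_pd hc) fun x hx =>
      (differentiableAt_pd (hg x (tsupport_pd hx))).continuousAt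
  have i4 : ∀ i, Integrable (fun x => pd i g x * ψ x) := fun i =>
    integrable_mul_of_tsupport hψ.continuous hc fun x hx =>
      (differentiableAt_pd (hg x hx)).continuousAt
  have i5 : ∀ i, Integrable (fun x => pd i (pd i g) x * ψ x) := fun i =>
    integrable_mul_of_tsupport hψ.continuous hc fun x hx => by
      have h1 : ContDiffAt ℝ 1 (pd i g) x := contDiffAt_pd (hg x hx)
      have h : ContDiffAt ℝ 0 (fderiv ℝ (pd i g)) x := h1.fderiv_right (m := 0) (by norm_num)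
      have h2 : ContDiffAt ℝ 0 (fun y => fderiv ℝ (pd i g) y (EuclideanSpace.single i (1 : ℝ))) x :=
        h.clm_apply contDiffAt_const
      exact h2.continuousAt
  have key : ∀ i, ∫ x, g x * pd i (pd i ψ) x = ∫ x, pd i (pd i g) x * ψ x := by
    intro i
    have e1 : ∫ x, g x * pd i (pd i ψ) x = - ∫ x, pd i g x * pd i ψ x := by
      apply integral_mul_fderiv_eq_neg_fderiv_mul_of_integrable (f := g) (g := pd i ψ)
        (v := EuclideanSpace.single i (1 : ℝ)) (i3 i) (i1 i) (i2 i)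
      · intro x hx; exact hgd x (tsupport_pd hx)
      · intro x _; exact differentiableAt_pd (hψ2 x)
    have e2 : ∫ x, pd i g x * pd i ψ x = - ∫ x, pd i (pd i g) x * ψ x := by
      apply integral_mul_fderiv_eq_neg_fderiv_mul_of_integrable (f := pd i g) (g := ψ)
        (v := EuclideanSpace.single i (1 : ℝ)) (i5 i) (i3 i) (i4 i)
      · intro x hx; exact differentiableAt_pd (hg x hx)
      · intro x _; exact diff_of (hψ2 x)
    rw [e1, e2, neg_neg]
  unfold lap
  simp_rw [Finset.mul_sum, Finset.sum_mul]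
  rw [integral_finsetSum _ fun i _ => i1 i, integral_finsetSum _ fun i _ => i5 i]
  exact Finset.sum_congr rfl fun i _ => key i

end green

section iter

theorem iter_two_eq {f : E n → ℝ} {x : E n} (hf : ContDiffAt ℝ 2 f x) (i : Fin n) :
    iteratedFDeriv ℝ 2 f x ![EuclideanSpace.single i (1 : ℝ), EuclideanSpace.single i (1 : ℝ)]
      = pd i (pd i f) x := by
  rw [iteratedFDeriv_two_apply]
  have h : ContDiffAt ℝ 1 (fderiv ℝ f) x := hf.fderiv_right (m := 1) (by norm_num)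
  have h2 : DifferentiableAt ℝ (fderiv ℝ f) x := h.differentiableAt (by norm_num)
  unfold pd
  simp only [Matrix.cons_val_zero, Matrix.cons_val_one]
  rw [fderiv_clm_apply h2 (differentiableAt_const _)]
  simp

theorem iter_two_sum {f : E n → ℝ} {x : E n} (hf : ContDiffAt ℝ 2 f x) :
    ∑ i : Fin n, iteratedFDeriv ℝ 2 f x
      ![EuclideanSpace.single i (1 : ℝ), EuclideanSpace.single i (1 : ℝ)] = lap f x := by
  unfold lap
  exact Finset.sum_congr rfl fun i _ => iter_two_eq hf i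

theorem iter_four_eq {f : E n → ℝ} (hf : ContDiff ℝ (⊤ : ℕ∞) f) (x : E n) (u v : E n) :
    iteratedFDeriv ℝ 4 f x ![u, u, v, v]
      = fderiv ℝ (fun y => fderiv ℝ (fun y => fderiv ℝ (fun y => fderiv ℝ f y v) y v) y u) x u := by
  have hc : ∀ {F : Type} [NormedAddCommGroup F] [NormedSpace ℝ F] {g : E n → F},
      ContDiff ℝ (⊤ : ℕ∞) g → ∀ w : E n, ContDiff ℝ (⊤ : ℕ∞) (fun y => fderiv ℝ g y w) := by
    intro F _ _ g hg w
    have h : ContDiff ℝ (⊤ : ℕ∞) (fderiv ℝ g) := hg.fderiv_right (m := (⊤ : ℕ∞)) (by simp)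
    exact h.clm_apply contDiff_const
  have step : ∀ (g : E n → ℝ) (hg : ContDiff ℝ (⊤ : ℕ∞) g) (k : ℕ) (m : Fin (k+1) → E n) (y : E n),
      iteratedFDeriv ℝ (k+1) g y m
        = iteratedFDeriv ℝ k (fun z => fderiv ℝ g z (m (Fin.last k))) y (Fin.init m) := by
    intro g hg k m y
    rw [iteratedFDeriv_succ_apply_right]
    have h : ContDiff ℝ (⊤ : ℕ∞) (fderiv ℝ g) := hg.fderiv_right (m := (⊤ : ℕ∞)) (by simp)
    have h3 := ContinuousLinearMap.iteratedFDeriv_comp_left (x := y)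
      (ContinuousLinearMap.apply ℝ ℝ (m (Fin.last k))) (f := fderiv ℝ g) (i := k)
      (n := (⊤ : ℕ∞)) h.contDiffAt (by exact_mod_cast le_top)
    have h4 : (ContinuousLinearMap.apply ℝ ℝ (m (Fin.last k))) ∘ (fderiv ℝ g)
        = fun z => fderiv ℝ g z (m (Fin.last k)) := by
      funext z; simp
    rw [h4] at h3
    rw [h3]
    simp
  rw [step f hf 3, step _ (hc hf _) 2, step _ (hc (hc hf _) _) 1, step _ (hc (hc (hc hf _) _) _) 0]
  simp only [iteratedFDeriv_zero_apply]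
  rfl

theorem iter_four_sum {f : E n → ℝ} (hf : ContDiff ℝ (⊤ : ℕ∞) f) (x : E n) :
    ∑ i : Fin n, ∑ j : Fin n, iteratedFDeriv ℝ 4 f x
      ![EuclideanSpace.single i (1 : ℝ), EuclideanSpace.single i (1 : ℝ),
        EuclideanSpace.single j (1 : ℝ), EuclideanSpace.single j (1 : ℝ)] = lap (lap f) x := by
  have h1 : ∀ i j : Fin n, iteratedFDeriv ℝ 4 f x
      ![EuclideanSpace.single i (1 : ℝ), EuclideanSpace.single i (1 : ℝ),
        EuclideanSpace.single j (1 : ℝ), EuclideanSpace.single j (1 : ℝ)]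
      = pd i (pd i (pd j (pd j f))) x := fun i j => iter_four_eq hf x _ _
  simp_rw [h1]
  unfold lap
  refine Finset.sum_congr rfl fun i _ => ?_
  have hd : ∀ j, ContDiff ℝ (⊤ : ℕ∞) (pd j (pd j f)) := fun j => contDiff_pd_top (contDiff_pd_top hf)
  have e1 : ∀ (y : E n), pd i (fun x => ∑ j, pd j (pd j f) x) y = ∑ j, pd i (pd j (pd j f)) y := by
    intro y
    unfold pd
    rw [fderiv_fun_sum]
    · simp
    · intro j _
      exact ((hd j).differentiable (by simp)).differentiableAt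
  have e2 : pd i (fun x => ∑ j, pd j (pd j f) x) = fun y => ∑ j, pd i (pd j (pd j f)) y :=
    funext e1
  rw [e2]
  have hd2 : ∀ j, ContDiff ℝ (⊤ : ℕ∞) (pd i (pd j (pd j f))) := fun j => contDiff_pd_top (hd j)
  show ∑ j, pd i (pd i (pd j (pd j f))) x =
    fderiv ℝ (fun y => ∑ j, pd i (pd j (pd j f)) y) x (EuclideanSpace.single i (1 : ℝ))
  rw [fderiv_fun_sum]
  · simp [pd]
  · intro j _
    exact ((hd2 j).differentiable (by simp)).differentiableAt

end iter

end Pool.Agent.Lib.MP_7045fd_an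
end

section

set_option autoImplicit false

namespace Pool.Agent.Lib.MP_7045fd_an

open MeasureTheory Filter Topology

variable {n : ℕ}

theorem contDiff_coord {m : WithTop ℕ∞} (i : Fin n) : ContDiff ℝ m (fun x : E n => x i) :=
  (EuclideanSpace.proj i : E n →L[ℝ] ℝ).contDiff

theorem diff_coord (i : Fin n) (x : E n) : DifferentiableAt ℝ (fun x : E n => x i) x :=
  (EuclideanSpace.proj i : E n →L[ℝ] ℝ).differentiableAt

theorem pd_coord (i j : Fin n) (x : E n) :
    pd i (fun x : E n => x j) x = if j = i then 1 else 0 := by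
  unfold pd
  have h : (fun x : E n => x j) = (EuclideanSpace.proj j : E n →L[ℝ] ℝ) := by
    funext y; simp
  rw [h, ContinuousLinearMap.fderiv]
  simp

/-- Squared distance to the center. -/
noncomputable def Nf (a : E n) (x : E n) : ℝ := ∑ i, (x i - a i) ^ 2

/-- Squared distance in the plane of the coordinates `i0, i1`. -/
noncomputable def Xf (i0 i1 : Fin n) (a : E n) (x : E n) : ℝ := (x i0 - a i0) ^ 2 + (x i1 - a i1) ^ 2

/-- The quartic polynomial whose zero set is the codimension three sphere. -/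
noncomputable def Pf (i0 i1 : Fin n) (a : E n) (ρ : ℝ) (x : E n) : ℝ :=
  (Nf a x - ρ ^ 2) ^ 2 + 4 * ρ ^ 2 * Xf i0 i1 a x

/-- Its square root: the product of the extreme distances to the sphere. -/
noncomputable def Rf (i0 i1 : Fin n) (a : E n) (ρ : ℝ) (x : E n) : ℝ := √(Pf i0 i1 a ρ x)

/-- The square of the mean of the extreme distances to the sphere. -/
noncomputable def Af (i0 i1 : Fin n) (a : E n) (ρ : ℝ) (x : E n) : ℝ :=
  (Nf a x + ρ ^ 2 + Rf i0 i1 a ρ x) / 2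

/-- The potential of the codimension three sphere. -/
noncomputable def ef (i0 i1 : Fin n) (k : ℕ) (a : E n) (ρ : ℝ) (x : E n) : ℝ :=
  (Af i0 i1 a ρ x) ^ (-(k : ℤ))

section basic

variable (i0 i1 : Fin n) (a : E n) (ρ : ℝ) (x : E n)

theorem Nf_eq : Nf a x = ‖x - a‖ ^ 2 := by
  rw [EuclideanSpace.norm_sq_eq]
  simp [Nf]

theorem Nf_nonneg : 0 ≤ Nf a x := by rw [Nf_eq]; positivity

theorem Xf_nonneg : 0 ≤ Xf i0 i1 a x := by unfold Xf; positivity

theorem Pf_nonneg : 0 ≤ Pf i0 i1 a ρ x := by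
  unfold Pf
  have := Xf_nonneg i0 i1 a x
  positivity

theorem Rf_nonneg : 0 ≤ Rf i0 i1 a ρ x := Real.sqrt_nonneg _

theorem Rf_sq : Rf i0 i1 a ρ x ^ 2 = Pf i0 i1 a ρ x := Real.sq_sqrt (Pf_nonneg _ _ _ _ _)

theorem sub_sq_le_Pf : (Nf a x - ρ ^ 2) ^ 2 ≤ Pf i0 i1 a ρ x := by
  unfold Pf
  have := Xf_nonneg i0 i1 a x
  nlinarith [mul_nonneg (sq_nonneg ρ) this]

theorem abs_sub_le_Rf : |Nf a x - ρ ^ 2| ≤ Rf i0 i1 a ρ x := by
  apply Real.abs_le_sqrt
  exact sub_sq_le_Pf i0 i1 a ρ x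

theorem Xf_le_Nf (h : i0 ≠ i1) : Xf i0 i1 a x ≤ Nf a x := by
  unfold Xf Nf
  have h1 : ∑ i ∈ ({i0, i1} : Finset (Fin n)), (x i - a i) ^ 2 ≤ ∑ i, (x i - a i) ^ 2 :=
    Finset.sum_le_sum_of_subset_of_nonneg (Finset.subset_univ _) fun _ _ _ => sq_nonneg _
  rwa [Finset.sum_pair h] at h1

theorem Rf_le (h : i0 ≠ i1) : Rf i0 i1 a ρ x ≤ Nf a x + ρ ^ 2 := by
  apply Real.sqrt_le_iff.2
  constructor
  · have := Nf_nonneg a x
    positivity
  · unfold Pf
    have h1 := Xf_le_Nf i0 i1 a x h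
    nlinarith [mul_le_mul_of_nonneg_left h1 (sq_nonneg ρ)]

theorem sq_le_Af : ρ ^ 2 ≤ Af i0 i1 a ρ x := by
  unfold Af
  have := abs_sub_le_Rf i0 i1 a ρ x
  have h2 := neg_abs_le (Nf a x - ρ ^ 2)
  linarith

theorem half_le_Af : (Nf a x + ρ ^ 2) / 2 ≤ Af i0 i1 a ρ x := by
  unfold Af
  have := Rf_nonneg i0 i1 a ρ x
  linarith

theorem Af_le (h : i0 ≠ i1) : Af i0 i1 a ρ x ≤ Nf a x + ρ ^ 2 := by
  unfold Af
  have := Rf_le i0 i1 a ρ x h
  linarith

theorem Af_pos (hρ : 0 < ρ) : 0 < Af i0 i1 a ρ x :=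
  lt_of_lt_of_le (by positivity) (sq_le_Af i0 i1 a ρ x)

theorem Af_sub_le : Af i0 i1 a ρ x - ρ ^ 2 ≤ Rf i0 i1 a ρ x := by
  unfold Af
  have := abs_sub_le_Rf i0 i1 a ρ x
  have h2 := le_abs_self (Nf a x - ρ ^ 2)
  linarith

theorem ef_pos (k : ℕ) (hρ : 0 < ρ) : 0 < ef i0 i1 k a ρ x :=
  zpow_pos (Af_pos i0 i1 a ρ x hρ) _

theorem contDiff_Nf {m : WithTop ℕ∞} : ContDiff ℝ m (Nf a) := by
  unfold Nf
  exact ContDiff.sum fun i _ => ((contDiff_coord i).sub contDiff_const).pow 2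

theorem contDiff_Xf {m : WithTop ℕ∞} : ContDiff ℝ m (Xf i0 i1 a) := by
  unfold Xf
  exact (((contDiff_coord i0).sub contDiff_const).pow 2).add
    (((contDiff_coord i1).sub contDiff_const).pow 2)

theorem contDiff_Pf {m : WithTop ℕ∞} : ContDiff ℝ m (Pf i0 i1 a ρ) := by
  unfold Pf
  exact (((contDiff_Nf a).sub contDiff_const).pow 2).add
    (contDiff_const.mul (contDiff_Xf i0 i1 a))

theorem continuous_Nf : Continuous (Nf a) := (contDiff_Nf (m := 0) a).continuous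

theorem continuous_Pf : Continuous (Pf i0 i1 a ρ) := (contDiff_Pf (m := 0) i0 i1 a ρ).continuous

theorem continuous_Rf : Continuous (Rf i0 i1 a ρ) :=
  Real.continuous_sqrt.comp (continuous_Pf i0 i1 a ρ)

theorem continuous_Af : Continuous (Af i0 i1 a ρ) := by
  unfold Af
  exact (((continuous_Nf a).add continuous_const).add (continuous_Rf i0 i1 a ρ)).div_const 2

theorem continuous_ef (k : ℕ) (hρ : 0 < ρ) : Continuous (ef i0 i1 k a ρ) := by
  unfold ef
  exact (continuous_Af i0 i1 a ρ).zpow₀ _ fun x => Or.inl (Af_pos i0 i1 a ρ x hρ).ne'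

theorem contDiffAt_Rf {m : WithTop ℕ∞} (hx : 0 < Pf i0 i1 a ρ x) :
    ContDiffAt ℝ m (Rf i0 i1 a ρ) x :=
  (contDiff_Pf i0 i1 a ρ).contDiffAt.sqrt hx.ne'

theorem contDiffAt_Af {m : WithTop ℕ∞} (hx : 0 < Pf i0 i1 a ρ x) :
    ContDiffAt ℝ m (Af i0 i1 a ρ) x := by
  unfold Af
  exact (((contDiff_Nf a).contDiffAt.add contDiffAt_const).add
    (contDiffAt_Rf i0 i1 a ρ x hx)).div_const 2

theorem contDiffAt_zpow {f : E n → ℝ} {x : E n} {m : WithTop ℕ∞} (hf : ContDiffAt ℝ m f x)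
    (h0 : f x ≠ 0) (j : ℤ) : ContDiffAt ℝ m (fun y => f y ^ j) x := by
  obtain ⟨k, rfl | rfl⟩ := j.eq_nat_or_neg
  · simp only [zpow_natCast]
    exact hf.pow k
  · simp only [zpow_neg, zpow_natCast]
    exact (hf.pow k).inv (pow_ne_zero k h0)

theorem contDiffAt_ef {m : WithTop ℕ∞} (k : ℕ) (hρ : 0 < ρ) (hx : 0 < Pf i0 i1 a ρ x) :
    ContDiffAt ℝ m (ef i0 i1 k a ρ) x :=
  contDiffAt_zpow (contDiffAt_Af i0 i1 a ρ x hx) (Af_pos i0 i1 a ρ x hρ).ne' _

end basic

section zpowrules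

theorem contDiffAt_zpow_real {m : WithTop ℕ∞} {t : ℝ} (h0 : t ≠ 0) (j : ℤ) :
    ContDiffAt ℝ m (fun y : ℝ => y ^ j) t := by
  obtain ⟨k, rfl | rfl⟩ := j.eq_nat_or_neg
  · simp only [zpow_natCast]
    exact contDiffAt_id.pow k
  · simp only [zpow_neg, zpow_natCast]
    exact (contDiffAt_id.pow k).inv (pow_ne_zero k h0)

variable {f g : E n → ℝ} {x : E n}

theorem gam_zpow_right (hf : DifferentiableAt ℝ f x) (h0 : f x ≠ 0) (j : ℤ) :
    gam g (fun y => f y ^ j) x = j * f x ^ (j - 1) * gam g f x := by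
  have hF : DifferentiableAt ℝ (fun t : ℝ => t ^ j) (f x) :=
    (contDiffAt_zpow_real (m := 1) h0 j).differentiableAt (by norm_num)
  rw [gam_comp_right (F := fun t : ℝ => t ^ j) hF hf, deriv_zpow]

theorem lap_zpow (hf : ContDiffAt ℝ 2 f x) (h0 : f x ≠ 0) (j : ℤ) :
    lap (fun y => f y ^ j) x
      = j * f x ^ (j - 1) * lap f x + j * (j - 1) * f x ^ (j - 2) * gam f f x := by
  have hF : ContDiffAt ℝ 2 (fun t : ℝ => t ^ j) (f x) := contDiffAt_zpow_real h0 j
  rw [lap_comp (F := fun t : ℝ => t ^ j) hF hf]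
  have h1 : deriv (fun t : ℝ => t ^ j) = fun t => (j : ℝ) * t ^ (j - 1) := by
    funext t; rw [deriv_zpow]
  have h2 : deriv (fun t : ℝ => (j : ℝ) * t ^ (j - 1)) (f x) = j * ((j - 1) * f x ^ (j - 2)) := by
    rw [deriv_const_mul_field, deriv_zpow]
    push_cast
    congr 3
    ring
  rw [h1, h2]
  ring

end zpowrules

section polys

variable (i0 i1 : Fin n) (a : E n) (ρ : ℝ) (x : E n)

theorem pd_Nf (i : Fin n) : pd i (Nf a) x = 2 * (x i - a i) := by
  have h : ∀ j, DifferentiableAt ℝ (fun x : E n => (x j - a j) ^ 2) x := fun j =>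
    ((diff_coord j x).sub_const _).pow 2
  have e1 : pd i (Nf a) x = ∑ j, pd i (fun x : E n => (x j - a j) ^ 2) x := by
    unfold pd Nf
    rw [fderiv_fun_sum fun j _ => h j]
    simp
  rw [e1]
  have e2 : ∀ j, pd i (fun x : E n => (x j - a j) ^ 2) x
      = 2 * (x j - a j) * (if j = i then 1 else 0) := by
    intro j
    have hd : DifferentiableAt ℝ (fun x : E n => x j - a j) x := (diff_coord j x).sub_const _
    have : (fun x : E n => (x j - a j) ^ 2) = fun x : E n => (x j - a j) * (x j - a j) := by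
      funext y; ring
    rw [this, pd_mul hd hd, pd_sub (diff_coord j x) (differentiableAt_const _), pd_coord, pd_const]
    ring
  simp [e2]

theorem pd_Xf (i : Fin n) : pd i (Xf i0 i1 a) x =
    (if i0 = i then 2 * (x i0 - a i0) else 0) + (if i1 = i then 2 * (x i1 - a i1) else 0) := by
  have h : ∀ j, DifferentiableAt ℝ (fun x : E n => (x j - a j) ^ 2) x := fun j =>
    ((diff_coord j x).sub_const _).pow 2
  have e2 : ∀ j, pd i (fun x : E n => (x j - a j) ^ 2) x
      = if j = i then 2 * (x j - a j) else 0 := by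
    intro j
    have hd : DifferentiableAt ℝ (fun x : E n => x j - a j) x := (diff_coord j x).sub_const _
    have : (fun x : E n => (x j - a j) ^ 2) = fun x : E n => (x j - a j) * (x j - a j) := by
      funext y; ring
    rw [this, pd_mul hd hd, pd_sub (diff_coord j x) (differentiableAt_const _), pd_coord, pd_const]
    split_ifs <;> ring
  unfold Xf
  rw [pd_add (h i0) (h i1), e2, e2]

theorem gam_NN : gam (Nf a) (Nf a) x = 4 * Nf a x := by
  unfold gam
  simp_rw [pd_Nf]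
  unfold Nf
  rw [Finset.mul_sum]
  exact Finset.sum_congr rfl fun i _ => by ring

theorem gam_NX : gam (Nf a) (Xf i0 i1 a) x = 4 * Xf i0 i1 a x := by
  unfold gam
  simp_rw [pd_Nf, pd_Xf i0 i1 a x, mul_add, mul_ite, mul_zero]
  rw [Finset.sum_add_distrib]
  simp only [Finset.sum_ite_eq, Finset.mem_univ, if_true]
  unfold Xf
  ring

theorem gam_XX (h01 : i0 ≠ i1) : gam (Xf i0 i1 a) (Xf i0 i1 a) x = 4 * Xf i0 i1 a x := by
  unfold gam
  simp_rw [pd_Xf i0 i1 a x, mul_add, mul_ite, mul_zero]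
  rw [Finset.sum_add_distrib]
  simp only [Finset.sum_ite_eq, Finset.mem_univ, if_true]
  unfold Xf
  simp only [h01, h01.symm, if_false]
  ring

theorem lap_N : lap (Nf a) x = 2 * n := by
  unfold lap
  have h : ∀ i, pd i (pd i (Nf a)) x = 2 := by
    intro i
    have : pd i (Nf a) = fun x => 2 * (x i - a i) := by funext y; exact pd_Nf a y i
    rw [this, pd_const_mul _ ((diff_coord i x).sub_const _),
      pd_sub (diff_coord i x) (differentiableAt_const _), pd_coord, pd_const]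
    simp
  simp_rw [h]
  simp [mul_comm]

theorem lap_X : lap (Xf i0 i1 a) x = 4 := by
  have e : ∀ j, lap (fun x : E n => (x j - a j) ^ 2) x = 2 := by
    intro j
    unfold lap
    have h : ∀ i, pd i (pd i (fun x : E n => (x j - a j) ^ 2)) x = if j = i then 2 else 0 := by
      intro i
      have e2 : pd i (fun x : E n => (x j - a j) ^ 2)
          = fun x => (2 * (if j = i then 1 else 0)) * (x j - a j) := by
        funext y
        have hd : DifferentiableAt ℝ (fun x : E n => x j - a j) y := (diff_coord j y).sub_const _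
        have : (fun x : E n => (x j - a j) ^ 2) = fun x : E n => (x j - a j) * (x j - a j) := by
          funext y; ring
        rw [this, pd_mul hd hd, pd_sub (diff_coord j y) (differentiableAt_const _), pd_coord,
          pd_const]
        split_ifs <;> ring
      rw [e2, pd_const_mul _ ((diff_coord j x).sub_const _),
        pd_sub (diff_coord j x) (differentiableAt_const _), pd_coord, pd_const]
      split_ifs <;> ring
    simp_rw [h]
    simp
  have hc : ∀ j, ContDiffAt ℝ 2 (fun x : E n => (x j - a j) ^ 2) x := fun j =>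
    (((contDiff_coord j).sub contDiff_const).pow 2).contDiffAt
  unfold Xf
  rw [lap_add (hc i0) (hc i1), e, e]
  norm_num

theorem gam_P_right {f : E n → ℝ} :
    gam f (Pf i0 i1 a ρ) x
      = 2 * (Nf a x - ρ ^ 2) * gam f (Nf a) x + 4 * ρ ^ 2 * gam f (Xf i0 i1 a) x := by
  have hN : DifferentiableAt ℝ (Nf a) x := diff_of (contDiff_Nf a).contDiffAt
  have hX : DifferentiableAt ℝ (Xf i0 i1 a) x := diff_of (contDiff_Xf i0 i1 a).contDiffAt
  have hN' : DifferentiableAt ℝ (fun y => Nf a y - ρ ^ 2) x := hN.sub_const _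
  have e : Pf i0 i1 a ρ
      = fun y => (Nf a y - ρ ^ 2) * (Nf a y - ρ ^ 2) + (4 * ρ ^ 2) * Xf i0 i1 a y := by
    funext y; unfold Pf; ring
  have h1 : DifferentiableAt ℝ (fun y => (Nf a y - ρ ^ 2) * (Nf a y - ρ ^ 2)) x := hN'.fun_mul hN'
  rw [e, gam_add_right h1 (hX.const_mul _), gam_mul_right hN' hN',
    gam_const_mul_right _ hX, gam_sub_right hN (differentiableAt_const _), gam_const_right]
  ring

theorem gam_NP :
    gam (Nf a) (Pf i0 i1 a ρ) x = 4 * Pf i0 i1 a ρ x + 4 * (Nf a x ^ 2 - ρ ^ 4) := by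
  rw [gam_P_right, gam_NN, gam_NX i0 i1 a x]
  unfold Pf
  ring

theorem gam_PP (h01 : i0 ≠ i1) :
    gam (Pf i0 i1 a ρ) (Pf i0 i1 a ρ) x = 16 * Nf a x * Pf i0 i1 a ρ x := by
  rw [gam_P_right, gam_comm, gam_NP i0 i1 a ρ x, gam_comm (f := Pf i0 i1 a ρ), gam_P_right,
    gam_XX i0 i1 a x h01, gam_comm (f := Xf i0 i1 a), gam_NX i0 i1 a x]
  unfold Pf
  ring

theorem lap_P (h01 : i0 ≠ i1) :
    lap (Pf i0 i1 a ρ) x = (4 * n + 8) * Nf a x - (4 * n - 16) * ρ ^ 2 := by
  have hN : ContDiffAt ℝ 2 (Nf a) x := (contDiff_Nf a).contDiffAt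
  have hX : ContDiffAt ℝ 2 (Xf i0 i1 a) x := (contDiff_Xf i0 i1 a).contDiffAt
  have hN' : ContDiffAt ℝ 2 (fun y => Nf a y - ρ ^ 2) x := hN.sub contDiffAt_const
  have e : Pf i0 i1 a ρ
      = fun y => (Nf a y - ρ ^ 2) * (Nf a y - ρ ^ 2) + (4 * ρ ^ 2) * Xf i0 i1 a y := by
    funext y; unfold Pf; ring
  have hg : gam (fun y => Nf a y - ρ ^ 2) (fun y => Nf a y - ρ ^ 2) x = 4 * Nf a x := by
    rw [gam_sub_right (diff_of hN) (differentiableAt_const _), gam_const_right, gam_comm,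
      gam_sub_right (diff_of hN) (differentiableAt_const _), gam_const_right, gam_NN]
    ring
  have hl : lap (fun y => Nf a y - ρ ^ 2) x = 2 * n := by
    rw [lap_sub hN contDiffAt_const, lap_const, lap_N]; ring
  rw [e, lap_add (hN'.mul hN') (contDiffAt_const.mul hX), lap_mul hN' hN',
    lap_const_mul _ hX, hg, hl, lap_X i0 i1 a x]
  ring

end polys

section roots

variable (i0 i1 : Fin n) (a : E n) (ρ : ℝ) (x : E n)

theorem Rf_pos (hx : 0 < Pf i0 i1 a ρ x) : 0 < Rf i0 i1 a ρ x := Real.sqrt_pos.2 hx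

theorem Pf_eq_mul : Pf i0 i1 a ρ = fun y => Rf i0 i1 a ρ y * Rf i0 i1 a ρ y := by
  funext y
  rw [← Rf_sq]; ring

theorem gam_R_right {f : E n → ℝ} (hx : 0 < Pf i0 i1 a ρ x) :
    gam f (Rf i0 i1 a ρ) x = gam f (Pf i0 i1 a ρ) x / (2 * Rf i0 i1 a ρ x) := by
  have hR := diff_of (contDiffAt_Rf i0 i1 a ρ x hx)
  have hpos := Rf_pos i0 i1 a ρ x hx
  have e : gam f (Pf i0 i1 a ρ) x = 2 * Rf i0 i1 a ρ x * gam f (Rf i0 i1 a ρ) x := by
    rw [Pf_eq_mul, gam_mul_right hR hR]; ring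
  rw [e]
  field_simp

theorem gam_RR (h01 : i0 ≠ i1) (hx : 0 < Pf i0 i1 a ρ x) :
    gam (Rf i0 i1 a ρ) (Rf i0 i1 a ρ) x = 4 * Nf a x := by
  have hpos := Rf_pos i0 i1 a ρ x hx
  rw [gam_R_right i0 i1 a ρ x hx, gam_comm, gam_R_right i0 i1 a ρ x hx, gam_PP i0 i1 a ρ x h01,
    ← Rf_sq]
  field_simp
  ring

theorem gam_NR (h01 : i0 ≠ i1) (hx : 0 < Pf i0 i1 a ρ x) :
    gam (Nf a) (Rf i0 i1 a ρ) x
      = 2 * (Rf i0 i1 a ρ x ^ 2 + (Nf a x ^ 2 - ρ ^ 4)) / Rf i0 i1 a ρ x := by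
  have hpos := Rf_pos i0 i1 a ρ x hx
  rw [gam_R_right i0 i1 a ρ x hx, gam_NP i0 i1 a ρ x, ← Rf_sq]
  field_simp
  ring

theorem lap_R (h01 : i0 ≠ i1) (hx : 0 < Pf i0 i1 a ρ x) :
    lap (Rf i0 i1 a ρ) x
      = (2 * n * Nf a x - 2 * (n - 4) * ρ ^ 2) / Rf i0 i1 a ρ x := by
  have hR : ContDiffAt ℝ 2 (Rf i0 i1 a ρ) x := contDiffAt_Rf i0 i1 a ρ x hx
  have hpos := Rf_pos i0 i1 a ρ x hx
  have e : lap (Pf i0 i1 a ρ) x
      = 2 * Rf i0 i1 a ρ x * lap (Rf i0 i1 a ρ) x + 2 * (4 * Nf a x) := by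
    rw [Pf_eq_mul, lap_mul hR hR, gam_RR i0 i1 a ρ x h01 hx]; ring
  rw [lap_P i0 i1 a ρ x h01] at e
  rw [eq_div_iff hpos.ne']
  linarith

theorem Nf_eq_Af : Nf a x = 2 * Af i0 i1 a ρ x - ρ ^ 2 - Rf i0 i1 a ρ x := by
  unfold Af; ring

theorem gam_A_right {f : E n → ℝ} (hx : 0 < Pf i0 i1 a ρ x) :
    gam f (Af i0 i1 a ρ) x = (gam f (Nf a) x + gam f (Rf i0 i1 a ρ) x) / 2 := by
  have hR := diff_of (contDiffAt_Rf i0 i1 a ρ x hx)
  have hN : DifferentiableAt ℝ (Nf a) x := diff_of (contDiff_Nf a).contDiffAt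
  have e : Af i0 i1 a ρ = fun y => (1 / 2 : ℝ) * (Nf a y + Rf i0 i1 a ρ y + ρ ^ 2) := by
    funext y; unfold Af; ring
  have h1 : DifferentiableAt ℝ (fun y => Nf a y + Rf i0 i1 a ρ y) x := hN.fun_add hR
  have h2 : DifferentiableAt ℝ (fun y => Nf a y + Rf i0 i1 a ρ y + ρ ^ 2) x := h1.add_const _
  rw [e, gam_const_mul_right _ h2,
    gam_add_right h1 (differentiableAt_const _), gam_add_right hN hR, gam_const_right]
  ring

theorem gam_AR (h01 : i0 ≠ i1) (hx : 0 < Pf i0 i1 a ρ x) :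
    gam (Af i0 i1 a ρ) (Rf i0 i1 a ρ) x
      = 4 * Af i0 i1 a ρ x * (Af i0 i1 a ρ x - ρ ^ 2) / Rf i0 i1 a ρ x := by
  have hpos := Rf_pos i0 i1 a ρ x hx
  rw [gam_comm, gam_A_right i0 i1 a ρ x hx, gam_RR i0 i1 a ρ x h01 hx, gam_comm,
    gam_NR i0 i1 a ρ x h01 hx, Nf_eq_Af i0 i1 a ρ x]
  field_simp
  ring

theorem gam_AA (h01 : i0 ≠ i1) (hx : 0 < Pf i0 i1 a ρ x) :
    gam (Af i0 i1 a ρ) (Af i0 i1 a ρ) x
      = 4 * Af i0 i1 a ρ x * (Af i0 i1 a ρ x - ρ ^ 2) / Rf i0 i1 a ρ x := by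
  have hpos := Rf_pos i0 i1 a ρ x hx
  rw [gam_A_right i0 i1 a ρ x hx, gam_AR i0 i1 a ρ x h01 hx, gam_comm,
    gam_A_right i0 i1 a ρ x hx, gam_NN, gam_NR i0 i1 a ρ x h01 hx, Nf_eq_Af i0 i1 a ρ x]
  field_simp
  ring

theorem lap_A (h01 : i0 ≠ i1) (hx : 0 < Pf i0 i1 a ρ x) :
    lap (Af i0 i1 a ρ) x
      = (2 * n * (Af i0 i1 a ρ x - ρ ^ 2) + 4 * ρ ^ 2) / Rf i0 i1 a ρ x := by
  have hpos := Rf_pos i0 i1 a ρ x hx
  have hR : ContDiffAt ℝ 2 (Rf i0 i1 a ρ) x := contDiffAt_Rf i0 i1 a ρ x hx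
  have hN : ContDiffAt ℝ 2 (Nf a) x := (contDiff_Nf a).contDiffAt
  have e : Af i0 i1 a ρ = fun y => (1 / 2 : ℝ) * (Nf a y + Rf i0 i1 a ρ y + ρ ^ 2) := by
    funext y; unfold Af; ring
  have e2 : lap (Af i0 i1 a ρ) x = (lap (Nf a) x + lap (Rf i0 i1 a ρ) x) / 2 := by
    rw [e, lap_const_mul _ ((hN.add hR).add contDiffAt_const),
      lap_add (hN.add hR) contDiffAt_const, lap_add hN hR, lap_const]
    ring
  rw [e2, lap_N, lap_R i0 i1 a ρ x h01 hx, Nf_eq_Af i0 i1 a ρ x]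
  field_simp
  ring

end roots

section main

variable (i0 i1 : Fin n) (k : ℕ) (a : E n) (ρ : ℝ) (x : E n)

theorem gam_ee (h01 : i0 ≠ i1) (hρ : 0 < ρ) (hx : 0 < Pf i0 i1 a ρ x) :
    gam (ef i0 i1 k a ρ) (ef i0 i1 k a ρ) x
      = 4 * (k : ℝ) ^ 2 * (Af i0 i1 a ρ x) ^ (-(2 * k + 1 : ℤ)) *
          ((Af i0 i1 a ρ x - ρ ^ 2) / Rf i0 i1 a ρ x) := by
  have hpos := Rf_pos i0 i1 a ρ x hx
  have hA := Af_pos i0 i1 a ρ x hρ
  have hd : DifferentiableAt ℝ (Af i0 i1 a ρ) x := diff_of (contDiffAt_Af i0 i1 a ρ x hx)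
  unfold ef
  rw [gam_zpow_right hd hA.ne', gam_comm, gam_zpow_right hd hA.ne', gam_AA i0 i1 a ρ x h01 hx]
  have e1 : (Af i0 i1 a ρ x) ^ (-(2 * k + 1 : ℤ))
      = (Af i0 i1 a ρ x) ^ (-(k : ℤ) - 1) * (Af i0 i1 a ρ x) ^ (-(k : ℤ) - 1) *
        (Af i0 i1 a ρ x) := by
    rw [← zpow_add₀ hA.ne', ← zpow_add_one₀ hA.ne']
    congr 1; ring
  rw [e1]
  push_cast
  ring

/-- The Laplacian of the potential. -/
theorem lap_e (h01 : i0 ≠ i1) (hn : n = 2 * k + 4) (hρ : 0 < ρ) (hx : 0 < Pf i0 i1 a ρ x) :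
    lap (ef i0 i1 k a ρ) x
      = -(4 * k) * ((Af i0 i1 a ρ x) ^ (-(k : ℤ)) * (Rf i0 i1 a ρ x) ^ (-1 : ℤ)) := by
  have hpos := Rf_pos i0 i1 a ρ x hx
  have hA := Af_pos i0 i1 a ρ x hρ
  have hA2 : ContDiffAt ℝ 2 (Af i0 i1 a ρ) x := contDiffAt_Af i0 i1 a ρ x hx
  unfold ef
  rw [lap_zpow hA2 hA.ne', gam_AA i0 i1 a ρ x h01 hx, lap_A i0 i1 a ρ x h01 hx]
  have e1 : (Af i0 i1 a ρ x) ^ (-(k : ℤ) - 1) = (Af i0 i1 a ρ x) ^ (-(k : ℤ)) / Af i0 i1 a ρ x := by
    rw [zpow_sub_one₀ hA.ne']; rfl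
  have e2 : (Af i0 i1 a ρ x) ^ (-(k : ℤ) - 2)
      = (Af i0 i1 a ρ x) ^ (-(k : ℤ)) / (Af i0 i1 a ρ x) ^ 2 := by
    rw [zpow_sub₀ hA.ne']; norm_cast
  have hn' : (n : ℝ) = 2 * k + 4 := by exact_mod_cast hn
  rw [e1, e2, zpow_neg_one, hn']
  push_cast
  generalize (Af i0 i1 a ρ x) ^ (-(k : ℤ)) = w
  field_simp
  ring

/-- The Laplacian of the potential is harmonic away from the sphere. -/
theorem lap_h (h01 : i0 ≠ i1) (hn : n = 2 * k + 4) (hρ : 0 < ρ) (hx : 0 < Pf i0 i1 a ρ x) :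
    lap (fun y => (Af i0 i1 a ρ y) ^ (-(k : ℤ)) * (Rf i0 i1 a ρ y) ^ (-1 : ℤ)) x = 0 := by
  have hpos := Rf_pos i0 i1 a ρ x hx
  have hA := Af_pos i0 i1 a ρ x hρ
  have hA2 : ContDiffAt ℝ 2 (Af i0 i1 a ρ) x := contDiffAt_Af i0 i1 a ρ x hx
  have hR2 : ContDiffAt ℝ 2 (Rf i0 i1 a ρ) x := contDiffAt_Rf i0 i1 a ρ x hx
  have hd1 := diff_of hA2
  have hd2 := diff_of hR2
  rw [lap_mul (contDiffAt_zpow hA2 hA.ne' _) (contDiffAt_zpow hR2 hpos.ne' _)]
  have hle := lap_e i0 i1 k a ρ x h01 hn hρ hx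
  unfold ef at hle
  rw [hle, lap_zpow hR2 hpos.ne', gam_RR i0 i1 a ρ x h01 hx, lap_R i0 i1 a ρ x h01 hx,
    gam_zpow_right hd2 hpos.ne', gam_comm, gam_zpow_right hd1 hA.ne', gam_comm,
    gam_AR i0 i1 a ρ x h01 hx]
  have e1 : (Af i0 i1 a ρ x) ^ (-(k : ℤ) - 1) = (Af i0 i1 a ρ x) ^ (-(k : ℤ)) / Af i0 i1 a ρ x := by
    rw [zpow_sub_one₀ hA.ne']; rfl
  have e2 : (Rf i0 i1 a ρ x) ^ (-1 - 1 : ℤ) = 1 / (Rf i0 i1 a ρ x) ^ 2 := by
    norm_num [zpow_neg]
  have e3 : (Rf i0 i1 a ρ x) ^ (-1 - 2 : ℤ) = 1 / (Rf i0 i1 a ρ x) ^ 3 := by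
    norm_num [zpow_neg]
  have hn' : (n : ℝ) = 2 * k + 4 := by exact_mod_cast hn
  rw [e1, e2, e3, zpow_neg_one, hn', Nf_eq_Af i0 i1 a ρ x]
  push_cast
  generalize (Af i0 i1 a ρ x) ^ (-(k : ℤ)) = w
  field_simp
  ring

end main

end Pool.Agent.Lib.MP_7045fd_an
end
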