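import Pool.Agent.Lib.MP_7045fd_an.Infty

section

set_option autoImplicit false

namespace Pool.Agent.Lib.MP_7045fd_an

open MeasureTheory Filter Topology Metric
open scoped ENNReal

variable {n : ℕ}

section decay

variable (i0 i1 : Fin n) (k : ℕ) (a : E n) (ρ : ℝ)

theorem exists_inv_Af_le (hρ : 0 < ρ) :
    ∃ C : ℝ, 0 ≤ C ∧ ∀ x, (Af i0 i1 a ρ x)⁻¹ ≤ C * wt x := by
  set C0 : ℝ := max 2 ((1 + 2 * ‖a‖ ^ 2) / ρ ^ 2) with hC0
  have hC0pos : 0 < C0 := lt_of_lt_of_le (by norm_num) (le_max_left _ _)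
  refine ⟨2 * C0, by positivity, fun x => ?_⟩
  have hA := Af_pos i0 i1 a ρ x hρ
  have h1 := half_le_Af i0 i1 a ρ x
  have h2 : ‖x‖ ^ 2 ≤ 2 * Nf a x + 2 * ‖a‖ ^ 2 := by
    rw [Nf_eq]
    have h3 : ‖x‖ ≤ ‖x - a‖ + ‖a‖ := by
      have := norm_add_le (x - a) a
      simpa using this
    have h4 : ‖x‖ ^ 2 ≤ (‖x - a‖ + ‖a‖) ^ 2 := pow_le_pow_left₀ (norm_nonneg _) h3 2
    nlinarith [sq_nonneg (‖x - a‖ - ‖a‖)]
  have hN := Nf_nonneg a x
  have h5 : 1 + ‖x‖ ^ 2 ≤ C0 * (Nf a x + ρ ^ 2) := by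
    have h6 : 2 * Nf a x ≤ C0 * Nf a x := mul_le_mul_of_nonneg_right (le_max_left _ _) hN
    have h7 : 1 + 2 * ‖a‖ ^ 2 ≤ C0 * ρ ^ 2 := by
      have := le_max_right 2 ((1 + 2 * ‖a‖ ^ 2) / ρ ^ 2)
      rwa [← hC0, div_le_iff₀ (by positivity)] at this
    linarith
  unfold wt
  rw [inv_eq_one_div, inv_eq_one_div, mul_one_div, div_le_div_iff₀ hA (by positivity)]
  nlinarith

theorem zpow_neg_eq (x : E n) : (Af i0 i1 a ρ x) ^ (-(k : ℤ)) = (Af i0 i1 a ρ x)⁻¹ ^ k := by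
  rw [zpow_neg, zpow_natCast, inv_pow]

theorem exists_ef_sq_le (hρ : 0 < ρ) :
    ∃ C : ℝ, ∀ x, ef i0 i1 k a ρ x ^ 2 ≤ C * wt x ^ (2 * k) := by
  obtain ⟨C, hC0, hC⟩ := exists_inv_Af_le i0 i1 a ρ hρ
  refine ⟨C ^ (2 * k), fun x => ?_⟩
  have hA := Af_pos i0 i1 a ρ x hρ
  unfold ef
  rw [zpow_neg_eq, ← pow_mul, ← mul_pow, mul_comm k 2]
  exact pow_le_pow_left₀ (by positivity) (hC x) _

theorem exists_gam_ef_le (h01 : i0 ≠ i1) (hρ : 0 < ρ) :
    ∃ C : ℝ, ∀ x, 0 < Pf i0 i1 a ρ x →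
      gam (ef i0 i1 k a ρ) (ef i0 i1 k a ρ) x ≤ C * wt x ^ (2 * k + 1) := by
  obtain ⟨C, hC0, hC⟩ := exists_inv_Af_le i0 i1 a ρ hρ
  refine ⟨4 * (k : ℝ) ^ 2 * C ^ (2 * k + 1), fun x hx => ?_⟩
  have hA := Af_pos i0 i1 a ρ x hρ
  have hR := Rf_pos i0 i1 a ρ x hx
  rw [gam_ee i0 i1 k a ρ x h01 hρ hx]
  have e : (Af i0 i1 a ρ x) ^ (-(2 * k + 1 : ℤ)) = (Af i0 i1 a ρ x)⁻¹ ^ (2 * k + 1) := by
    rw [zpow_neg, inv_pow]
    norm_cast
  have h1 : (Af i0 i1 a ρ x - ρ ^ 2) / Rf i0 i1 a ρ x ≤ 1 := by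
    rw [div_le_one hR]
    exact Af_sub_le i0 i1 a ρ x
  have h2 : 0 ≤ (Af i0 i1 a ρ x)⁻¹ ^ (2 * k + 1) := by positivity
  have h3 : (Af i0 i1 a ρ x)⁻¹ ^ (2 * k + 1) ≤ (C * wt x) ^ (2 * k + 1) :=
    pow_le_pow_left₀ (by positivity) (hC x) _
  rw [e]
  calc 4 * (k : ℝ) ^ 2 * (Af i0 i1 a ρ x)⁻¹ ^ (2 * k + 1) *
        ((Af i0 i1 a ρ x - ρ ^ 2) / Rf i0 i1 a ρ x)
      ≤ 4 * (k : ℝ) ^ 2 * (Af i0 i1 a ρ x)⁻¹ ^ (2 * k + 1) * 1 :=
        mul_le_mul_of_nonneg_left h1 (by positivity)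
    _ ≤ 4 * (k : ℝ) ^ 2 * (C * wt x) ^ (2 * k + 1) := by
        rw [mul_one]
        exact mul_le_mul_of_nonneg_left h3 (by positivity)
    _ = _ := by ring

theorem lap_ef_sq (h01 : i0 ≠ i1) (hn : n = 2 * k + 4) (hρ : 0 < ρ) (x : E n)
    (hx : 0 < Pf i0 i1 a ρ x) :
    lap (ef i0 i1 k a ρ) x ^ 2
      = 16 * (k : ℝ) ^ 2 * ((Af i0 i1 a ρ x)⁻¹ ^ (2 * k) * (1 / Pf i0 i1 a ρ x)) := by
  rw [lap_e i0 i1 k a ρ x h01 hn hρ hx, zpow_neg_eq, zpow_neg_one, ← Rf_sq]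
  rw [mul_comm 2 k, pow_mul]
  field_simp
  ring

theorem memLp_lap_ef (h01 : i0 ≠ i1) (hk : 1 ≤ k) (hn : n = 2 * k + 4) (hρ : 0 < ρ) :
    MemLp (lap (ef i0 i1 k a ρ)) 2 volume := by
  have hn4 : 4 ≤ n := by omega
  obtain ⟨C, hC0, hC⟩ := exists_inv_Af_le i0 i1 a ρ hρ
  -- far away `P` is large
  set L : ℝ := max (4 * ρ) (2 * ‖a‖) with hL
  set G : E n → ℝ := fun x => 16 * (k : ℝ) ^ 2 * (C ^ (2 * k) * (32 ^ 2 * wt x ^ (2 * k + 2)))
    * (1 + 1 / ρ ^ 4) + (ball (0 : E n) (max L 1)).indicator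
      (fun x => 16 * (k : ℝ) ^ 2 * ((ρ ^ 2)⁻¹ ^ (2 * k)) * (1 / Pf i0 i1 a ρ x)) x with hG
  have hGint : Integrable G := by
    apply Integrable.add
    · have := ((integrable_wt_pow k hk hn).const_mul
        (16 * (k : ℝ) ^ 2 * (C ^ (2 * k) * 32 ^ 2) * (1 + 1 / ρ ^ 4)))
      refine this.congr (Eventually.of_forall fun x => ?_)
      simp only
      ring
    · rw [integrable_indicator_iff measurableSet_ball]
      exact (integrableOn_inv_Pf i0 i1 a ρ h01 hn4 hρ _).const_mul _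
  apply memLp_two_of_sq_le (measurable_lap _).aestronglyMeasurable hGint
  have hae := ae_offS i0 i1 h01 hn4 [(a, ρ)] (by simpa using hρ)
  filter_upwards [hae] with x hx
  have hP : 0 < Pf i0 i1 a ρ x := hx (a, ρ) (by simp)
  have hA := Af_pos i0 i1 a ρ x hρ
  have hwp := wt_pos x
  rw [lap_ef_sq i0 i1 k a ρ h01 hn hρ x hP]
  by_cases hxb : x ∈ ball (0 : E n) (max L 1)
  · have h1 : (Af i0 i1 a ρ x)⁻¹ ^ (2 * k) ≤ (ρ ^ 2)⁻¹ ^ (2 * k) := by
      apply pow_le_pow_left₀ (by positivity)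
      exact inv_anti₀ (by positivity) (sq_le_Af i0 i1 a ρ x)
    rw [hG]
    simp only [Set.indicator_of_mem hxb]
    have h2 : 16 * (k : ℝ) ^ 2 * ((Af i0 i1 a ρ x)⁻¹ ^ (2 * k) * (1 / Pf i0 i1 a ρ x))
        ≤ 16 * (k : ℝ) ^ 2 * ((ρ ^ 2)⁻¹ ^ (2 * k)) * (1 / Pf i0 i1 a ρ x) := by
      rw [mul_assoc (16 * (k : ℝ) ^ 2)]
      apply mul_le_mul_of_nonneg_left _ (by positivity)
      exact mul_le_mul_of_nonneg_right h1 (by positivity)
    have h3 : 0 ≤ 16 * (k : ℝ) ^ 2 * (C ^ (2 * k) * (32 ^ 2 * wt x ^ (2 * k + 2)))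
        * (1 + 1 / ρ ^ 4) := by positivity
    linarith
  · have hx1 : max L 1 ≤ ‖x‖ := by
      rw [mem_ball_zero_iff] at hxb
      exact not_lt.1 hxb
    have hxL : L ≤ ‖x‖ := (le_max_left _ _).trans hx1
    have hx11 : 1 ≤ ‖x‖ := (le_max_right _ _).trans hx1
    have ha : ‖a‖ ≤ ‖x‖ / 2 := by
      have := (le_max_right (4 * ρ) (2 * ‖a‖)).trans hxL
      linarith
    have hr : ρ ≤ ‖x‖ / 4 := by
      have := (le_max_left (4 * ρ) (2 * ‖a‖)).trans hxL
      linarith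
    have hxa : ‖x‖ / 2 ≤ ‖x - a‖ := by
      have := norm_sub_norm_le x a
      linarith
    have hN : ‖x‖ ^ 2 / 4 ≤ Nf a x := by
      rw [Nf_eq]
      nlinarith
    have hNr : (1 + ‖x‖ ^ 2) / 16 ≤ Nf a x - ρ ^ 2 := by
      have : ρ ^ 2 ≤ ‖x‖ ^ 2 / 16 := by nlinarith
      nlinarith
    have hPge : ((1 + ‖x‖ ^ 2) / 16) ^ 2 ≤ Pf i0 i1 a ρ x :=
      (pow_le_pow_left₀ (by positivity) hNr 2).trans (sub_sq_le_Pf i0 i1 a ρ x)
    have h1P : 1 / Pf i0 i1 a ρ x ≤ 32 ^ 2 * wt x ^ 2 := by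
      have hpos : (0:ℝ) < ((1 + ‖x‖ ^ 2) / 16) ^ 2 := by positivity
      calc 1 / Pf i0 i1 a ρ x ≤ 1 / ((1 + ‖x‖ ^ 2) / 16) ^ 2 := one_div_le_one_div_of_le hpos hPge
        _ = 16 ^ 2 * wt x ^ 2 := by unfold wt; field_simp
        _ ≤ 32 ^ 2 * wt x ^ 2 := by nlinarith [sq_nonneg (wt x)]
    have h2 : (Af i0 i1 a ρ x)⁻¹ ^ (2 * k) ≤ (C * wt x) ^ (2 * k) :=
      pow_le_pow_left₀ (by positivity) (hC x) _
    have h3 : (Af i0 i1 a ρ x)⁻¹ ^ (2 * k) * (1 / Pf i0 i1 a ρ x)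
        ≤ (C * wt x) ^ (2 * k) * (32 ^ 2 * wt x ^ 2) :=
      mul_le_mul h2 h1P (by positivity) (by positivity)
    rw [hG]
    simp only [Set.indicator_of_notMem hxb, add_zero]
    have h4 : 16 * (k : ℝ) ^ 2 * ((Af i0 i1 a ρ x)⁻¹ ^ (2 * k) * (1 / Pf i0 i1 a ρ x))
        ≤ 16 * (k : ℝ) ^ 2 * (C ^ (2 * k) * (32 ^ 2 * wt x ^ (2 * k + 2))) := by
      apply mul_le_mul_of_nonneg_left _ (by positivity)
      calc _ ≤ _ := h3
        _ = _ := by ring
    have h5 : 0 ≤ 16 * (k : ℝ) ^ 2 * (C ^ (2 * k) * (32 ^ 2 * wt x ^ (2 * k + 2))) := by positivity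
    have h6 : 0 ≤ 1 / ρ ^ 4 := by positivity
    nlinarith

end decay

section ortho

variable (i0 i1 : Fin n) (k : ℕ) (a : E n) (ρ : ℝ)

theorem integral_lap_ef_lap (h01 : i0 ≠ i1) (hn : n = 2 * k + 4) (hρ : 0 < ρ)
    {ψ : E n → ℝ} (hψ : IsTest {x | 0 < Pf i0 i1 a ρ x} ψ) :
    ∫ x, lap (ef i0 i1 k a ρ) x * lap ψ x = 0 := by
  set h : E n → ℝ := fun y => (Af i0 i1 a ρ y) ^ (-(k : ℤ)) * (Rf i0 i1 a ρ y) ^ (-1 : ℤ) with hh
  have h2 : ∀ x ∈ tsupport ψ, ContDiffAt ℝ 2 h x := by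
    intro x hx
    have hP : 0 < Pf i0 i1 a ρ x := hψ.2.2 hx
    exact (contDiffAt_zpow (contDiffAt_Af i0 i1 a ρ x hP) (Af_pos i0 i1 a ρ x hρ).ne' _).mul
      (contDiffAt_zpow (contDiffAt_Rf i0 i1 a ρ x hP) (Rf_pos i0 i1 a ρ x hP).ne' _)
  have hgreen := green hψ.1 hψ.2.1 h2
  have e1 : ∀ x, lap h x * ψ x = 0 := by
    intro x
    by_cases hx : x ∈ tsupport ψ
    · rw [hh, lap_h i0 i1 k a ρ x h01 hn hρ (hψ.2.2 hx), zero_mul]
    · rw [image_eq_zero_of_notMem_tsupport hx, mul_zero]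
  have e2 : ∀ x, lap (ef i0 i1 k a ρ) x * lap ψ x = -(4 * k) * (h x * lap ψ x) := by
    intro x
    by_cases hx : x ∈ tsupport ψ
    · rw [lap_e i0 i1 k a ρ x h01 hn hρ (hψ.2.2 hx)]
      ring
    · have hx' : x ∉ tsupport (lap ψ) := fun hc => hx (tsupport_lap hc)
      rw [image_eq_zero_of_notMem_tsupport hx']
      ring
  simp_rw [e2]
  rw [integral_const_mul, hgreen]
  simp_rw [e1]
  simp

end ortho

section lipschitz

variable (i0 i1 : Fin n) (k : ℕ) (a : E n) (ρ : ℝ)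

theorem Nf_lip (L : ℝ) (x y : E n) (hx : ‖x‖ ≤ L) (hy : ‖y‖ ≤ L) :
    |Nf a x - Nf a y| ≤ 2 * (L + ‖a‖) * ‖x - y‖ := by
  rw [Nf_eq, Nf_eq]
  have h1 : ‖x - a‖ ^ 2 - ‖y - a‖ ^ 2 = (‖x - a‖ - ‖y - a‖) * (‖x - a‖ + ‖y - a‖) := by ring
  have h2 : |‖x - a‖ - ‖y - a‖| ≤ ‖x - y‖ := by
    have := abs_norm_sub_norm_le (x - a) (y - a)
    simpa using this
  have h3 : ‖x - a‖ ≤ L + ‖a‖ := (norm_sub_le _ _).trans (by linarith)
  have h4 : ‖y - a‖ ≤ L + ‖a‖ := (norm_sub_le _ _).trans (by linarith)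
  rw [h1, abs_mul, abs_of_nonneg (by positivity : 0 ≤ ‖x - a‖ + ‖y - a‖)]
  have h5 : 0 ≤ ‖x - y‖ := norm_nonneg _
  calc |‖x - a‖ - ‖y - a‖| * (‖x - a‖ + ‖y - a‖) ≤ ‖x - y‖ * (2 * (L + ‖a‖)) := by
        apply mul_le_mul h2 (by linarith) (by positivity) h5
    _ = _ := by ring

theorem abs_coord_le (x : E n) (i : Fin n) : |x i| ≤ ‖x‖ := by
  have := PiLp.norm_apply_le x i
  simpa using this

theorem sqrt3_lip (p q r p' q' r' : ℝ) :
    |√(p ^ 2 + q ^ 2 + r ^ 2) - √(p' ^ 2 + q' ^ 2 + r' ^ 2)| ≤ |p - p'| + |q - q'| + |r - r'| := by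
  have e : ∀ a b c : ℝ, √(a ^ 2 + b ^ 2 + c ^ 2) = ‖(!₂[a, b, c] : EuclideanSpace ℝ (Fin 3))‖ := by
    intro a b c
    rw [EuclideanSpace.norm_eq]
    simp [Fin.sum_univ_three]
  rw [e, e]
  refine (abs_norm_sub_norm_le _ _).trans ?_
  have e2 : (!₂[p, q, r] : EuclideanSpace ℝ (Fin 3)) - !₂[p', q', r']
      = !₂[p - p', q - q', r - r'] := by
    ext i; fin_cases i <;> simp
  rw [e2, ← e]
  apply Real.sqrt_le_iff.2
  refine ⟨by positivity, ?_⟩
  have h1 := sq_abs (p - p')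
  have h2 := sq_abs (q - q')
  have h3 := sq_abs (r - r')
  have a1 := abs_nonneg (p - p')
  have a2 := abs_nonneg (q - q')
  have a3 := abs_nonneg (r - r')
  nlinarith [mul_nonneg a1 a2, mul_nonneg a1 a3, mul_nonneg a2 a3]

theorem Rf_lip (hρ : 0 < ρ) (L : ℝ) (x y : E n) (hx : ‖x‖ ≤ L) (hy : ‖y‖ ≤ L) :
    |Rf i0 i1 a ρ x - Rf i0 i1 a ρ y| ≤ (2 * (L + ‖a‖) + 4 * ρ) * ‖x - y‖ := by
  have e : ∀ z, Rf i0 i1 a ρ z = √((Nf a z - ρ ^ 2) ^ 2 + (2 * ρ * (z i0 - a i0)) ^ 2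
      + (2 * ρ * (z i1 - a i1)) ^ 2) := by
    intro z
    unfold Rf Pf Xf
    congr 1; ring
  rw [e, e]
  refine (sqrt3_lip _ _ _ _ _ _).trans ?_
  have h1 := Nf_lip a L x y hx hy
  have h2 : |2 * ρ * (x i0 - a i0) - 2 * ρ * (y i0 - a i0)| ≤ 2 * ρ * ‖x - y‖ := by
    have : 2 * ρ * (x i0 - a i0) - 2 * ρ * (y i0 - a i0) = 2 * ρ * ((x - y) i0) := by
      simp; ring
    rw [this, abs_mul, abs_of_pos (by positivity : 0 < 2 * ρ)]
    exact mul_le_mul_of_nonneg_left (abs_coord_le _ _) (by positivity)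
  have h3 : |2 * ρ * (x i1 - a i1) - 2 * ρ * (y i1 - a i1)| ≤ 2 * ρ * ‖x - y‖ := by
    have : 2 * ρ * (x i1 - a i1) - 2 * ρ * (y i1 - a i1) = 2 * ρ * ((x - y) i1) := by
      simp; ring
    rw [this, abs_mul, abs_of_pos (by positivity : 0 < 2 * ρ)]
    exact mul_le_mul_of_nonneg_left (abs_coord_le _ _) (by positivity)
  have h4 : Nf a x - ρ ^ 2 - (Nf a y - ρ ^ 2) = Nf a x - Nf a y := by ring
  rw [h4]
  linarith

theorem Af_lip (hρ : 0 < ρ) (L : ℝ) (x y : E n) (hx : ‖x‖ ≤ L) (hy : ‖y‖ ≤ L) :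
    |Af i0 i1 a ρ x - Af i0 i1 a ρ y| ≤ (2 * (L + ‖a‖) + 2 * ρ) * ‖x - y‖ := by
  have h1 := Nf_lip a L x y hx hy
  have h2 := Rf_lip i0 i1 a ρ hρ L x y hx hy
  have e : Af i0 i1 a ρ x - Af i0 i1 a ρ y
      = ((Nf a x - Nf a y) + (Rf i0 i1 a ρ x - Rf i0 i1 a ρ y)) / 2 := by
    unfold Af; ring
  rw [e, abs_div, abs_of_pos (by norm_num : (0:ℝ) < 2), div_le_iff₀ (by norm_num)]
  have h3 := abs_add_le (Nf a x - Nf a y) (Rf i0 i1 a ρ x - Rf i0 i1 a ρ y)
  linarith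

theorem pow_lip (k : ℕ) (B s t : ℝ) (hs : 0 ≤ s) (ht : 0 ≤ t) (hsB : s ≤ B) (htB : t ≤ B) :
    |s ^ k - t ^ k| ≤ (∑ i ∈ Finset.range k, B ^ i * B ^ (k - 1 - i)) * |s - t| := by
  rw [← Commute.geom_sum₂_mul (Commute.all s t) k, abs_mul]
  apply mul_le_mul_of_nonneg_right _ (abs_nonneg _)
  rw [abs_of_nonneg (Finset.sum_nonneg fun i _ => by positivity)]
  apply Finset.sum_le_sum
  intro i _
  apply mul_le_mul (pow_le_pow_left₀ hs hsB _) (pow_le_pow_left₀ ht htB _) (by positivity)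
  exact pow_nonneg (hs.trans hsB) _

theorem exists_ef_lip (hρ : 0 < ρ) (L : ℝ) :
    ∃ C : ℝ, 0 ≤ C ∧ ∀ x y : E n, ‖x‖ ≤ L → ‖y‖ ≤ L →
      |ef i0 i1 k a ρ x - ef i0 i1 k a ρ y| ≤ C * ‖x - y‖ := by
  set B : ℝ := (ρ ^ 2)⁻¹ with hB
  have hB0 : 0 < B := by positivity
  set S : ℝ := ∑ i ∈ Finset.range k, B ^ i * B ^ (k - 1 - i) with hS
  have hS0 : 0 ≤ S := Finset.sum_nonneg fun i _ => by positivity
  refine ⟨S * (B ^ 2 * |2 * (L + ‖a‖) + 2 * ρ|), by positivity, fun x y hx hy => ?_⟩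
  have hAx := Af_pos i0 i1 a ρ x hρ
  have hAy := Af_pos i0 i1 a ρ y hρ
  have hix : (Af i0 i1 a ρ x)⁻¹ ≤ B := inv_anti₀ (by positivity) (sq_le_Af i0 i1 a ρ x)
  have hiy : (Af i0 i1 a ρ y)⁻¹ ≤ B := inv_anti₀ (by positivity) (sq_le_Af i0 i1 a ρ y)
  unfold ef
  rw [zpow_neg_eq, zpow_neg_eq]
  refine (pow_lip k B _ _ (by positivity) (by positivity) hix hiy).trans ?_
  rw [mul_assoc]
  apply mul_le_mul_of_nonneg_left _ hS0
  have e : (Af i0 i1 a ρ x)⁻¹ - (Af i0 i1 a ρ y)⁻¹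
      = (Af i0 i1 a ρ x)⁻¹ * (Af i0 i1 a ρ y)⁻¹ * (Af i0 i1 a ρ y - Af i0 i1 a ρ x) := by
    field_simp
  rw [e, abs_mul, abs_of_nonneg (by positivity), abs_sub_comm]
  have h1 := Af_lip i0 i1 a ρ hρ L x y hx hy
  have h2 : |Af i0 i1 a ρ x - Af i0 i1 a ρ y| ≤ |2 * (L + ‖a‖) + 2 * ρ| * ‖x - y‖ :=
    h1.trans (mul_le_mul_of_nonneg_right (le_abs_self _) (norm_nonneg _))
  have h3 : (Af i0 i1 a ρ x)⁻¹ * (Af i0 i1 a ρ y)⁻¹ ≤ B ^ 2 := by
    rw [sq]
    exact mul_le_mul hix hiy (by positivity) hB0.le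
  calc _ ≤ B ^ 2 * (|2 * (L + ‖a‖) + 2 * ρ| * ‖x - y‖) :=
        mul_le_mul h3 h2 (abs_nonneg _) (by positivity)
    _ = _ := by ring

end lipschitz

end Pool.Agent.Lib.MP_7045fd_an
end

section

set_option autoImplicit false

namespace Pool.Agent.Lib.MP_7045fd_an

open MeasureTheory Filter Topology Metric
open scoped ENNReal

variable {n : ℕ}

section geom

variable (i0 i1 : Fin n) (a : E n) (ρ : ℝ)

theorem Pf_eq_zero_iff (hρ : 0 < ρ) (x : E n) :
    Pf i0 i1 a ρ x = 0 ↔ Nf a x = ρ ^ 2 ∧ x i0 = a i0 ∧ x i1 = a i1 := by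
  unfold Pf
  have hX := Xf_nonneg i0 i1 a x
  constructor
  · intro h
    have h1 : (Nf a x - ρ ^ 2) ^ 2 = 0 := by
      have : 0 ≤ 4 * ρ ^ 2 * Xf i0 i1 a x := by positivity
      nlinarith [sq_nonneg (Nf a x - ρ ^ 2)]
    have h2 : Xf i0 i1 a x = 0 := by
      have h3 : 4 * ρ ^ 2 * Xf i0 i1 a x = 0 := by
        rw [h1] at h; linarith
      rcases mul_eq_zero.1 h3 with h4 | h4
      · exact absurd h4 (by positivity)
      · exact h4
    have h5 : Nf a x - ρ ^ 2 = 0 := pow_eq_zero_iff (two_ne_zero) |>.1 h1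
    unfold Xf at h2
    have h6 : (x i0 - a i0) ^ 2 = 0 := by nlinarith [sq_nonneg (x i0 - a i0), sq_nonneg (x i1 - a i1)]
    have h7 : (x i1 - a i1) ^ 2 = 0 := by nlinarith [sq_nonneg (x i0 - a i0), sq_nonneg (x i1 - a i1)]
    have h8 := pow_eq_zero_iff (two_ne_zero) |>.1 h6
    have h9 := pow_eq_zero_iff (two_ne_zero) |>.1 h7
    exact ⟨by linarith, by linarith, by linarith⟩
  · rintro ⟨h1, h2, h3⟩
    unfold Xf
    rw [h1, h2, h3]
    ring

/-- The nearest point on the sphere. -/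
theorem exists_near (h01 : i0 ≠ i1) (i2 : Fin n) (h20 : i2 ≠ i0) (h21 : i2 ≠ i1) (hρ : 0 < ρ)
    (x : E n) : ∃ y : E n, Pf i0 i1 a ρ y = 0 ∧ ‖x - y‖ ^ 2 * ρ ^ 2 ≤ Pf i0 i1 a ρ x := by
  -- a unit vector orthogonal to the plane, pointing in the direction of `x - a`
  obtain ⟨v, s, hv0, hv1, hvn, hs0, hs2, hin⟩ : ∃ (v : E n) (s : ℝ), v i0 = 0 ∧ v i1 = 0 ∧
      ∑ i, v i ^ 2 = 1 ∧ 0 ≤ s ∧ s ^ 2 = Nf a x - Xf i0 i1 a x ∧
      ∑ i, (x i - a i) * v i = s := by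
    set z : E n := x - a with hz
    set z2 : E n := z - EuclideanSpace.single i0 (z i0) - EuclideanSpace.single i1 (z i1) with hz2
    have hz20 : z2 i0 = 0 := by simp [hz2, h01]
    have hz21 : z2 i1 = 0 := by simp [hz2, h01.symm]
    have hz2i : ∀ i, i ≠ i0 → i ≠ i1 → z2 i = z i := by
      intro i h1 h2
      simp [hz2, h1, h2]
    have hsum : ∀ f g : Fin n → ℝ, (∀ i, i ≠ i0 → i ≠ i1 → f i = g i) →
        ∑ i, f i - f i0 - f i1 = ∑ i, g i - g i0 - g i1 := by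
      intro f g hfg
      have h1 : ∑ i, (f i - g i) = (f i0 - g i0) + (f i1 - g i1) := by
        rw [← Finset.sum_pair h01 (f := fun i => f i - g i)]
        symm
        apply Finset.sum_subset (Finset.subset_univ _)
        intro i _ hi
        simp only [Finset.mem_insert, Finset.mem_singleton, not_or] at hi
        rw [hfg i hi.1 hi.2, sub_self]
      rw [Finset.sum_sub_distrib] at h1
      linarith
    have hn2 : ∑ i, z2 i ^ 2 = Nf a x - Xf i0 i1 a x := by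
      have h1 := hsum (fun i => z2 i ^ 2) (fun i => z i ^ 2) (fun i h1 h2 => by
        simp only; rw [hz2i i h1 h2])
      simp only [hz20, hz21] at h1
      unfold Nf Xf
      have : ∀ i, z i = x i - a i := fun i => by simp [hz]
      simp only [this] at h1
      linarith
    have hnn : 0 ≤ Nf a x - Xf i0 i1 a x := by
      rw [← hn2]; exact Finset.sum_nonneg fun i _ => sq_nonneg _
    have hprod : ∑ i, (x i - a i) * z2 i = Nf a x - Xf i0 i1 a x := by
      rw [← hn2]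
      apply Finset.sum_congr rfl
      intro i _
      by_cases h1 : i = i0
      · rw [h1, hz20]; ring
      · by_cases h2 : i = i1
        · rw [h2, hz21]; ring
        · rw [hz2i i h1 h2]; simp [hz]; ring
    rcases hnn.eq_or_lt with h0 | hpos
    · refine ⟨EuclideanSpace.single i2 1, 0, by simp [h20.symm], by simp [h21.symm], ?_, le_rfl, ?_, ?_⟩
      · simp [ite_pow]
      · rw [← h0]; ring
      · have hz2zero : z2 i2 ^ 2 = 0 := by
          have h1 : ∑ i, z2 i ^ 2 = 0 := by rw [hn2, ← h0]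
          exact (Finset.sum_eq_zero_iff_of_nonneg fun i _ => sq_nonneg _).1 h1 i2 (Finset.mem_univ _)
        have h3 : z2 i2 = 0 := pow_eq_zero_iff (two_ne_zero) |>.1 hz2zero
        have h4 : x i2 - a i2 = 0 := by
          have := hz2i i2 h20 h21
          rw [h3] at this
          simpa [hz] using this.symm
        rw [Finset.sum_eq_single i2]
        · rw [h4]; ring
        · intro b _ hb
          simp [hb]
        · intro h; exact absurd (Finset.mem_univ _) h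
    · set s : ℝ := √(Nf a x - Xf i0 i1 a x) with hs
      have hspos : 0 < s := Real.sqrt_pos.2 hpos
      have hs2 : s ^ 2 = Nf a x - Xf i0 i1 a x := Real.sq_sqrt hnn
      refine ⟨s⁻¹ • z2, s, by simp [hz20], by simp [hz21], ?_, hspos.le, hs2, ?_⟩
      · have : ∀ i, (s⁻¹ • z2) i ^ 2 = (s⁻¹) ^ 2 * z2 i ^ 2 := fun i => by
          simp [mul_pow]
        simp_rw [this]
        rw [← Finset.mul_sum, hn2, ← hs2]
        field_simp
      · have : ∀ i, (x i - a i) * (s⁻¹ • z2) i = s⁻¹ * ((x i - a i) * z2 i) := fun i => by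
          simp; ring
        simp_rw [this]
        rw [← Finset.mul_sum, hprod, ← hs2]
        field_simp
  refine ⟨a + ρ • v, ?_, ?_⟩
  · rw [Pf_eq_zero_iff i0 i1 a ρ hρ]
    refine ⟨?_, by simp [hv0], by simp [hv1]⟩
    unfold Nf
    have : ∀ i, ((a + ρ • v) i - a i) ^ 2 = ρ ^ 2 * v i ^ 2 := fun i => by
      simp; ring
    simp_rw [this]
    rw [← Finset.mul_sum, hvn, mul_one]
  · have h1 : ‖x - (a + ρ • v)‖ ^ 2 = Nf a x - 2 * ρ * s + ρ ^ 2 := by
      rw [EuclideanSpace.norm_sq_eq]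
      have : ∀ i, ‖(x - (a + ρ • v)) i‖ ^ 2
          = (x i - a i) ^ 2 - 2 * ρ * ((x i - a i) * v i) + ρ ^ 2 * v i ^ 2 := fun i => by
        rw [Real.norm_eq_abs, sq_abs]
        simp; ring
      simp_rw [this]
      rw [Finset.sum_add_distrib, Finset.sum_sub_distrib, ← Finset.mul_sum, ← Finset.mul_sum, hin,
        hvn]
      unfold Nf; ring
    rw [h1]
    have hX := Xf_nonneg i0 i1 a x
    set X := Xf i0 i1 a x
    have hN : Nf a x = X + s ^ 2 := by linarith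
    unfold Pf
    rw [hN]
    have e : (X + s ^ 2 - ρ ^ 2) ^ 2 + 4 * ρ ^ 2 * Xf i0 i1 a x
        = (X + (s - ρ) ^ 2) * (X + (s + ρ) ^ 2) := by
      ring
    rw [e]
    have h2 : ρ ^ 2 ≤ X + (s + ρ) ^ 2 := by nlinarith [mul_nonneg hs0 hρ.le]
    have h3 : 0 ≤ X + (s - ρ) ^ 2 := by positivity
    nlinarith [mul_le_mul_of_nonneg_left h2 h3]

/-- Value of the ingredients of the potential on another sphere. -/
theorem Nf_on (h01 : i0 ≠ i1) {b : E n} {σ : ℝ} (hσ : 0 < σ)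
    (hab : ∀ i, i ≠ i0 → i ≠ i1 → a i = b i) {y : E n} (hy : Pf i0 i1 b σ y = 0) :
    Xf i0 i1 a y = (b i0 - a i0) ^ 2 + (b i1 - a i1) ^ 2 ∧
    Nf a y = σ ^ 2 + ((b i0 - a i0) ^ 2 + (b i1 - a i1) ^ 2) := by
  obtain ⟨h1, h2, h3⟩ := (Pf_eq_zero_iff i0 i1 b σ hσ y).1 hy
  constructor
  · unfold Xf
    rw [h2, h3]
  · have hd : ∑ i, ((y i - a i) ^ 2 - (y i - b i) ^ 2)
        = ((y i0 - a i0) ^ 2 - (y i0 - b i0) ^ 2) + ((y i1 - a i1) ^ 2 - (y i1 - b i1) ^ 2) := by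
      rw [← Finset.sum_pair h01 (f := fun i => (y i - a i) ^ 2 - (y i - b i) ^ 2)]
      symm
      apply Finset.sum_subset (Finset.subset_univ _)
      intro i _ hi
      simp only [Finset.mem_insert, Finset.mem_singleton, not_or] at hi
      rw [hab i hi.1 hi.2, sub_self]
    rw [Finset.sum_sub_distrib] at hd
    unfold Nf at h1 ⊢
    rw [h1, h2, h3] at hd
    linarith

end geom

/-- The value of the potential of the sphere of radius `ρ` on a sphere of radius `σ` whose center is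
at squared distance `D` (in the plane). -/
noncomputable def val (k : ℕ) (ρ σ D : ℝ) : ℝ :=
  ((σ ^ 2 + D + ρ ^ 2 + √((σ ^ 2 + D - ρ ^ 2) ^ 2 + 4 * ρ ^ 2 * D)) / 2)⁻¹ ^ k

theorem ef_on (i0 i1 : Fin n) (h01 : i0 ≠ i1) (k : ℕ) (a : E n) (ρ : ℝ) {b : E n} {σ : ℝ}
    (hσ : 0 < σ) (hab : ∀ i, i ≠ i0 → i ≠ i1 → a i = b i) {y : E n} (hy : Pf i0 i1 b σ y = 0) :
    ef i0 i1 k a ρ y = val k ρ σ ((b i0 - a i0) ^ 2 + (b i1 - a i1) ^ 2) := by
  obtain ⟨h1, h2⟩ := Nf_on i0 i1 a h01 hσ hab hy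
  unfold ef val
  rw [zpow_neg_eq]
  unfold Af Rf Pf
  rw [h1, h2]

end Pool.Agent.Lib.MP_7045fd_an
end

section

set_option autoImplicit false

namespace Pool.Agent.Lib.MP_7045fd_an

open MeasureTheory Filter Topology Metric
open scoped ENNReal

variable {n : ℕ}

/-- The class of functions generated by test functions and potentials. -/
structure Good (O : Set (E n)) (k : ℕ) (u : E n → ℝ) : Prop where
  cont : Continuous u
  sm : ∀ x ∈ O, ContDiffAt ℝ (⊤ : ℕ∞) u x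
  gr : ∃ C : ℝ, 0 ≤ C ∧ ∀ x ∈ O, gam u u x ≤ C * wt x ^ (2 * k + 1)
  dec : ∃ C : ℝ, 0 ≤ C ∧ ∀ x, u x ^ 2 ≤ C * wt x ^ (2 * k)
  lp : MemLp (lap u) 2 volume
  lip : ∀ L : ℝ, ∃ C : ℝ, 0 ≤ C ∧ ∀ x y, ‖x‖ ≤ L → ‖y‖ ≤ L → |u x - u y| ≤ C * ‖x - y‖

theorem gam_add_self_le {f g : E n → ℝ} {x : E n} (hf : DifferentiableAt ℝ f x)
    (hg : DifferentiableAt ℝ g x) :
    gam (fun y => f y + g y) (fun y => f y + g y) x ≤ 2 * gam f f x + 2 * gam g g x := by
  have e : gam (fun y => f y + g y) (fun y => f y + g y) x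
      = gam f f x + 2 * gam f g x + gam g g x := by
    rw [gam_add_right hf hg, gam_comm, gam_add_right hf hg, gam_comm (f := fun y => f y + g y),
      gam_add_right hf hg, gam_comm (f := g) (g := f)]
    ring
  have h3 : 0 ≤ gam (fun y => f y - g y) (fun y => f y - g y) x := gam_self_nonneg
  have e3 : gam (fun y => f y - g y) (fun y => f y - g y) x
      = gam f f x - 2 * gam f g x + gam g g x := by
    rw [gam_sub_right hf hg, gam_comm, gam_sub_right hf hg, gam_comm (f := fun y => f y - g y),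
      gam_sub_right hf hg, gam_comm (f := g) (g := f)]
    ring
  rw [e]
  linarith

theorem Good.add {O : Set (E n)} {k : ℕ} {u v : E n → ℝ} (hO : ∀ᵐ x, x ∈ O)
    (hu : Good O k u) (hv : Good O k v) : Good O k (fun x => u x + v x) := by
  obtain ⟨C1, hC1, h1⟩ := hu.gr
  obtain ⟨C2, hC2, h2⟩ := hv.gr
  obtain ⟨D1, hD1, h3⟩ := hu.dec
  obtain ⟨D2, hD2, h4⟩ := hv.dec
  refine ⟨hu.cont.add hv.cont, fun x hx => (hu.sm x hx).add (hv.sm x hx),
    ⟨2 * C1 + 2 * C2, by positivity, fun x hx => ?_⟩,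
    ⟨2 * D1 + 2 * D2, by positivity, fun x => ?_⟩, ?_, fun L => ?_⟩
  · refine (gam_add_self_le ((hu.sm x hx).differentiableAt (by simp))
      ((hv.sm x hx).differentiableAt (by simp))).trans ?_
    have a1 := h1 x hx
    have a2 := h2 x hx
    linarith
  · have a1 := h3 x
    have a2 := h4 x
    nlinarith [sq_nonneg (u x - v x)]
  · refine (hu.lp.add hv.lp).ae_eq ?_
    filter_upwards [hO] with x hx
    rw [lap_add (contDiffAt_infty.1 (hu.sm x hx) 2) (contDiffAt_infty.1 (hv.sm x hx) 2)]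
    rfl
  · obtain ⟨K1, hK1, h5⟩ := hu.lip L
    obtain ⟨K2, hK2, h6⟩ := hv.lip L
    refine ⟨K1 + K2, by positivity, fun x y hx hy => ?_⟩
    have e : u x + v x - (u y + v y) = (u x - u y) + (v x - v y) := by ring
    rw [e]
    calc _ ≤ |u x - u y| + |v x - v y| := abs_add_le _ _
      _ ≤ K1 * ‖x - y‖ + K2 * ‖x - y‖ := add_le_add (h5 x y hx hy) (h6 x y hx hy)
      _ = _ := by ring

theorem Good.const_mul {O : Set (E n)} {k : ℕ} {u : E n → ℝ} (hO : ∀ᵐ x, x ∈ O)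
    (hu : Good O k u) (c : ℝ) : Good O k (fun x => c * u x) := by
  obtain ⟨C1, hC1, h1⟩ := hu.gr
  obtain ⟨D1, hD1, h3⟩ := hu.dec
  refine ⟨continuous_const.mul hu.cont, fun x hx => contDiffAt_const.mul (hu.sm x hx),
    ⟨c ^ 2 * C1, by positivity, fun x hx => ?_⟩,
    ⟨c ^ 2 * D1, by positivity, fun x => ?_⟩, ?_, fun L => ?_⟩
  · have hd := (hu.sm x hx).differentiableAt (by simp)
    rw [gam_const_mul_right c hd, gam_comm, gam_const_mul_right c hd]
    have := mul_le_mul_of_nonneg_left (h1 x hx) (sq_nonneg c)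
    linarith
  · have := mul_le_mul_of_nonneg_left (h3 x) (sq_nonneg c)
    calc (c * u x) ^ 2 = c ^ 2 * u x ^ 2 := by ring
      _ ≤ _ := this
      _ = _ := by ring
  · refine (hu.lp.const_mul c).ae_eq ?_
    filter_upwards [hO] with x hx
    rw [lap_const_mul c (contDiffAt_infty.1 (hu.sm x hx) 2)]
  · obtain ⟨K1, hK1, h5⟩ := hu.lip L
    refine ⟨|c| * K1, by positivity, fun x y hx hy => ?_⟩
    have e : c * u x - c * u y = c * (u x - u y) := by ring
    rw [e, abs_mul, mul_assoc]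
    exact mul_le_mul_of_nonneg_left (h5 x y hx hy) (abs_nonneg _)

theorem exists_le_wt_pow {f : E n → ℝ} (hf : Continuous f) (hc : HasCompactSupport f) (m : ℕ) :
    ∃ C : ℝ, 0 ≤ C ∧ ∀ x, f x ≤ C * wt x ^ m := by
  have hg : Continuous (fun x => f x / wt x ^ m) :=
    hf.div (continuous_wt.pow m) fun x => (pow_pos (wt_pos x) m).ne'
  have hgc : HasCompactSupport (fun x => f x / wt x ^ m) := by
    have : (fun x => f x / wt x ^ m) = fun x => f x * (wt x ^ m)⁻¹ := by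
      funext x; rw [div_eq_mul_inv]
    rw [this]
    exact hc.mul_right
  obtain ⟨C, hC⟩ := hgc.exists_bound_of_continuous hg
  refine ⟨|C|, abs_nonneg _, fun x => ?_⟩
  have hw := pow_pos (wt_pos x) m
  have h1 : f x / wt x ^ m ≤ |C| := (le_abs_self _).trans ((hC x).trans (le_abs_self _))
  rwa [div_le_iff₀ hw] at h1

theorem IsTest.good {O : Set (E n)} {k : ℕ} {φ : E n → ℝ} (h : IsTest Set.univ φ) :
    Good O k φ := by
  have hgc : Continuous (gam φ φ) := by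
    unfold gam
    exact continuous_finsetSum _ fun i _ =>
      (contDiff_pd_top h.1).continuous.mul (contDiff_pd_top h.1).continuous
  have hgs : HasCompactSupport (gam φ φ) := by
    apply HasCompactSupport.of_support_subset_isCompact h.2.1
    intro x hx
    by_contra hcon
    apply hx
    have h1 : φ =ᶠ[𝓝 x] fun _ => 0 := notMem_tsupport_iff_eventuallyEq.1 hcon
    rw [gam_congr (EventuallyEq.refl _ _) h1, gam_const_right]
  have hsq : HasCompactSupport (fun x => φ x ^ 2) := by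
    have : (fun x => φ x ^ 2) = fun x => φ x * φ x := by funext x; ring
    rw [this]
    exact h.2.1.mul_right
  obtain ⟨C1, hC1, h1⟩ := exists_le_wt_pow hgc hgs (2 * k + 1)
  obtain ⟨C2, hC2, h2⟩ := exists_le_wt_pow (h.continuous.pow 2) hsq (2 * k)
  refine ⟨h.continuous, fun x _ => h.1.contDiffAt, ⟨C1, hC1, fun x _ => h1 x⟩,
    ⟨C2, hC2, h2⟩, h.memLp_lap, fun L => ?_⟩
  obtain ⟨K, hK⟩ := (contDiff_infty.1 h.1 1).lipschitzWith_of_hasCompactSupport h.2.1 (by norm_num)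
  refine ⟨K, K.2, fun x y _ _ => ?_⟩
  have := hK.dist_le_mul x y
  rwa [Real.dist_eq, dist_eq_norm] at this

theorem good_ef (i0 i1 : Fin n) (h01 : i0 ≠ i1) (k : ℕ) (hk : 1 ≤ k) (hn : n = 2 * k + 4)
    (a : E n) (ρ : ℝ) (hρ : 0 < ρ) {O : Set (E n)} (hO : ∀ x ∈ O, 0 < Pf i0 i1 a ρ x) :
    Good O k (ef i0 i1 k a ρ) := by
  obtain ⟨C1, h1⟩ := exists_gam_ef_le i0 i1 k a ρ h01 hρ
  obtain ⟨C2, h2⟩ := exists_ef_sq_le i0 i1 k a ρ hρ
  refine ⟨continuous_ef i0 i1 a ρ k hρ, fun x hx => contDiffAt_ef i0 i1 a ρ x k hρ (hO x hx),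
    ⟨|C1|, abs_nonneg _, fun x hx => ?_⟩, ⟨|C2|, abs_nonneg _, fun x => ?_⟩,
    memLp_lap_ef i0 i1 k a ρ h01 hk hn hρ, fun L => exists_ef_lip i0 i1 k a ρ hρ L⟩
  · exact (h1 x (hO x hx)).trans (mul_le_mul_of_nonneg_right (le_abs_self _)
      (pow_nonneg (wt_pos x).le _))
  · exact (h2 x).trans (mul_le_mul_of_nonneg_right (le_abs_self _) (pow_nonneg (wt_pos x).le _))

/-- Functions of the class vanishing on the spheres are limits of test functions. -/
theorem Good.rep (i0 i1 i2 : Fin n) (h01 : i0 ≠ i1) (h20 : i2 ≠ i0) (h21 : i2 ≠ i1) (k : ℕ)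
    (hk : 1 ≤ k) (hn : n = 2 * k + 4) (l : List (E n × ℝ)) (hl : ∀ s ∈ l, 0 < s.2)
    {u : E n → ℝ} (hu : Good (offS i0 i1 l) k u)
    (hv : ∀ s ∈ l, ∀ y, Pf i0 i1 s.1 s.2 y = 0 → u y = 0) :
    Rep (offS i0 i1 l) u (lap u) := by
  obtain ⟨C1, _, h1⟩ := hu.gr
  obtain ⟨C2, _, h2⟩ := hu.dec
  apply rep_main i0 i1 h01 k hk hn l hl u hu.cont hu.sm _ ⟨C1, h1⟩ ⟨C2, h2⟩ hu.lp
  intro s hs L
  have hρ := hl s hs
  set L' : ℝ := max L (‖s.1‖ + 2 * s.2) with hL'
  obtain ⟨K, hK, h3⟩ := hu.lip L'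
  refine ⟨K ^ 2 / s.2 ^ 2, fun x hx => ?_⟩
  obtain ⟨y, hy1, hy2⟩ := exists_near i0 i1 s.1 s.2 h01 i2 h20 h21 hρ x
  have hx' : ‖x‖ ≤ L' := (mem_ball_zero_iff.1 hx).le.trans (le_max_left _ _)
  have hy' : ‖y‖ ≤ L' := by
    refine le_trans ?_ (le_max_right _ _)
    by_contra hcon
    exact (exists_far i0 i1 s.1 s.2 hρ y (not_le.1 hcon).le).ne' hy1
  have h4 := h3 x y hx' hy'
  rw [hv s hs y hy1, sub_zero] at h4
  have h5 : u x ^ 2 ≤ (K * ‖x - y‖) ^ 2 := by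
    rw [← sq_abs]
    exact pow_le_pow_left₀ (abs_nonneg _) h4 2
  have h6 : ‖x - y‖ ^ 2 ≤ Pf i0 i1 s.1 s.2 x / s.2 ^ 2 := by
    rw [le_div_iff₀ (by positivity)]; exact hy2
  calc u x ^ 2 ≤ (K * ‖x - y‖) ^ 2 := h5
    _ = K ^ 2 * ‖x - y‖ ^ 2 := by ring
    _ ≤ K ^ 2 * (Pf i0 i1 s.1 s.2 x / s.2 ^ 2) := mul_le_mul_of_nonneg_left h6 (sq_nonneg _)
    _ = _ := by ring

end Pool.Agent.Lib.MP_7045fd_an
end

section

set_option autoImplicit false

namespace Pool.Agent.Lib.MP_7045fd_an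

open MeasureTheory Filter Topology Metric
open scoped ENNReal InnerProductSpace

variable {n : ℕ}

section rellich

theorem wt_eq : (wt : E n → ℝ) = fun x => (Nf 0 x + 1) ^ (-1 : ℤ) := by
  funext x
  rw [Nf_zero, zpow_neg_one, wt, add_comm]

theorem contDiff_wt {m : WithTop ℕ∞} : ContDiff ℝ m (wt : E n → ℝ) := by
  rw [wt_eq, contDiff_iff_contDiffAt]
  intro x
  apply contDiffAt_zpow ((contDiff_Nf 0).add contDiff_const).contDiffAt
  have := Nf_nonneg 0 x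
  positivity

theorem lap_wt_le (hn : 4 ≤ n) (x : E n) :
    lap (wt : E n → ℝ) x ≤ -(2 * (n - 4)) * wt x ^ 2 := by
  have hN := Nf_nonneg 0 x
  have hpos : 0 < Nf 0 x + 1 := by positivity
  have hc : ContDiffAt ℝ 2 (fun y : E n => Nf 0 y + 1) x :=
    ((contDiff_Nf 0).add contDiff_const).contDiffAt
  have hcN : ContDiffAt ℝ 2 (Nf (0 : E n)) x := (contDiff_Nf 0).contDiffAt
  have e1 : lap (fun y : E n => Nf 0 y + 1) x = 2 * n := by
    rw [lap_add hcN contDiffAt_const, lap_const, lap_N]; ring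
  have e2 : gam (fun y : E n => Nf 0 y + 1) (fun y => Nf 0 y + 1) x = 4 * Nf 0 x := by
    rw [gam_add_right (diff_of hcN) (differentiableAt_const _), gam_const_right, gam_comm,
      gam_add_right (diff_of hcN) (differentiableAt_const _), gam_const_right, gam_NN]
    ring
  rw [wt_eq, lap_zpow hc hpos.ne', e1, e2]
  have h2 : (Nf 0 x + 1) ^ (-1 - 1 : ℤ) = 1 / (Nf 0 x + 1) ^ 2 := by
    norm_num [zpow_neg]
  have h3 : (Nf 0 x + 1) ^ (-1 - 2 : ℤ) = 1 / (Nf 0 x + 1) ^ 3 := by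
    norm_num [zpow_neg]
  rw [h2, h3]
  simp only [zpow_neg_one]
  push_cast
  rw [← sub_nonneg]
  have e : -(2 * ((n : ℝ) - 4)) * (Nf 0 x + 1)⁻¹ ^ 2
      - (-1 * (1 / (Nf 0 x + 1) ^ 2) * (2 * n) + -1 * (-1 - 1) * (1 / (Nf 0 x + 1) ^ 3)
        * (4 * Nf 0 x)) = 8 / (Nf 0 x + 1) ^ 3 := by
    field_simp
    ring
  rw [e]
  positivity

/-- A Rellich type inequality. -/
theorem rellich (hn : 5 ≤ n) {φ : E n → ℝ} (h : IsTest Set.univ φ) :
    ∫ x, (wt x * φ x) ^ 2 ≤ ∫ x, lap φ x ^ 2 := by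
  have hφc := h.continuous
  have hlc := h.continuous_lap
  have hφ2 : ∀ x, ContDiffAt ℝ 2 φ x := fun x => (contDiff_infty.1 h.1 2).contDiffAt
  have hsq : ContDiff ℝ (⊤ : ℕ∞) (fun x => φ x * φ x) := h.1.mul h.1
  have hsqc : HasCompactSupport (fun x => φ x * φ x) := h.2.1.mul_right
  have hgreen := green (g := wt) hsq hsqc (fun x _ => contDiff_wt.contDiffAt)
  have hgc : Continuous (gam φ φ) := by
    unfold gam
    exact continuous_finsetSum _ fun i _ =>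
      (contDiff_pd_top h.1).continuous.mul (contDiff_pd_top h.1).continuous
  have i0 : Integrable (fun x => wt x * φ x * lap φ x) :=
    ((continuous_wt.mul hφc).mul hlc).integrable_of_hasCompactSupport (hcs_lap h.2.1).mul_left
  have i1 : Integrable (fun x => (wt x * φ x) ^ 2) := h.memLp_wt.integrable_sq
  have i2 : Integrable (fun x => lap φ x ^ 2) := h.memLp_lap.integrable_sq
  have hlw : Continuous (lap (wt : E n → ℝ)) := (contDiff_lap_top contDiff_wt).continuous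
  have i3 : Integrable (fun x => lap wt x * (φ x * φ x)) :=
    (hlw.mul (hφc.mul hφc)).integrable_of_hasCompactSupport hsqc.mul_left
  have i4 : Integrable (fun x => wt x * lap (fun y => φ y * φ y) x) :=
    (continuous_wt.mul (contDiff_lap_top hsq).continuous).integrable_of_hasCompactSupport
      (hcs_lap hsqc).mul_left
  have hn' : (5:ℝ) ≤ n := by exact_mod_cast hn
  -- pointwise inequality
  have hpt : ∀ x, wt x * lap (fun y => φ y * φ y) x ≥ 2 * (wt x * φ x * lap φ x) := by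
    intro x
    rw [lap_mul (hφ2 x) (hφ2 x)]
    have h1 : 0 ≤ gam φ φ x := gam_self_nonneg
    have h2 := wt_pos x
    nlinarith [mul_nonneg h2.le h1]
  have hpt2 : ∀ x, lap wt x * (φ x * φ x) ≤ -2 * (wt x * φ x) ^ 2 := by
    intro x
    have h1 := lap_wt_le (by omega : 4 ≤ n) x
    have h2 : 0 ≤ φ x * φ x := mul_self_nonneg _
    have h3 : -(2 * ((n : ℝ) - 4)) * wt x ^ 2 ≤ -2 * wt x ^ 2 := by
      nlinarith [sq_nonneg (wt x)]
    calc lap wt x * (φ x * φ x) ≤ (-2 * wt x ^ 2) * (φ x * φ x) :=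
          mul_le_mul_of_nonneg_right (h1.trans h3) h2
      _ = _ := by ring
  have s1 : 2 * ∫ x, wt x * φ x * lap φ x ≤ ∫ x, wt x * lap (fun y => φ y * φ y) x := by
    rw [← integral_const_mul]
    exact integral_mono (i0.const_mul 2) i4 hpt
  have s2 : ∫ x, lap wt x * (φ x * φ x) ≤ -2 * ∫ x, (wt x * φ x) ^ 2 := by
    rw [← integral_const_mul]
    exact integral_mono i3 (i1.const_mul (-2)) hpt2
  have s3 : ∫ x, (wt x * φ x) ^ 2 ≤ - ∫ x, wt x * φ x * lap φ x := by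
    rw [hgreen] at s1
    linarith
  have s4 : - ∫ x, wt x * φ x * lap φ x
      ≤ ∫ x, ((1 / 2 : ℝ) * (wt x * φ x) ^ 2 + (1 / 2 : ℝ) * lap φ x ^ 2) := by
    rw [← integral_neg]
    apply integral_mono i0.neg ((i1.const_mul _).add (i2.const_mul _))
    intro x
    simp only [Pi.add_apply, Pi.neg_apply]
    nlinarith [sq_nonneg (wt x * φ x + lap φ x)]
  rw [integral_add (i1.const_mul _) (i2.const_mul _), integral_const_mul, integral_const_mul] at s4
  linarith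

theorem eLpNorm_sq_eq {f : E n → ℝ} (hf : MemLp f 2 volume) :
    eLpNorm f 2 volume = ENNReal.ofReal (√(∫ x, f x ^ 2)) := by
  rw [hf.eLpNorm_eq_integral_rpow_norm (by norm_num) (by norm_num)]
  congr 1
  simp only [ENNReal.toReal_ofNat]
  rw [Real.sqrt_eq_rpow]
  congr 1
  · congr 1
    funext x
    simp
  · norm_num

theorem rellich_norm (hn : 5 ≤ n) {φ : E n → ℝ} (h : IsTest Set.univ φ) :
    eLpNorm (fun x => wt x * φ x) 2 volume ≤ eLpNorm (lap φ) 2 volume := by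
  rw [eLpNorm_sq_eq h.memLp_wt, eLpNorm_sq_eq h.memLp_lap]
  exact ENNReal.ofReal_le_ofReal (Real.sqrt_le_sqrt (rellich hn h))

end rellich

section tests

theorem IsTest.add {U : Set (E n)} {φ ψ : E n → ℝ} (h : IsTest U φ) (h' : IsTest U ψ) :
    IsTest U (fun x => φ x + ψ x) :=
  ⟨h.1.add h'.1, h.2.1.add h'.2.1,
    (closure_mono (Function.support_add _ _)).trans
      (by rw [closure_union]; exact Set.union_subset h.2.2 h'.2.2)⟩

theorem IsTest.const_mul {U : Set (E n)} {φ : E n → ℝ} (h : IsTest U φ) (c : ℝ) :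
    IsTest U (fun x => c * φ x) :=
  ⟨contDiff_const.mul h.1, h.2.1.mul_left,
    (closure_mono (Function.support_mul_subset_right _ _)).trans h.2.2⟩

theorem IsTest.sub {U : Set (E n)} {φ ψ : E n → ℝ} (h : IsTest U φ) (h' : IsTest U ψ) :
    IsTest U (fun x => φ x - ψ x) := by
  have := h.add (h'.const_mul (-1))
  refine (by
    have e : (fun x => φ x - ψ x) = fun x => φ x + -1 * ψ x := by funext x; ring
    rw [e]; exact this)

theorem IsTest.zero {U : Set (E n)} : IsTest U (fun _ => 0) := by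
  refine ⟨contDiff_const, HasCompactSupport.zero, ?_⟩
  have : tsupport (fun _ : E n => (0:ℝ)) = ∅ := by
    rw [tsupport_eq_empty_iff]; rfl
  rw [this]; exact Set.empty_subset _

theorem lap_add' {φ ψ : E n → ℝ} (h : ContDiff ℝ (⊤ : ℕ∞) φ) (h' : ContDiff ℝ (⊤ : ℕ∞) ψ) :
    lap (fun x => φ x + ψ x) = fun x => lap φ x + lap ψ x := by
  funext x
  exact lap_add (contDiff_infty.1 h 2).contDiffAt (contDiff_infty.1 h' 2).contDiffAt

theorem lap_sub' {φ ψ : E n → ℝ} (h : ContDiff ℝ (⊤ : ℕ∞) φ) (h' : ContDiff ℝ (⊤ : ℕ∞) ψ) :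
    lap (fun x => φ x - ψ x) = fun x => lap φ x - lap ψ x := by
  funext x
  exact lap_sub (contDiff_infty.1 h 2).contDiffAt (contDiff_infty.1 h' 2).contDiffAt

theorem lap_const_mul' {φ : E n → ℝ} (h : ContDiff ℝ (⊤ : ℕ∞) φ) (c : ℝ) :
    lap (fun x => c * φ x) = fun x => c * lap φ x := by
  funext x
  exact lap_const_mul c (contDiff_infty.1 h 2).contDiffAt

end tests

section hilbert

/-- The Hilbert space `L²`. -/
noncomputable abbrev L2 (n : ℕ) := Lp ℝ 2 (volume : Measure (E n))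

/-- The space of Laplacians of test functions. -/
noncomputable def VS (U : Set (E n)) : Submodule ℝ (L2 n) where
  carrier := {g | ∃ φ, IsTest U φ ∧ g =ᵐ[volume] lap φ}
  zero_mem' := by
    refine ⟨fun _ => 0, IsTest.zero, ?_⟩
    filter_upwards [Lp.coeFn_zero ℝ 2 (volume : Measure (E n))] with x hx
    rw [hx, lap_const]; rfl
  add_mem' := by
    rintro g h ⟨φ, h1, h2⟩ ⟨ψ, h3, h4⟩
    refine ⟨fun x => φ x + ψ x, h1.add h3, ?_⟩
    filter_upwards [Lp.coeFn_add g h, h2, h4] with x e1 e2 e3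
    rw [e1, Pi.add_apply, e2, e3, lap_add' h1.1 h3.1]
  smul_mem' := by
    rintro c g ⟨φ, h1, h2⟩
    refine ⟨fun x => c * φ x, h1.const_mul c, ?_⟩
    filter_upwards [Lp.coeFn_smul c g, h2] with x e1 e2
    rw [e1, Pi.smul_apply, e2, lap_const_mul' h1.1]; rfl

/-- Its closure. -/
noncomputable def MS (U : Set (E n)) : Submodule ℝ (L2 n) := (VS U).topologicalClosure

theorem VS_le_MS (U : Set (E n)) : VS U ≤ MS U := Submodule.le_topologicalClosure _

theorem VS_mono {U V : Set (E n)} (h : U ⊆ V) : VS U ≤ VS V := by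
  rintro g ⟨φ, h1, h2⟩
  exact ⟨φ, h1.mono h, h2⟩

theorem MS_mono {U V : Set (E n)} (h : U ⊆ V) : MS U ≤ MS V :=
  Submodule.topologicalClosure_mono (VS_mono h)

instance (U : Set (E n)) : CompleteSpace (MS U) :=
  (Submodule.isClosed_topologicalClosure (VS U)).completeSpace_coe

theorem toLp_mem_VS {U : Set (E n)} {φ : E n → ℝ} (h : IsTest U φ) :
    h.memLp_lap.toLp (lap φ) ∈ VS U := ⟨φ, h, h.memLp_lap.coeFn_toLp⟩

theorem real_inner_def (f g : L2 n) : ⟪f, g⟫_ℝ = ∫ x, f x * g x := by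
  rw [L2.inner_def]
  congr 1
  funext x
  simp [mul_comm]

theorem inner_toLp {f g : E n → ℝ} (hf : MemLp f 2 volume) (hg : MemLp g 2 volume) :
    ⟪hf.toLp f, hg.toLp g⟫_ℝ = ∫ x, f x * g x := by
  rw [real_inner_def]
  apply integral_congr_ae
  filter_upwards [hf.coeFn_toLp, hg.coeFn_toLp] with x h1 h2
  rw [h1, h2]

theorem rep_mem_MS {U : Set (E n)} {u g : E n → ℝ} (hg : MemLp g 2 volume) (h : Rep U u g) :
    hg.toLp g ∈ MS U := by
  show hg.toLp g ∈ closure (VS U : Set (L2 n))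
  rw [Metric.mem_closure_iff]
  intro ε hε
  obtain ⟨φ, h1, h2, -⟩ := h (ENNReal.ofReal (ε / 2)) (by
    rw [Ne, ENNReal.ofReal_eq_zero, not_le]; positivity)
  refine ⟨_, toLp_mem_VS h1, ?_⟩
  rw [dist_comm, Lp.dist_def]
  have e : eLpNorm (⇑(h1.memLp_lap.toLp (lap φ)) - ⇑(hg.toLp g)) 2 volume
      = eLpNorm (fun x => lap φ x - g x) 2 volume := by
    apply eLpNorm_congr_ae
    filter_upwards [h1.memLp_lap.coeFn_toLp, hg.coeFn_toLp] with x e1 e2
    rw [Pi.sub_apply, e1, e2]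
  rw [e]
  calc (eLpNorm (fun x => lap φ x - g x) 2 volume).toReal
      ≤ (ENNReal.ofReal (ε / 2)).toReal := ENNReal.toReal_mono ENNReal.ofReal_ne_top h2
    _ = ε / 2 := ENNReal.toReal_ofReal (by positivity)
    _ < ε := by linarith

/-- Comparison of two represented pairs. -/
theorem rep_compare (hn : 5 ≤ n) {U V : Set (E n)} {u g v h : E n → ℝ}
    (hu : Measurable u) (hg : Measurable g) (hv : Measurable v) (hh : Measurable h)
    (h1 : Rep U u g) (h2 : Rep V v h) :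
    eLpNorm (fun x => wt x * (u x - v x)) 2 volume ≤ eLpNorm (fun x => g x - h x) 2 volume := by
  apply ENNReal.le_of_forall_pos_le_add
  intro ε hε _
  have hε4 : ((ε / 4 : NNReal) : ℝ≥0∞) ≠ 0 := by
    have : (0 : NNReal) < ε / 4 := by positivity
    exact_mod_cast this.ne'
  obtain ⟨φ, a1, a2, a3⟩ := h1 _ hε4
  obtain ⟨ψ, b1, b2, b3⟩ := h2 _ hε4
  have hmw : Measurable (wt : E n → ℝ) := continuous_wt.measurable
  have mφ := a1.continuous.measurable
  have mψ := b1.continuous.measurable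
  have a1' : IsTest Set.univ φ := a1.mono (Set.subset_univ _)
  have b1' : IsTest Set.univ ψ := b1.mono (Set.subset_univ _)
  have hR := rellich_norm hn (a1'.sub b1')
  rw [lap_sub' a1.1 b1.1] at hR
  have n1 : eLpNorm (fun x => wt x * (u x - φ x)) 2 volume
      = eLpNorm (fun x => wt x * (φ x - u x)) 2 volume := by
    rw [← eLpNorm_neg]
    congr 1
    funext x
    simp only [Pi.neg_apply]
    ring
  have n2 : eLpNorm (fun x => h x - lap ψ x) 2 volume
      = eLpNorm (fun x => lap ψ x - h x) 2 volume := by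
    rw [← eLpNorm_neg]
    congr 1
    funext x
    simp only [Pi.neg_apply]
    ring
  have t1 : eLpNorm (fun x => wt x * (u x - v x)) 2 volume
      ≤ eLpNorm (fun x => wt x * (u x - φ x)) 2 volume
        + (eLpNorm (fun x => wt x * (φ x - ψ x)) 2 volume
          + eLpNorm (fun x => wt x * (ψ x - v x)) 2 volume) := by
    have e : (fun x => wt x * (u x - v x)) = (fun x => wt x * (u x - φ x))
        + ((fun x => wt x * (φ x - ψ x)) + fun x => wt x * (ψ x - v x)) := by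
      funext x; simp only [Pi.add_apply]; ring
    rw [e]
    have m1 : AEStronglyMeasurable (fun x => wt x * (u x - φ x)) (volume : Measure (E n)) :=
      (hmw.mul (hu.sub mφ)).aestronglyMeasurable
    have m2 : AEStronglyMeasurable (fun x => wt x * (φ x - ψ x)) (volume : Measure (E n)) :=
      (hmw.mul (mφ.sub mψ)).aestronglyMeasurable
    have m3 : AEStronglyMeasurable (fun x => wt x * (ψ x - v x)) (volume : Measure (E n)) :=
      (hmw.mul (mψ.sub hv)).aestronglyMeasurable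
    refine (eLpNorm_add_le m1 (m2.add m3) (by norm_num)).trans ?_
    exact add_le_add le_rfl (eLpNorm_add_le m2 m3 (by norm_num))
  have t2 : eLpNorm (fun x => lap φ x - lap ψ x) 2 volume
      ≤ eLpNorm (fun x => lap φ x - g x) 2 volume
        + (eLpNorm (fun x => g x - h x) 2 volume
          + eLpNorm (fun x => h x - lap ψ x) 2 volume) := by
    have e : (fun x => lap φ x - lap ψ x) = (fun x => lap φ x - g x)
        + ((fun x => g x - h x) + fun x => h x - lap ψ x) := by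
      funext x; simp only [Pi.add_apply]; ring
    rw [e]
    have m1 : AEStronglyMeasurable (fun x => lap φ x - g x) (volume : Measure (E n)) :=
      ((measurable_lap φ).sub hg).aestronglyMeasurable
    have m2 : AEStronglyMeasurable (fun x => g x - h x) (volume : Measure (E n)) :=
      (hg.sub hh).aestronglyMeasurable
    have m3 : AEStronglyMeasurable (fun x => h x - lap ψ x) (volume : Measure (E n)) :=
      (hh.sub (measurable_lap ψ)).aestronglyMeasurable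
    refine (eLpNorm_add_le m1 (m2.add m3) (by norm_num)).trans ?_
    exact add_le_add le_rfl (eLpNorm_add_le m2 m3 (by norm_num))
  rw [n1] at t1
  rw [n2] at t2
  calc eLpNorm (fun x => wt x * (u x - v x)) 2 volume
      ≤ _ := t1
    _ ≤ ((ε / 4 : NNReal) : ℝ≥0∞) + ((((ε / 4 : NNReal) : ℝ≥0∞) +
          (eLpNorm (fun x => g x - h x) 2 volume + ((ε / 4 : NNReal) : ℝ≥0∞)))
          + ((ε / 4 : NNReal) : ℝ≥0∞)) := by
        apply add_le_add a3
        apply add_le_add _ b3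
        refine hR.trans (t2.trans ?_)
        exact add_le_add a2 (add_le_add le_rfl b2)
    _ = eLpNorm (fun x => g x - h x) 2 volume + (((ε / 4 : NNReal) : ℝ≥0∞)
          + ((ε / 4 : NNReal) : ℝ≥0∞) + ((ε / 4 : NNReal) : ℝ≥0∞) + ((ε / 4 : NNReal) : ℝ≥0∞)) := by
        ring
    _ = eLpNorm (fun x => g x - h x) 2 volume + ε := by
        congr 1
        norm_cast
        ring

end hilbert

end Pool.Agent.Lib.MP_7045fd_an
end

section

set_option autoImplicit false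

namespace Pool.Agent.Lib.MP_7045fd_an

open MeasureTheory Filter Topology Metric
open scoped ENNReal InnerProductSpace

variable {n : ℕ}

theorem inner_eq_zero_of_MS {U : Set (E n)} {w : L2 n}
    (h : ∀ ψ (hψ : IsTest U ψ), ⟪w, hψ.memLp_lap.toLp (lap ψ)⟫_ℝ = 0) {m : L2 n} (hm : m ∈ MS U) :
    ⟪w, m⟫_ℝ = 0 := by
  have hcl : IsClosed {m : L2 n | ⟪w, m⟫_ℝ = 0} :=
    isClosed_eq (continuous_const.inner continuous_id) continuous_const
  have hsub : (VS U : Set (L2 n)) ⊆ {m : L2 n | ⟪w, m⟫_ℝ = 0} := by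
    rintro g ⟨ψ, h1, h2⟩
    have e : g = h1.memLp_lap.toLp (lap ψ) := by
      apply Lp.ext
      exact h2.trans h1.memLp_lap.coeFn_toLp.symm
    show ⟪w, g⟫_ℝ = 0
    rw [e]; exact h ψ h1
  exact closure_minimal hsub hcl hm

theorem lintegral_enorm_sq (F : E n → ℝ) :
    ∫⁻ x, ‖F x‖ₑ ^ 2 = (eLpNorm F 2 volume) ^ 2 := by
  rw [eLpNorm_eq_lintegral_rpow_enorm_toReal (by norm_num) (by norm_num)]
  simp only [ENNReal.toReal_ofNat]
  rw [← ENNReal.rpow_natCast, ← ENNReal.rpow_mul]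
  norm_num

/-- Existence of the solution with data `θ` (projection). -/
theorem exists_solution (hn : 5 ≤ n) (Ω : Set (E n)) {θ : E n → ℝ} (hθ : IsTest Set.univ θ) :
    ∃ (φ : ℕ → E n → ℝ) (u g : E n → ℝ), Measurable u ∧ Measurable g ∧ MemLp g 2 volume ∧
      (∀ k, IsTest Ω (φ k)) ∧
      (∀ ε : ℝ≥0∞, 0 < ε → ∃ N : ℕ, ∀ k ≥ N, ∀ m ≥ N,
        ∫⁻ x, ‖lap (φ k) x - lap (φ m) x‖ₑ ^ 2 < ε) ∧
      (∀ᵐ x, Tendsto (fun k => φ k x) atTop (𝓝 (u x))) ∧
      Rep Ω u g ∧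
      (∀ ψ, IsTest Ω ψ → ∫ x, u x * lap (lap ψ) x = ∫ x, lap (lap θ) x * ψ x) ∧
      (∀ ψ, IsTest Ω ψ → ∫ x, (lap θ x - g x) * lap ψ x = 0) := by
  set G0 : L2 n := hθ.memLp_lap.toLp (lap θ) with hG0
  set G : L2 n := (MS Ω).starProjection G0 with hG
  have hGmem : G ∈ MS Ω := Submodule.starProjection_apply_mem _ _
  have horth : ∀ m ∈ MS Ω, ⟪G0 - G, m⟫_ℝ = 0 := fun m hm =>
    Submodule.starProjection_inner_eq_zero _ m hm
  -- approximating sequence
  obtain ⟨f, hf1, hf2⟩ : ∃ f : ℕ → L2 n, (∀ k, f k ∈ VS Ω) ∧ Tendsto f atTop (𝓝 G) :=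
    mem_closure_iff_seq_limit.1 hGmem
  choose φ0 hφ0 hφe using hf1
  have hfe : ∀ k, f k = (hφ0 k).memLp_lap.toLp (lap (φ0 k)) := fun k =>
    Lp.ext ((hφe k).trans (hφ0 k).memLp_lap.coeFn_toLp.symm)
  set W : ℕ → L2 n := fun k => (hφ0 k).memLp_wt.toLp (fun x => wt x * φ0 k x) with hW
  have hdistW : ∀ j k, dist (W j) (W k) ≤ dist (f j) (f k) := by
    intro j k
    rw [hfe j, hfe k, Lp.dist_def, Lp.dist_def]
    have hj : IsTest Set.univ (φ0 j) := (hφ0 j).mono (Set.subset_univ _)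
    have hk : IsTest Set.univ (φ0 k) := (hφ0 k).mono (Set.subset_univ _)
    have hR := rellich_norm hn (hj.sub hk)
    rw [lap_sub' hj.1 hk.1] at hR
    have e1 : eLpNorm (⇑(W j) - ⇑(W k)) 2 volume
        = eLpNorm (fun x => wt x * (φ0 j x - φ0 k x)) 2 volume := by
      apply eLpNorm_congr_ae
      filter_upwards [(hφ0 j).memLp_wt.coeFn_toLp, (hφ0 k).memLp_wt.coeFn_toLp] with x e1 e2
      rw [Pi.sub_apply, e1, e2]; ring
    have e2 : eLpNorm (⇑((hφ0 j).memLp_lap.toLp (lap (φ0 j)))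
        - ⇑((hφ0 k).memLp_lap.toLp (lap (φ0 k)))) 2 volume
        = eLpNorm (fun x => lap (φ0 j) x - lap (φ0 k) x) 2 volume := by
      apply eLpNorm_congr_ae
      filter_upwards [(hφ0 j).memLp_lap.coeFn_toLp, (hφ0 k).memLp_lap.coeFn_toLp] with x e1 e2
      rw [Pi.sub_apply, e1, e2]
    rw [e1, e2]
    apply ENNReal.toReal_mono _ hR
    exact ((hφ0 j).memLp_lap.sub (hφ0 k).memLp_lap).eLpNorm_ne_top
  have hWc : CauchySeq W := by
    rw [Metric.cauchySeq_iff]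
    intro ε hε
    obtain ⟨N, hN⟩ := (Metric.cauchySeq_iff.1 hf2.cauchySeq) ε hε
    exact ⟨N, fun j hj k hk => (hdistW j k).trans_lt (hN j hj k hk)⟩
  obtain ⟨H, hH⟩ := cauchySeq_tendsto_of_complete hWc
  obtain ⟨ns, hns1, hns2⟩ := (tendstoInMeasure_of_tendsto_Lp hH).exists_seq_tendsto_ae
  -- the limit function
  have hHm : Measurable (H : E n → ℝ) := (Lp.stronglyMeasurable H).measurable
  have hGm : Measurable (G : E n → ℝ) := (Lp.stronglyMeasurable G).measurable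
  have hmw : Measurable (wt : E n → ℝ) := continuous_wt.measurable
  have hf2' : Tendsto (fun k => f (ns k)) atTop (𝓝 G) := hf2.comp hns1.tendsto_atTop
  have hH' : Tendsto (fun k => W (ns k)) atTop (𝓝 H) := hH.comp hns1.tendsto_atTop
  have hrep : Rep Ω (fun x => H x / wt x) G := by
    apply Rep.closure (u' := fun k => φ0 (ns k)) (g' := fun k => lap (φ0 (ns k)))
      (hHm.div hmw) hGm (fun k => (hφ0 (ns k)).continuous.measurable) (fun k => measurable_lap _)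
      (fun k => (hφ0 (ns k)).rep)
    · have h1 : Tendsto (fun k => eLpNorm (⇑(f (ns k)) - ⇑G) 2 volume) atTop (𝓝 0) :=
        (Lp.tendsto_Lp_iff_tendsto_eLpNorm' _ _).1 hf2'
      refine h1.congr fun k => ?_
      apply eLpNorm_congr_ae
      filter_upwards [hφe (ns k)] with x hx
      rw [Pi.sub_apply, hx]
    · have h1 : Tendsto (fun k => eLpNorm (⇑(W (ns k)) - ⇑H) 2 volume) atTop (𝓝 0) :=
        (Lp.tendsto_Lp_iff_tendsto_eLpNorm' _ _).1 hH'
      refine h1.congr fun k => ?_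
      apply eLpNorm_congr_ae
      filter_upwards [(hφ0 (ns k)).memLp_wt.coeFn_toLp] with x hx
      rw [Pi.sub_apply, hx]
      have := wt_pos x
      show wt x * φ0 (ns k) x - H x = wt x * (φ0 (ns k) x - H x / wt x)
      field_simp
  have hortho : ∀ ψ, IsTest Ω ψ → ∫ x, (lap θ x - G x) * lap ψ x = 0 := by
    intro ψ hψ
    have h1 := horth _ (VS_le_MS Ω (toLp_mem_VS hψ))
    rw [real_inner_def] at h1
    rw [← h1]
    apply integral_congr_ae
    filter_upwards [Lp.coeFn_sub G0 G, hθ.memLp_lap.coeFn_toLp, hψ.memLp_lap.coeFn_toLp]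
      with x e1 e2 e3
    rw [e1, Pi.sub_apply, hG0, e2, e3]
  refine ⟨fun k => φ0 (ns k), fun x => H x / wt x, G, hHm.div hmw, hGm, Lp.memLp G,
    fun k => hφ0 (ns k), ?_, ?_, hrep, ?_, hortho⟩
  · -- Cauchy property
    intro ε hε
    obtain ⟨δ, hδ0, hδ⟩ : ∃ δ : ℝ, 0 < δ ∧ ENNReal.ofReal δ ^ 2 < ε := by
      have ht : Tendsto (fun j : ℕ => ENNReal.ofReal (1 / ((j : ℝ) + 1)) ^ 2) atTop (𝓝 0) := by
        have h1 : Tendsto (fun j : ℕ => ENNReal.ofReal (1 / ((j : ℝ) + 1))) atTop (𝓝 0) := by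
          have := (ENNReal.continuous_ofReal.tendsto 0).comp
            (tendsto_one_div_add_atTop_nhds_zero_nat (𝕜 := ℝ))
          rw [ENNReal.ofReal_zero] at this
          exact this
        have h2 := ((ENNReal.continuous_pow 2).tendsto 0).comp h1
        rw [zero_pow two_ne_zero] at h2
        exact h2
      obtain ⟨j, hj⟩ := (ht.eventually (gt_mem_nhds hε)).exists
      exact ⟨1 / ((j : ℝ) + 1), by positivity, hj⟩
    obtain ⟨N, hN⟩ := (Metric.cauchySeq_iff.1 hf2'.cauchySeq) δ hδ0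
    refine ⟨N, fun k hk m hm => ?_⟩
    have h1 := hN k hk m hm
    have h2 : eLpNorm (fun x => lap (φ0 (ns k)) x - lap (φ0 (ns m)) x) 2 volume
        ≤ ENNReal.ofReal δ := by
      rw [Lp.dist_def] at h1
      have e : eLpNorm (⇑(f (ns k)) - ⇑(f (ns m))) 2 volume
          = eLpNorm (fun x => lap (φ0 (ns k)) x - lap (φ0 (ns m)) x) 2 volume := by
        apply eLpNorm_congr_ae
        filter_upwards [hφe (ns k), hφe (ns m)] with x e1 e2
        rw [Pi.sub_apply, e1, e2]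
      rw [e] at h1
      have hne : eLpNorm (fun x => lap (φ0 (ns k)) x - lap (φ0 (ns m)) x) 2 volume ≠ ⊤ :=
        ((hφ0 (ns k)).memLp_lap.sub (hφ0 (ns m)).memLp_lap).eLpNorm_ne_top
      rw [← ENNReal.ofReal_toReal hne]
      exact ENNReal.ofReal_le_ofReal h1.le
    rw [lintegral_enorm_sq (fun x => lap (φ0 (ns k)) x - lap (φ0 (ns m)) x)]
    exact (pow_le_pow_left₀ zero_le h2 2).trans_lt hδ
  · -- almost everywhere convergence
    have hall : ∀ᵐ x, ∀ k, W (ns k) x = wt x * φ0 (ns k) x := by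
      rw [ae_all_iff]
      intro k
      exact (hφ0 (ns k)).memLp_wt.coeFn_toLp
    filter_upwards [hns2, hall] with x h1 h2
    have hw := wt_pos x
    have h3 := h1.div_const (wt x)
    refine h3.congr fun k => ?_
    rw [h2 k]
    field_simp
  · -- the weak equation
    intro ψ hψ
    have hψ' : IsTest Set.univ ψ := hψ.mono (Set.subset_univ _)
    have hF : ContDiff ℝ (⊤ : ℕ∞) (lap (lap ψ)) := contDiff_lap_top (contDiff_lap_top hψ.1)
    have hFc : HasCompactSupport (lap (lap ψ)) := hcs_lap (hcs_lap hψ.2.1)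
    have hFw : MemLp (fun x => lap (lap ψ) x / wt x) 2 volume := by
      have hc : Continuous (fun x => lap (lap ψ) x / wt x) :=
        hF.continuous.div continuous_wt fun x => (wt_pos x).ne'
      apply hc.memLp_of_hasCompactSupport
      have : (fun x => lap (lap ψ) x / wt x) = fun x => lap (lap ψ) x * (wt x)⁻¹ := by
        funext x; rw [div_eq_mul_inv]
      rw [this]
      exact hFc.mul_right
    -- left side as an inner product
    have e1 : ∫ x, H x / wt x * lap (lap ψ) x = ⟪H, hFw.toLp _⟫_ℝ := by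
      rw [real_inner_def]
      apply integral_congr_ae
      filter_upwards [hFw.coeFn_toLp] with x hx
      rw [hx]; ring
    have e2 : ∀ k, ⟪W (ns k), hFw.toLp _⟫_ℝ = ⟪f (ns k), hψ.memLp_lap.toLp _⟫_ℝ := by
      intro k
      have hg := green (g := φ0 (ns k)) (ψ := lap ψ) (contDiff_lap_top hψ.1) (hcs_lap hψ.2.1)
        (fun x _ => (contDiff_infty.1 (hφ0 (ns k)).1 2).contDiffAt)
      rw [real_inner_def, real_inner_def]
      have a1 : ∫ x, W (ns k) x * (hFw.toLp _ : L2 n) x = ∫ x, φ0 (ns k) x * lap (lap ψ) x := by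
        apply integral_congr_ae
        filter_upwards [hFw.coeFn_toLp, (hφ0 (ns k)).memLp_wt.coeFn_toLp] with x b1 b2
        rw [b1, b2]
        have := wt_pos x
        field_simp
      have a2 : ∫ x, f (ns k) x * (hψ.memLp_lap.toLp _ : L2 n) x
          = ∫ x, lap (φ0 (ns k)) x * lap ψ x := by
        apply integral_congr_ae
        filter_upwards [hφe (ns k), hψ.memLp_lap.coeFn_toLp] with x b1 b2
        rw [b1, b2]
      rw [a1, a2, hg]
    have l1 : Tendsto (fun k => ⟪W (ns k), (hFw.toLp _ : L2 n)⟫_ℝ) atTop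
        (𝓝 ⟪H, hFw.toLp _⟫_ℝ) := hH'.inner tendsto_const_nhds
    have l2 : Tendsto (fun k => ⟪f (ns k), (hψ.memLp_lap.toLp _ : L2 n)⟫_ℝ) atTop
        (𝓝 ⟪G, hψ.memLp_lap.toLp _⟫_ℝ) := hf2'.inner tendsto_const_nhds
    have e3 : ⟪H, (hFw.toLp _ : L2 n)⟫_ℝ = ⟪G, hψ.memLp_lap.toLp _⟫_ℝ :=
      tendsto_nhds_unique (l1.congr e2) l2
    have e4 : ⟪G, (hψ.memLp_lap.toLp _ : L2 n)⟫_ℝ = ⟪G0, hψ.memLp_lap.toLp _⟫_ℝ := by
      have h1 := horth _ (VS_le_MS Ω (toLp_mem_VS hψ))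
      rw [inner_sub_left] at h1
      linarith
    have e5 : ⟪G0, (hψ.memLp_lap.toLp _ : L2 n)⟫_ℝ = ∫ x, lap θ x * lap ψ x :=
      inner_toLp hθ.memLp_lap hψ.memLp_lap
    rw [e1, e3, e4, e5]
    exact green hψ.1 hψ.2.1
      (fun x _ => (contDiff_infty.1 (contDiff_lap_top hθ.1) 2).contDiffAt)

/-- Comparison of the solution in `Ω` with the one in a larger domain. -/
theorem compare_solution (hn : 5 ≤ n) {Ω V : Set (E n)} (hΩV : Ω ⊆ V) {θ : E n → ℝ}
    (hθ : IsTest Set.univ θ) {u g v h : E n → ℝ} (hum : Measurable u) (hgm : Measurable g)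
    (hg : MemLp g 2 volume) (hr : Rep Ω u g)
    (ho : ∀ ψ, IsTest Ω ψ → ∫ x, (lap θ x - g x) * lap ψ x = 0)
    (hvm : Measurable v) (hhm : Measurable h) (hh : MemLp h 2 volume) (hr' : Rep V v h)
    (ho' : ∀ ψ, IsTest V ψ → ∫ x, (lap θ x - h x) * lap ψ x = 0)
    {ψ : E n → ℝ} (hψ : IsTest Ω ψ) :
    eLpNorm (fun x => wt x * (u x - v x)) 2 volume
      ≤ eLpNorm (fun x => h x - lap ψ x) 2 volume := by
  refine (rep_compare hn hum hgm hvm hhm hr hr').trans ?_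
  set G : L2 n := hg.toLp g with hG
  set K : L2 n := hh.toLp h with hK
  set Θ : L2 n := hθ.memLp_lap.toLp (lap θ) with hΘ
  set Ψ : L2 n := hψ.memLp_lap.toLp (lap ψ) with hΨ
  have hGm : G ∈ MS Ω := rep_mem_MS hg hr
  have hΨm : Ψ ∈ MS Ω := VS_le_MS Ω (toLp_mem_VS hψ)
  have o1 : ∀ m ∈ MS Ω, ⟪Θ - G, m⟫_ℝ = 0 := by
    intro m hm
    apply inner_eq_zero_of_MS _ hm
    intro χ hχ
    rw [← ho χ hχ, real_inner_def]
    apply integral_congr_ae
    filter_upwards [Lp.coeFn_sub Θ G, hθ.memLp_lap.coeFn_toLp, hg.coeFn_toLp,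
      hχ.memLp_lap.coeFn_toLp] with x e1 e2 e3 e4
    rw [e1, Pi.sub_apply, hΘ, e2, hG, e3, e4]
  have o2 : ∀ m ∈ MS V, ⟪Θ - K, m⟫_ℝ = 0 := by
    intro m hm
    apply inner_eq_zero_of_MS _ hm
    intro χ hχ
    rw [← ho' χ hχ, real_inner_def]
    apply integral_congr_ae
    filter_upwards [Lp.coeFn_sub Θ K, hθ.memLp_lap.coeFn_toLp, hh.coeFn_toLp,
      hχ.memLp_lap.coeFn_toLp] with x e1 e2 e3 e4
    rw [e1, Pi.sub_apply, hΘ, e2, hK, e3, e4]
  have o3 : ⟪K - G, G - Ψ⟫_ℝ = 0 := by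
    have hm : G - Ψ ∈ MS Ω := (MS Ω).sub_mem hGm hΨm
    have h1 := o1 _ hm
    have h2 := o2 _ (MS_mono hΩV hm)
    have e : K - G = (Θ - G) - (Θ - K) := by abel
    rw [e, inner_sub_left, h1, h2, sub_zero]
  have hle : ‖G - K‖ ≤ ‖K - Ψ‖ := by
    have e : K - Ψ = (K - G) + (G - Ψ) := by abel
    have h1 : ‖K - Ψ‖ ^ 2 = ‖K - G‖ ^ 2 + ‖G - Ψ‖ ^ 2 := by
      rw [e, norm_add_sq_real, o3]; ring
    rw [norm_sub_rev G K]
    have h2 : ‖K - G‖ ^ 2 ≤ ‖K - Ψ‖ ^ 2 := by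
      rw [h1]; nlinarith [sq_nonneg ‖G - Ψ‖]
    exact (pow_le_pow_iff_left₀ (norm_nonneg _) (norm_nonneg _) two_ne_zero).1 h2
  have n1 : eLpNorm (fun x => g x - h x) 2 volume = ENNReal.ofReal ‖G - K‖ := by
    rw [hG, hK, ← MemLp.toLp_sub, Lp.norm_toLp, ENNReal.ofReal_toReal]
    · rfl
    · exact (hg.sub hh).eLpNorm_ne_top
  have n2 : eLpNorm (fun x => h x - lap ψ x) 2 volume = ENNReal.ofReal ‖K - Ψ‖ := by
    rw [hK, hΨ, ← MemLp.toLp_sub, Lp.norm_toLp, ENNReal.ofReal_toReal]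
    · rfl
    · exact (hh.sub hψ.memLp_lap).eLpNorm_ne_top
  rw [n1, n2]
  exact ENNReal.ofReal_le_ofReal hle

end Pool.Agent.Lib.MP_7045fd_an
end

section

set_option autoImplicit false

namespace Pool.Agent.Lib.MP_7045fd_an

open MeasureTheory Filter Topology Metric
open scoped ENNReal InnerProductSpace

variable {n : ℕ}

theorem integrableOn_inv_Nf_sq (hn : 5 ≤ n) (L : ℝ) :
    IntegrableOn (fun x : E n => 1 / (Nf 0 x) ^ 2) (ball (0 : E n) L) := by
  have hnt : Nontrivial (E n) := by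
    have : 0 < Module.finrank ℝ (E n) := by
      rw [finrank_euclideanSpace, Fintype.card_fin]; omega
    exact Module.finrank_pos_iff.1 this
  have h := (integrableOn_fun_norm_addHaar (E := E n) (volume : Measure (E n))
    (f := fun y : ℝ => 1 / (y ^ 2) ^ 2) (r := L)).2 (by
      rw [finrank_euclideanSpace, Fintype.card_fin]
      have hc : IntegrableOn (fun y : ℝ => y ^ (n - 5)) (Set.Ioo 0 L) := by
        have : IntegrableOn (fun y : ℝ => y ^ (n - 5)) (Set.Icc 0 L) :=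
          (continuous_pow _).integrableOn_Icc
        exact this.mono_set Set.Ioo_subset_Icc_self
      refine hc.congr_fun ?_ measurableSet_Ioo
      intro y hy
      have hy0 : y ≠ 0 := hy.1.ne'
      simp only [smul_eq_mul]
      obtain ⟨m, rfl⟩ := Nat.exists_eq_add_of_le hn
      have e1 : 5 + m - 5 = m := by omega
      have e2 : 5 + m - 1 = m + 4 := by omega
      rw [e1, e2]
      field_simp
      ring)
  refine h.congr_fun ?_ measurableSet_ball
  intro x _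
  simp only [Nf_zero]

/-- Test functions can be cut off near the origin. -/
theorem small_cut (hn : 5 ≤ n) {V : Set (E n)} {ψ : E n → ℝ} (hψ : IsTest V ψ) (ε : ℝ≥0∞)
    (hε : ε ≠ 0) : ∃ δ : ℝ, 0 < δ ∧ ∀ r : ℝ, 0 < r → r ≤ δ →
      ∃ χ, IsTest (V ∩ {x | r < ‖x‖}) χ ∧ eLpNorm (fun x => lap χ x - lap ψ x) 2 volume ≤ ε := by
  obtain ⟨M, hM1, hM, hM'⟩ := exists_bound_sT
  set Q : E n → ℝ := Nf 0 with hQ
  have hQs : ContDiff ℝ (⊤ : ℕ∞) Q := contDiff_Nf 0
  have hQc : Continuous Q := continuous_Nf 0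
  have hQ0 : ∀ x, 0 ≤ Q x := Nf_nonneg 0
  have hQn : ∀ x, Q x = ‖x‖ ^ 2 := Nf_zero
  obtain ⟨L, hL⟩ : ∃ L, tsupport ψ ⊆ ball (0 : E n) L := (hψ.2.1.isBounded).subset_ball 0
  have hgc : Continuous (gam ψ ψ) := by
    unfold gam
    exact continuous_finsetSum _ fun i _ =>
      (contDiff_pd_top hψ.1).continuous.mul (contDiff_pd_top hψ.1).continuous
  obtain ⟨C1, hC1⟩ := hψ.2.1.exists_bound_of_continuousOn (f := gam ψ ψ) hgc.continuousOn
  obtain ⟨C2, hC2⟩ := hψ.2.1.exists_bound_of_continuousOn (f := ψ) hψ.continuous.continuousOn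
  set K : ℝ := 2 * n + 4 with hK
  have hK0 : 0 ≤ K := by positivity
  set D1 : ℝ := 8 * (4 * M ^ 2 * K) * |C1| with hD1
  set D2 : ℝ := 2 * (C2 ^ 2 * (6 * M * K) ^ 2) with hD2
  have hD10 : 0 ≤ D1 := by positivity
  have hD20 : 0 ≤ D2 := by positivity
  set ζ : ℕ → E n → ℝ := fun j => cut (j : ℝ) Q with hζ
  have hζs : ∀ j, ContDiff ℝ (⊤ : ℕ∞) (ζ j) := fun j => contDiff_cut hQs
  set G : E n → ℝ := (ball (0 : E n) L).indicator
    (fun x => D1 + (D1 + D2) * (1 / (Q x) ^ 2)) with hG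
  have hGint : Integrable G := by
    rw [hG, integrable_indicator_iff measurableSet_ball]
    apply Integrable.add
    · exact integrableOn_const measure_ball_lt_top.ne (by simp)
    · exact (integrableOn_inv_Nf_sq hn L).const_mul _
  have hnz : ∀ᵐ x : E n, x ≠ 0 := by
    have hnt : Nontrivial (E n) := by
      have : 0 < Module.finrank ℝ (E n) := by
        rw [finrank_euclideanSpace, Fintype.card_fin]; omega
      exact Module.finrank_pos_iff.1 this
    rw [ae_iff]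
    simp
  have hconv := cut_conv (u := ψ) (ζ := ζ) (G := G) hψ.continuous.measurable
    (Eventually.of_forall fun x => (contDiff_infty.1 hψ.1 2).contDiffAt) hψ.memLp_lap hψ.memLp_wt
    hζs (fun j x => cut_nonneg) (fun j x => cut_le_one) hGint
    (by
      intro j
      filter_upwards [hnz] with x hx
      have hQpos : 0 < Q x := by
        rw [hQn]; exact pow_pos (norm_pos_iff.2 hx) 2
      by_cases hxs : x ∈ tsupport ψ
      · have hxb := hL hxs
        have hg : gam Q Q x ≤ K * Q x := by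
          rw [hQ, gam_NN]
          apply mul_le_mul_of_nonneg_right _ hQpos.le
          rw [hK]
          have : (0:ℝ) ≤ n := Nat.cast_nonneg n
          linarith
        have hlq : |lap Q x| ≤ K := by
          rw [hQ, lap_N, abs_of_nonneg (by positivity), hK]
          linarith
        obtain ⟨b1, b2⟩ := cut_bounds (c := (j : ℝ)) hM1 hM hM' (Nat.cast_nonneg j) hK0
          (contDiff_infty.1 hQs 2).contDiffAt hQpos hg hlq
        have hgu : gam ψ ψ x ≤ |C1| := (le_abs_self _).trans ((hC1 x hxs).trans (le_abs_self _))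
        have hu2 : ψ x ^ 2 * lap (ζ j) x ^ 2 ≤ C2 ^ 2 * (6 * M * K / Q x) ^ 2 := by
          have hl2 : lap (ζ j) x ^ 2 ≤ (6 * M * K / Q x) ^ 2 := by
            rw [← sq_abs]
            exact pow_le_pow_left₀ (abs_nonneg _) b2 2
          have hu3 : ψ x ^ 2 ≤ C2 ^ 2 := by
            rw [← sq_abs]
            exact pow_le_pow_left₀ (abs_nonneg _) (hC2 x hxs) 2
          exact mul_le_mul hu3 hl2 (sq_nonneg _) (by positivity)
        have h := sq_bound (gam_sq_le (f := ζ j) (g := ψ) (x := x)) gam_self_nonneg gam_self_nonneg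
          b1 hgu hu2
        rw [hG, Set.indicator_of_mem hxb]
        have h1 : 1 / Q x ≤ 1 + 1 / Q x ^ 2 := by
          have : 1 + 1 / Q x ^ 2 - 1 / Q x = (1 / Q x - 1 / 2) ^ 2 + 3 / 4 := by
            field_simp
            ring
          nlinarith [sq_nonneg (1 / Q x - 1 / 2)]
        calc _ ≤ _ := h
          _ = D1 * (1 / Q x) + D2 * (1 / Q x ^ 2) := by
              rw [hD1, hD2]; field_simp
          _ ≤ D1 * (1 + 1 / Q x ^ 2) + D2 * (1 / Q x ^ 2) := by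
              have := mul_le_mul_of_nonneg_left h1 hD10
              linarith
          _ = _ := by ring
      · have h1 : ψ =ᶠ[𝓝 x] fun _ => 0 := notMem_tsupport_iff_eventuallyEq.1 hxs
        rw [gam_congr (EventuallyEq.refl _ _) h1, gam_const_right, h1.self_of_nhds]
        have : 0 ≤ G x := by
          rw [hG]
          apply Set.indicator_nonneg
          intro y _
          positivity
        simpa using this)
    (by
      filter_upwards [hnz] with x hx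
      have hQpos : 0 < Q x := by
        rw [hQn]; exact pow_pos (norm_pos_iff.2 hx) 2
      have ht : Tendsto (fun j : ℕ => (j : ℝ) * Q x) atTop atTop :=
        tendsto_natCast_atTop_atTop.atTop_mul_const hQpos
      filter_upwards [ht.eventually_gt_atTop 2] with j hj
      exact cut_eventually_one hQc.continuousAt hj)
  obtain ⟨hc1, -, -⟩ := hconv
  have e1 := (ENNReal.tendsto_nhds_zero.1 hc1) ε (pos_iff_ne_zero.2 hε)
  obtain ⟨j, hj, hj1⟩ := (e1.and (eventually_ge_atTop 1)).exists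
  have hj1' : (1:ℝ) ≤ j := by exact_mod_cast hj1
  refine ⟨1 / ((j : ℝ) + 1), by positivity, fun r hr0 hr => ⟨fun x => ζ j x * ψ x, ?_, hj⟩⟩
  refine ⟨(hζs j).mul hψ.1, hψ.2.1.mul_left, ?_⟩
  intro x hx
  refine ⟨hψ.2.2 (closure_mono (Function.support_mul_subset_right _ _) hx), ?_⟩
  have h1 : x ∈ tsupport (ζ j) := closure_mono (Function.support_mul_subset_left _ _) hx
  have hcl : IsClosed {x : E n | 1 ≤ (j : ℝ) * Q x} :=
    isClosed_le continuous_const (continuous_const.mul hQc)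
  have h2 : x ∈ {x : E n | 1 ≤ (j : ℝ) * Q x} := by
    apply closure_minimal _ hcl h1
    intro y hy
    by_contra hcon
    apply hy
    apply cut_eq_zero
    have : ¬ 1 ≤ (j : ℝ) * Q y := hcon
    linarith [not_le.1 this]
  have h3 : 1 ≤ (j : ℝ) * ‖x‖ ^ 2 := by rw [← hQn]; exact h2
  show r < ‖x‖
  by_contra hcon
  have h4 : ‖x‖ ≤ 1 / ((j : ℝ) + 1) := (not_lt.1 hcon).trans hr
  have h5 : ‖x‖ ^ 2 ≤ (1 / ((j : ℝ) + 1)) ^ 2 := pow_le_pow_left₀ (norm_nonneg _) h4 2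
  have h6 : (j : ℝ) * (1 / ((j : ℝ) + 1)) ^ 2 < 1 := by
    rw [one_div, inv_pow, ← div_eq_mul_inv, div_lt_one (by positivity)]
    nlinarith
  have h7 : (j : ℝ) * ‖x‖ ^ 2 ≤ (j : ℝ) * (1 / ((j : ℝ) + 1)) ^ 2 :=
    mul_le_mul_of_nonneg_left h5 (by positivity)
  linarith

end Pool.Agent.Lib.MP_7045fd_an
end
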